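import Mathlib
import Pool.Agent.W301.SS.Core

/-! Random sums of elements of a list: the expectation functional and its Fourier transform. -/

set_option autoImplicit false

namespace Pool.Agent.K4H3.CT
open Finset
open Pool.Agent.H807R2.Dav

section gen
variable {G G' E F : Type*} [AddCommGroup G] [AddCommGroup G'] [AddCommGroup E] [Module ℝ E]
  [AddCommGroup F] [Module ℝ F]

/-- the expectation of `f (∑ v_s s)`, the `v_s` independent with law `p` on `{-2, …, 2}` -/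
noncomputable def Ev {G E : Type*} [AddCommGroup G] [AddCommGroup E] [Module ℝ E] (p : ℤ → ℝ) :
    List G → (G → E) → E
  | [], f => f 0
  | (s :: L), f => ∑ v ∈ Icc (-2 : ℤ) 2, p v • Ev p L (fun x => f (x + v • s))

lemma Ev_nil (p : ℤ → ℝ) (f : G → E) : Ev p [] f = f 0 := rfl

lemma Ev_cons (p : ℤ → ℝ) (s : G) (L : List G) (f : G → E) :
    Ev p (s :: L) f = ∑ v ∈ Icc (-2 : ℤ) 2, p v • Ev p L (fun x => f (x + v • s)) := rfl

lemma Ev_sum {ι : Type*} (p : ℤ → ℝ) (S : Finset ι) (L : List G) (f : ι → G → E) :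
    Ev p L (fun x => ∑ i ∈ S, f i x) = ∑ i ∈ S, Ev p L (f i) := by
  induction L generalizing f with
  | nil => rfl
  | cons s L ih =>
    simp only [Ev_cons]
    rw [sum_comm]
    apply sum_congr rfl; intro v _
    rw [ih (fun i x => f i (x + v • s)), smul_sum]

lemma Ev_lin (p : ℤ → ℝ) (L : List G) (T : E →ₗ[ℝ] F) (f : G → E) :
    T (Ev p L f) = Ev p L (fun x => T (f x)) := by
  induction L generalizing f with
  | nil => rfl
  | cons s L ih =>
    simp only [Ev_cons, map_sum, map_smul]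
    apply sum_congr rfl; intro v _
    rw [ih]

lemma Ev_add (p : ℤ → ℝ) (L : List G) (f g : G → E) :
    Ev p L (fun x => f x + g x) = Ev p L f + Ev p L g := by
  induction L generalizing f g with
  | nil => rfl
  | cons s L ih =>
    simp only [Ev_cons]
    rw [← sum_add_distrib]
    apply sum_congr rfl; intro v _
    rw [ih, smul_add]

lemma Ev_smul (p : ℤ → ℝ) (L : List G) (c : ℝ) (f : G → E) :
    Ev p L (fun x => c • f x) = c • Ev p L f :=
  (Ev_lin p L (LinearMap.lsmul ℝ E c) f).symm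

lemma Ev_mulR (p : ℤ → ℝ) (L : List G) (c : ℝ) (f : G → ℝ) :
    Ev p L (fun x => c * f x) = c * Ev p L f := Ev_smul p L c f

lemma Ev_mulC (p : ℤ → ℝ) (L : List G) (c : ℂ) (f : G → ℂ) :
    Ev p L (fun x => c * f x) = c * Ev p L f :=
  (Ev_lin p L (LinearMap.mulLeft ℝ c) f).symm

lemma Ev_ofReal (p : ℤ → ℝ) (L : List G) (f : G → ℝ) :
    ((Ev p L f : ℝ) : ℂ) = Ev p L (fun x => ((f x : ℝ) : ℂ)) :=
  Ev_lin p L (Complex.ofRealCLM.toLinearMap) f

lemma Ev_map (p : ℤ → ℝ) (L : List G) (g : G →+ G') (f : G' → E) :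
    Ev p (L.map g) f = Ev p L (fun x => f (g x)) := by
  induction L generalizing f with
  | nil => simp [Ev_nil]
  | cons s L ih =>
    simp only [List.map_cons, Ev_cons]
    apply sum_congr rfl; intro v _
    rw [ih]
    simp only [map_add, map_zsmul]

lemma Ev_append (p : ℤ → ℝ) (L L' : List G) (f : G → E) :
    Ev p (L ++ L') f = Ev p L (fun x => Ev p L' (fun y => f (x + y))) := by
  induction L generalizing f with
  | nil => simp [Ev_nil]
  | cons s L ih =>
    simp only [List.cons_append, Ev_cons]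
    apply sum_congr rfl; intro v _
    rw [ih]
    congr 2
    funext x
    congr 1
    funext y
    rw [show x + y + v • s = x + v • s + y by abel]

/-- a probability law -/
def IsLaw (p : ℤ → ℝ) : Prop := (∀ v, 0 ≤ p v) ∧ ∑ v ∈ Icc (-2 : ℤ) 2, p v = 1

lemma Ev_const {p : ℤ → ℝ} (hp : IsLaw p) (L : List G) (c : E) :
    Ev p L (fun _ => c) = c := by
  induction L with
  | nil => rfl
  | cons s L ih =>
    simp only [Ev_cons]
    rw [ih, ← sum_smul, hp.2, one_smul]

lemma Ev_mono_supp {p : ℤ → ℝ} (hp : ∀ v, 0 ≤ p v) (N : G → ℝ) (c : ℝ) (hN0 : N 0 ≤ 0)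
    (hN : ∀ (x s : G) (v : ℤ), p v ≠ 0 → N (x + v • s) ≤ N x + c * N s) (L : List G)
    (f g : G → ℝ) (h : ∀ x, N x ≤ c * (L.map N).sum → f x ≤ g x) : Ev p L f ≤ Ev p L g := by
  induction L generalizing f g with
  | nil => exact h 0 (by simpa using hN0)
  | cons s L ih =>
    simp only [Ev_cons]
    apply sum_le_sum; intro v _
    by_cases hv : p v = 0
    · rw [hv]; simp
    · refine mul_le_mul_of_nonneg_left ?_ (hp v)
      apply ih
      intro x hx
      apply h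
      have := hN x s v hv
      simp only [List.map_cons, List.sum_cons]
      linarith

lemma Ev_mono {p : ℤ → ℝ} (hp : ∀ v, 0 ≤ p v) (L : List G) (f g : G → ℝ) (h : ∀ x, f x ≤ g x) :
    Ev p L f ≤ Ev p L g :=
  Ev_mono_supp hp (fun _ => 0) 0 le_rfl (fun _ _ _ _ => by simp) L f g (fun x _ => h x)

lemma Ev_nonneg {p : ℤ → ℝ} (hp : IsLaw p) (L : List G) (f : G → ℝ) (h : ∀ x, 0 ≤ f x) :
    0 ≤ Ev p L f := by
  have := Ev_mono hp.1 L (fun _ => (0 : ℝ)) f h
  rwa [Ev_const hp] at this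

lemma Ev_congr_supp {p : ℤ → ℝ} (hp : ∀ v, 0 ≤ p v) (N : G → ℝ) (c : ℝ) (hN0 : N 0 ≤ 0)
    (hN : ∀ (x s : G) (v : ℤ), p v ≠ 0 → N (x + v • s) ≤ N x + c * N s) (L : List G)
    (f g : G → ℝ) (h : ∀ x, N x ≤ c * (L.map N).sum → f x = g x) : Ev p L f = Ev p L g :=
  le_antisymm (Ev_mono_supp hp N c hN0 hN L f g (fun x hx => (h x hx).le))
    (Ev_mono_supp hp N c hN0 hN L g f (fun x hx => (h x hx).ge))

end gen

lemma Ev_norm_le {G E : Type*} [AddCommGroup G] [NormedAddCommGroup E] [NormedSpace ℝ E]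
    {p : ℤ → ℝ} (hp : ∀ v, 0 ≤ p v) (L : List G) (f : G → E) :
    ‖Ev p L f‖ ≤ Ev p L (fun x => ‖f x‖) := by
  induction L generalizing f with
  | nil => exact le_rfl
  | cons s L ih =>
    simp only [Ev_cons]
    refine (norm_sum_le _ _).trans (sum_le_sum fun v _ => ?_)
    rw [norm_smul, Real.norm_eq_abs, abs_of_nonneg (hp v)]
    exact mul_le_mul_of_nonneg_left (ih _) (hp v)

/-! ### The three laws -/

/-- the difference of two fair coins -/
noncomputable def dl (v : ℤ) : ℝ := if v = 0 then 1 / 2 else if v = 1 ∨ v = -1 then 1 / 4 else 0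

/-- the sum of two fair coins -/
noncomputable def el (v : ℤ) : ℝ := if v = 1 then 1 / 2 else if v = 0 ∨ v = 2 then 1 / 4 else 0

/-- one fair coin -/
noncomputable def cl (v : ℤ) : ℝ := if v = 0 ∨ v = 1 then 1 / 2 else 0

lemma Icc22 : Icc (-2 : ℤ) 2 = {-2, -1, 0, 1, 2} := by decide

lemma dl_law : IsLaw dl := by
  refine ⟨fun v => by unfold dl; split_ifs <;> norm_num, ?_⟩
  rw [Icc22]; simp [dl]; norm_num

lemma el_law : IsLaw el := by
  refine ⟨fun v => by unfold el; split_ifs <;> norm_num, ?_⟩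
  rw [Icc22]; simp [el]; norm_num

lemma cl_law : IsLaw cl := by
  refine ⟨fun v => by unfold cl; split_ifs <;> norm_num, ?_⟩
  rw [Icc22]; simp [cl]; norm_num

section laws
variable {G E : Type*} [AddCommGroup G] [AddCommGroup E] [Module ℝ E]

lemma Ev_dl (s : G) (L : List G) (f : G → E) : Ev dl (s :: L) f =
    (1 / 2 : ℝ) • Ev dl L f + (1 / 4 : ℝ) • Ev dl L (fun x => f (x + s)) +
      (1 / 4 : ℝ) • Ev dl L (fun x => f (x - s)) := by
  rw [Ev_cons, Icc22]
  simp [dl, ← sub_eq_add_neg]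
  abel

lemma Ev_el (s : G) (L : List G) (f : G → E) : Ev el (s :: L) f =
    (1 / 4 : ℝ) • Ev el L f + (1 / 2 : ℝ) • Ev el L (fun x => f (x + s)) +
      (1 / 4 : ℝ) • Ev el L (fun x => f (x + (2 : ℤ) • s)) := by
  rw [Ev_cons, Icc22]
  simp [el]
  abel

lemma Ev_cl (s : G) (L : List G) (f : G → E) : Ev cl (s :: L) f =
    (1 / 2 : ℝ) • Ev cl L f + (1 / 2 : ℝ) • Ev cl L (fun x => f (x + s)) := by
  rw [Ev_cons, Icc22]
  simp [cl]

/-- the difference of two independent copies -/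
lemma Ev_diff (L : List G) (f : G → E) :
    Ev cl L (fun x => Ev cl L (fun y => f (x - y))) = Ev dl L f := by
  induction L generalizing f with
  | nil => simp [Ev_nil]
  | cons s L ih =>
    have h1 : ∀ g : G → E, ∀ z : G, Ev cl L (fun x => Ev cl L (fun y => g (x - y + z))) =
        Ev dl L (fun x => g (x + z)) := fun g z => ih (fun x => g (x + z))
    rw [Ev_dl, Ev_cl]
    simp only [Ev_cl]
    have e1 : Ev cl L (fun x => (1 / 2 : ℝ) • Ev cl L (fun y => f (x - y)) +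
        (1 / 2 : ℝ) • Ev cl L (fun y => f (x - (y + s)))) =
        (1 / 2 : ℝ) • Ev dl L f + (1 / 2 : ℝ) • Ev dl L (fun x => f (x - s)) := by
      rw [Ev_add, Ev_smul, Ev_smul, ih f]
      congr 2
      rw [← ih (fun x => f (x - s))]
      congr 1; funext x; congr 1; funext y
      rw [show x - (y + s) = x - y - s by abel]
    have e2 : Ev cl L (fun x => (1 / 2 : ℝ) • Ev cl L (fun y => f (x + s - y)) +
        (1 / 2 : ℝ) • Ev cl L (fun y => f (x + s - (y + s)))) =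
        (1 / 2 : ℝ) • Ev dl L (fun x => f (x + s)) + (1 / 2 : ℝ) • Ev dl L f := by
      rw [Ev_add, Ev_smul, Ev_smul]
      congr 2
      · rw [← ih (fun x => f (x + s))]
        congr 1; funext x; congr 1; funext y
        rw [show x + s - y = x - y + s by abel]
      · rw [← ih f]
        congr 1; funext x; congr 1; funext y
        rw [show x + s - (y + s) = x - y by abel]
    rw [e1, e2]
    module

lemma Ev_dl_neg (L : List G) (f : G → E) : Ev dl L (fun x => f (-x)) = Ev dl L f := by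
  induction L generalizing f with
  | nil => simp [Ev_nil]
  | cons s L ih =>
    rw [Ev_dl, Ev_dl, ih f]
    have e1 : Ev dl L (fun x => f (-(x + s))) = Ev dl L (fun x => f (x - s)) := by
      rw [← ih (fun x => f (x - s))]
      congr 1; funext x; congr 1; abel
    have e2 : Ev dl L (fun x => f (-(x - s))) = Ev dl L (fun x => f (x + s)) := by
      rw [← ih (fun x => f (x + s))]
      congr 1; funext x; congr 1; abel
    rw [e1, e2]; abel

end laws

/-! ### Fourier transforms -/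

/-- the transform of the difference law -/
noncomputable def GG (L : List ℤ) (θ : ℝ) : ℝ :=
  (L.map (fun s : ℤ => (1 + Real.cos (2 * Real.pi * (s * θ))) / 2)).prod

lemma GG_nil (θ : ℝ) : GG [] θ = 1 := rfl

lemma GG_cons (s : ℤ) (L : List ℤ) (θ : ℝ) :
    GG (s :: L) θ = (1 + Real.cos (2 * Real.pi * (s * θ))) / 2 * GG L θ := by
  simp [GG]

lemma GG_append (L L' : List ℤ) (θ : ℝ) : GG (L ++ L') θ = GG L θ * GG L' θ := by
  simp [GG]

lemma GG_nonneg (L : List ℤ) (θ : ℝ) : 0 ≤ GG L θ := by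
  induction L with
  | nil => simp [GG_nil]
  | cons s L ih =>
    rw [GG_cons]
    have := Real.neg_one_le_cos (2 * Real.pi * (s * θ))
    apply mul_nonneg _ ih
    linarith

lemma GG_le_one (L : List ℤ) (θ : ℝ) : GG L θ ≤ 1 := by
  induction L with
  | nil => simp [GG_nil]
  | cons s L ih =>
    rw [GG_cons]
    have h1 := Real.neg_one_le_cos (2 * Real.pi * (s * θ))
    have h2 := Real.cos_le_one (2 * Real.pi * (s * θ))
    exact mul_le_one₀ (by linarith) (GG_nonneg L θ) ih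

lemma ee_cos (x : ℝ) : ((Real.cos (2 * Real.pi * x) : ℝ) : ℂ) = (ee x + ee (-x)) / 2 := by
  rw [ee_eq, ee_eq, Complex.ofReal_cos, Complex.cos]
  congr 2
  push_cast
  ring_nf

lemma four_dl (L : List ℤ) (θ : ℝ) :
    Ev dl L (fun x : ℤ => ee ((x : ℝ) * θ)) = ((GG L θ : ℝ) : ℂ) := by
  induction L with
  | nil => simp [Ev_nil, GG_nil, ee_zero]
  | cons s L ih =>
    rw [Ev_dl, GG_cons]
    have e1 : ∀ x : ℤ, ee (((x + s : ℤ) : ℝ) * θ) = ee ((s : ℝ) * θ) * ee ((x : ℝ) * θ) := by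
      intro x; rw [← ee_add]; congr 1; push_cast; ring
    have e2 : ∀ x : ℤ, ee (((x - s : ℤ) : ℝ) * θ) = ee (-((s : ℝ) * θ)) * ee ((x : ℝ) * θ) := by
      intro x; rw [← ee_add]; congr 1; push_cast; ring
    simp only [e1, e2]
    rw [Ev_mulC, Ev_mulC, ih]
    push_cast
    have h := ee_cos ((s : ℝ) * θ)
    push_cast at h
    rw [h]
    simp only [Complex.real_smul]
    push_cast
    ring

lemma norm_one_add_ee (x : ℝ) : ‖(1 + ee x) / 2‖ ^ 2 = (1 + Real.cos (2 * Real.pi * x)) / 2 := by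
  have h : (((‖(1 + ee x) / 2‖ ^ 2 : ℝ)) : ℂ) = (((1 + Real.cos (2 * Real.pi * x)) / 2 : ℝ) : ℂ) := by
    push_cast
    rw [← Complex.mul_conj']
    have h := ee_cos x
    push_cast at h
    rw [h, map_div₀, map_add, map_one, Pool.Agent.W301.SS.star_ee]
    have h2 : ee x * ee (-x) = 1 := by rw [← ee_add]; simp [ee_zero]
    have h3 : (starRingEnd ℂ) 2 = 2 := Complex.conj_ofNat 2
    rw [h3]
    linear_combination (1 / 4 : ℂ) * h2
  exact_mod_cast h

lemma four_cl (L : List ℤ) (θ : ℝ) :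
    ‖Ev cl L (fun x : ℤ => ee ((x : ℝ) * θ))‖ ^ 2 = GG L θ := by
  induction L with
  | nil => simp [Ev_nil, GG_nil, ee_zero]
  | cons s L ih =>
    rw [Ev_cl, GG_cons]
    have e1 : ∀ x : ℤ, ee (((x + s : ℤ) : ℝ) * θ) = ee ((s : ℝ) * θ) * ee ((x : ℝ) * θ) := by
      intro x; rw [← ee_add]; congr 1; push_cast; ring
    simp only [e1]
    rw [Ev_mulC]
    have e3 : (1 / 2 : ℝ) • Ev cl L (fun x : ℤ => ee ((x : ℝ) * θ)) + (1 / 2 : ℝ) •
        (ee ((s : ℝ) * θ) * Ev cl L (fun x : ℤ => ee ((x : ℝ) * θ))) =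
        (1 + ee ((s : ℝ) * θ)) / 2 * Ev cl L (fun x : ℤ => ee ((x : ℝ) * θ)) := by
      simp only [Complex.real_smul]; push_cast; ring
    rw [e3, norm_mul, mul_pow, ih, norm_one_add_ee]

lemma four_el (L : List ℤ) (θ : ℝ) :
    ‖Ev el L (fun x : ℤ => ee ((x : ℝ) * θ))‖ = GG L θ := by
  induction L with
  | nil => simp [Ev_nil, GG_nil, ee_zero]
  | cons s L ih =>
    rw [Ev_el, GG_cons]
    have e1 : ∀ x : ℤ, ee (((x + s : ℤ) : ℝ) * θ) = ee ((s : ℝ) * θ) * ee ((x : ℝ) * θ) := by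
      intro x; rw [← ee_add]; congr 1; push_cast; ring
    have e2 : ∀ x : ℤ, ee (((x + (2 : ℤ) • s : ℤ) : ℝ) * θ) =
        ee ((s : ℝ) * θ) ^ 2 * ee ((x : ℝ) * θ) := by
      intro x; rw [← ee_pow, ← ee_add]; congr 1; push_cast; simp; ring
    simp only [e1, e2]
    rw [Ev_mulC, Ev_mulC]
    have e3 : (1 / 4 : ℝ) • Ev el L (fun x : ℤ => ee ((x : ℝ) * θ)) + (1 / 2 : ℝ) •
        (ee ((s : ℝ) * θ) * Ev el L (fun x : ℤ => ee ((x : ℝ) * θ))) + (1 / 4 : ℝ) •
        (ee ((s : ℝ) * θ) ^ 2 * Ev el L (fun x : ℤ => ee ((x : ℝ) * θ))) =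
        ((1 + ee ((s : ℝ) * θ)) / 2) ^ 2 * Ev el L (fun x : ℤ => ee ((x : ℝ) * θ)) := by
      simp only [Complex.real_smul]; push_cast; ring
    rw [e3, norm_mul, norm_pow, ih, norm_one_add_ee]

/-- the law modulo `M` from the transform -/
lemma four_mod {M : ℕ} (hM : 1 ≤ M) (L : List ℤ) (z : ℤ) :
    (M : ℂ) * ((Ev dl L (fun x : ℤ => if (M : ℤ) ∣ x - z then (1 : ℝ) else 0) : ℝ) : ℂ) =
      ∑ r ∈ range M, ee (-((z : ℝ) * ((r : ℝ) / M))) * ((GG L ((r : ℝ) / M) : ℝ) : ℂ) := by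
  simp_rw [← four_dl, ← Ev_mulC]
  rw [← Ev_sum, Ev_ofReal, ← Ev_mulC]
  congr 1
  funext x
  have h := Pool.Agent.W301.SS.orth hM (x - z)
  have e : ∀ r ∈ range M, ee (-((z : ℝ) * ((r : ℝ) / M))) * ee ((x : ℝ) * ((r : ℝ) / M)) =
      ee (((x - z : ℤ) : ℝ) * ((r : ℝ) / M)) := by
    intro r _
    rw [← ee_add]; congr 1; push_cast; ring
  rw [sum_congr rfl e, h]
  split_ifs <;> simp

lemma mod_le {M : ℕ} (hM : 1 ≤ M) (L : List ℤ) (z : ℤ) :
    Ev dl L (fun x : ℤ => if (M : ℤ) ∣ x - z then (1 : ℝ) else 0) ≤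
      (∑ r ∈ range M, GG L ((r : ℝ) / M)) / M := by
  have hM0 : (0 : ℝ) < M := by exact_mod_cast hM
  have h := four_mod hM L z
  have h1 : ‖(M : ℂ) * ((Ev dl L (fun x : ℤ => if (M : ℤ) ∣ x - z then (1 : ℝ) else 0) : ℝ) : ℂ)‖ =
      M * Ev dl L (fun x : ℤ => if (M : ℤ) ∣ x - z then (1 : ℝ) else 0) := by
    rw [norm_mul, Complex.norm_natCast, Complex.norm_real, Real.norm_of_nonneg]
    apply Ev_nonneg dl_law
    intro x; split_ifs <;> norm_num
  rw [le_div_iff₀ hM0, mul_comm, ← h1, h]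
  refine (norm_sum_le _ _).trans (sum_le_sum fun r _ => ?_)
  rw [norm_mul, norm_ee, one_mul, Complex.norm_real, Real.norm_of_nonneg (GG_nonneg _ _)]

lemma mod_zero {M : ℕ} (hM : 1 ≤ M) (L : List ℤ) :
    Ev dl L (fun x : ℤ => if (M : ℤ) ∣ x then (1 : ℝ) else 0) =
      (∑ r ∈ range M, GG L ((r : ℝ) / M)) / M := by
  have hM0 : (M : ℂ) ≠ 0 := by exact_mod_cast (by omega : M ≠ 0)
  have h := four_mod hM L 0
  simp only [sub_zero, Int.cast_zero, zero_mul, neg_zero, ee_zero, one_mul] at h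
  have : ((Ev dl L (fun x : ℤ => if (M : ℤ) ∣ x then (1 : ℝ) else 0) : ℝ) : ℂ) =
      (((∑ r ∈ range M, GG L ((r : ℝ) / M)) / M : ℝ) : ℂ) := by
    push_cast
    rw [eq_div_iff hM0, mul_comm, h]
  exact_mod_cast this

end Pool.Agent.K4H3.CT
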