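import Mathlib
import Pool.Agent.K4H3.CT.C1

/-! Collisions of random sums of Fibonacci numbers. -/

set_option autoImplicit false

namespace Pool.Agent.K4H3.CT
open Finset
open Pool.Agent.H807R2.Dav
open scoped goldenRatio

/-- the reachable points -/
def Rch {G : Type*} [AddCommGroup G] (p : ℤ → ℝ) : List G → Set G
  | [] => {0}
  | (s :: L) => {z | ∃ x ∈ Rch p L, ∃ v : ℤ, p v ≠ 0 ∧ z = x + v • s}

lemma Ev_mono_R {G : Type*} [AddCommGroup G] {p : ℤ → ℝ} (hp : ∀ v, 0 ≤ p v) (L : List G)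
    (f g : G → ℝ) (h : ∀ x ∈ Rch p L, f x ≤ g x) : Ev p L f ≤ Ev p L g := by
  induction L generalizing f g with
  | nil => exact h 0 rfl
  | cons s L ih =>
    simp only [Ev_cons]
    apply sum_le_sum; intro v _
    by_cases hv : p v = 0
    · rw [hv]; simp
    · refine mul_le_mul_of_nonneg_left ?_ (hp v)
      apply ih
      intro x hx
      exact h _ ⟨x, hx, v, hv, rfl⟩

lemma Ev_congr_R {G E : Type*} [AddCommGroup G] [AddCommGroup E] [Module ℝ E] {p : ℤ → ℝ}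
    (L : List G) (f g : G → E) (h : ∀ x ∈ Rch p L, f x = g x) : Ev p L f = Ev p L g := by
  induction L generalizing f g with
  | nil => exact h 0 rfl
  | cons s L ih =>
    simp only [Ev_cons]
    apply sum_congr rfl; intro v _
    by_cases hv : p v = 0
    · rw [hv]; simp
    · congr 1
      apply ih
      intro x hx
      exact h _ ⟨x, hx, v, hv, rfl⟩

/-- the list `F_{m+j}, …, F_{m+1}` -/
def Fl (m : ℕ) : ℕ → List ℤ
  | 0 => []
  | (j + 1) => (Nat.fib (m + j + 1) : ℤ) :: Fl m j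

lemma Fl_succ (m j : ℕ) : Fl m (j + 1) = (Nat.fib (m + j + 1) : ℤ) :: Fl m j := rfl

lemma Fl_add (m i j : ℕ) : Fl m (i + j) = Fl (m + i) j ++ Fl m i := by
  induction j with
  | zero => rfl
  | succ j ih =>
    rw [← add_assoc, Fl_succ, Fl_succ, ih, List.cons_append]
    rw [show m + (i + j) + 1 = m + i + j + 1 by ring]

lemma dl_ne {v : ℤ} (h : dl v ≠ 0) : |v| ≤ 1 := by
  unfold dl at h
  by_contra h2
  apply h
  rw [if_neg, if_neg]
  · rintro (rfl | rfl) <;> simp at h2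
  · rintro rfl; simp at h2

lemma el_ne {v : ℤ} (h : el v ≠ 0) : 0 ≤ v ∧ v ≤ 2 := by
  unfold el at h
  by_contra h2
  apply h
  rw [if_neg, if_neg]
  · rintro (rfl | rfl) <;> simp at h2
  · rintro rfl; simp at h2

lemma cl_ne {v : ℤ} (h : cl v ≠ 0) : 0 ≤ v ∧ v ≤ 1 := by
  unfold cl at h
  by_contra h2
  apply h
  rw [if_neg]
  rintro (rfl | rfl) <;> simp at h2

lemma Rch_dl (m j : ℕ) (x : ℤ) (hx : x ∈ Rch dl (Fl m j)) :
    |x| ≤ Nat.fib (m + j + 2) - Nat.fib (m + 2) := by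
  induction j generalizing x with
  | zero =>
    have : x = 0 := hx
    rw [this]; simp
  | succ j ih =>
    obtain ⟨y, hy, v, hv, rfl⟩ := hx
    have h1 := ih y hy
    have h2 := dl_ne hv
    have h3 : (Nat.fib (m + (j + 1) + 2) : ℤ) = Nat.fib (m + j + 1) + Nat.fib (m + j + 2) := by
      rw [show m + (j + 1) + 2 = (m + j + 1) + 2 by ring, Nat.fib_add_two]; push_cast; ring_nf
    rw [h3]
    have h4 : |v • (Nat.fib (m + j + 1) : ℤ)| ≤ Nat.fib (m + j + 1) := by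
      rw [smul_eq_mul, abs_mul, abs_of_nonneg (Int.natCast_nonneg (Nat.fib (m + j + 1)))]
      have : (0 : ℤ) ≤ Nat.fib (m + j + 1) := Int.natCast_nonneg _
      nlinarith
    have h5 := abs_add_le y (v • (Nat.fib (m + j + 1) : ℤ))
    linarith

lemma Rch_el (m j : ℕ) (x : ℤ) (hx : x ∈ Rch el (Fl m j)) :
    0 ≤ x ∧ x ≤ 2 * (Nat.fib (m + j + 2) - Nat.fib (m + 2)) := by
  induction j generalizing x with
  | zero =>
    have : x = 0 := hx
    rw [this]; simp
  | succ j ih =>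
    obtain ⟨y, hy, v, hv, rfl⟩ := hx
    have h1 := ih y hy
    have h2 := el_ne hv
    have h3 : (Nat.fib (m + (j + 1) + 2) : ℤ) = Nat.fib (m + j + 1) + Nat.fib (m + j + 2) := by
      rw [show m + (j + 1) + 2 = (m + j + 1) + 2 by ring, Nat.fib_add_two]; push_cast; ring_nf
    rw [h3, smul_eq_mul]
    have : (0 : ℤ) ≤ Nat.fib (m + j + 1) := Int.natCast_nonneg _
    constructor <;> nlinarith

lemma Rch_cl (m j : ℕ) (x : ℤ) (hx : x ∈ Rch cl (Fl m j)) :
    0 ≤ x ∧ x ≤ (Nat.fib (m + j + 2) - Nat.fib (m + 2)) := by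
  induction j generalizing x with
  | zero =>
    have : x = 0 := hx
    rw [this]; simp
  | succ j ih =>
    obtain ⟨y, hy, v, hv, rfl⟩ := hx
    have h1 := ih y hy
    have h2 := cl_ne hv
    have h3 : (Nat.fib (m + (j + 1) + 2) : ℤ) = Nat.fib (m + j + 1) + Nat.fib (m + j + 2) := by
      rw [show m + (j + 1) + 2 = (m + j + 1) + 2 by ring, Nat.fib_add_two]; push_cast; ring_nf
    rw [h3, smul_eq_mul]
    have : (0 : ℤ) ≤ Nat.fib (m + j + 1) := Int.natCast_nonneg _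
    constructor <;> nlinarith

/-! ### Collisions -/

/-- the probability that the sum is `z` -/
noncomputable def PR (n : ℕ) (z : ℤ) : ℝ := Ev dl (Fl 0 n) (fun x => if x = z then (1 : ℝ) else 0)

lemma PR_nonneg (n : ℕ) (z : ℤ) : 0 ≤ PR n z :=
  Ev_nonneg dl_law _ _ (fun x => by split_ifs <;> norm_num)

lemma PR_succ (n : ℕ) (z : ℤ) : PR (n + 1) z = 1 / 2 * PR n z + 1 / 4 * PR n (z - Nat.fib (n + 1)) +
    1 / 4 * PR n (z + Nat.fib (n + 1)) := by
  unfold PR
  rw [Fl_succ, Ev_dl]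
  simp only [smul_eq_mul, zero_add]
  congr 2
  · congr 2; congr 1; funext x; congr 1; rw [eq_iff_iff]; omega
  · congr 1; funext x; congr 1; rw [eq_iff_iff]; omega

lemma PR_neg (n : ℕ) (z : ℤ) : PR n (-z) = PR n z := by
  unfold PR
  rw [← Ev_dl_neg (Fl 0 n) (fun x => if x = z then (1 : ℝ) else 0)]
  congr 1; funext x; congr 1; rw [eq_iff_iff]; omega

lemma PR_zero_of (n : ℕ) (z : ℤ) (h : (Nat.fib (n + 2) : ℤ) ≤ |z|) : PR n z = 0 := by
  unfold PR
  rw [Ev_congr_R (Fl 0 n) _ (fun _ => (0 : ℝ))]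
  · exact Ev_const dl_law _ _
  · intro x hx
    have := Rch_dl 0 n x hx
    rw [if_neg]
    rintro rfl
    have h2 : Nat.fib (0 + 2) = 1 := rfl
    rw [h2, zero_add] at this
    push_cast at this
    omega

lemma PR_zero_zero : PR 0 0 = 1 := by simp [PR, Fl, Ev_nil]

theorem collisions (n : ℕ) : PR n 0 ≤ 2 * (5 / 8 : ℝ) ^ n ∧
    PR n (Nat.fib n) ≤ 20 / 17 * (5 / 8 : ℝ) ^ n ∧
    PR n (Nat.fib (n + 1)) ≤ 8 / 17 * (5 / 8 : ℝ) ^ n := by
  induction n with
  | zero => refine ⟨?_, ?_, ?_⟩ <;> simp [PR, Fl, Ev_nil] <;> norm_num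
  | succ n ih =>
    obtain ⟨h1, h2, h3⟩ := ih
    have e0 : PR (n + 1) 0 = 1 / 2 * PR n 0 + 1 / 2 * PR n (Nat.fib (n + 1)) := by
      rw [PR_succ, zero_sub, zero_add, PR_neg]; ring
    have e1 : PR (n + 1) (Nat.fib (n + 1)) = 1 / 4 * PR n 0 + 1 / 2 * PR n (Nat.fib (n + 1)) := by
      rw [PR_succ, sub_self, PR_zero_of n ((Nat.fib (n + 1) : ℤ) + Nat.fib (n + 1))]
      · ring
      · rw [abs_of_nonneg (by positivity)]
        have h4 : Nat.fib (n + 2) = Nat.fib n + Nat.fib (n + 1) := Nat.fib_add_two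
        have h5 : Nat.fib n ≤ Nat.fib (n + 1) := Nat.fib_le_fib_succ
        rw [h4]; push_cast
        have : (Nat.fib n : ℤ) ≤ Nat.fib (n + 1) := by exact_mod_cast h5
        linarith
    have e2 : PR (n + 1) (Nat.fib (n + 1 + 1)) = 1 / 4 * PR n (Nat.fib n) := by
      rw [PR_succ, PR_zero_of n (Nat.fib (n + 1 + 1)), PR_zero_of n ((Nat.fib (n + 1 + 1) : ℤ) +
        Nat.fib (n + 1))]
      · have h4 : Nat.fib (n + 1 + 1) = Nat.fib n + Nat.fib (n + 1) := Nat.fib_add_two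
        rw [h4]; push_cast; rw [add_sub_cancel_right]; ring
      · rw [abs_of_nonneg (by positivity)]
        have : (0 : ℤ) ≤ Nat.fib (n + 1) := Int.natCast_nonneg _
        linarith
      · rw [abs_of_nonneg (by positivity)]
    have hl : (0 : ℝ) < (5 / 8 : ℝ) ^ n := by positivity
    rw [e0, e1, e2, pow_succ]
    refine ⟨by linarith, by linarith, by linarith⟩

lemma PR_le (n : ℕ) (z : ℤ) : PR n z ≤ PR n 0 := by
  set M : ℕ := Nat.fib (n + 2) + z.natAbs + 1 with hM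
  have h1 := mod_le (M := M) (by omega) (Fl 0 n) z
  rw [← mod_zero (M := M) (by omega)] at h1
  have hR : ∀ x ∈ Rch dl (Fl 0 n), |x| < Nat.fib (n + 2) := by
    intro x hx
    have := Rch_dl 0 n x hx
    have h2 : Nat.fib (0 + 2) = 1 := rfl
    rw [h2, zero_add] at this
    push_cast at this
    omega
  have e1 : PR n z = Ev dl (Fl 0 n) (fun x : ℤ => if (M : ℤ) ∣ x - z then (1 : ℝ) else 0) := by
    apply Ev_congr_R
    intro x hx
    have h3 := hR x hx
    congr 1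
    rw [eq_iff_iff]
    constructor
    · rintro rfl; simp
    · intro h
      have h4 := Int.eq_zero_of_abs_lt_dvd h (by
        have := abs_sub x z
        have h5 : |z| = z.natAbs := Int.abs_eq_natAbs z
        rw [hM]; push_cast
        linarith)
      omega
  have e2 : PR n 0 = Ev dl (Fl 0 n) (fun x : ℤ => if (M : ℤ) ∣ x then (1 : ℝ) else 0) := by
    apply Ev_congr_R
    intro x hx
    have h3 := hR x hx
    congr 1
    rw [eq_iff_iff]
    constructor
    · rintro rfl; simp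
    · intro h
      exact Int.eq_zero_of_abs_lt_dvd h (by rw [hM]; push_cast; have := abs_nonneg z; linarith)
  rw [e1, e2]
  exact h1

/-! ### The high part -/

/-- pairs -/
def Fp (m : ℕ) : ℕ → List (ℤ × ℤ)
  | 0 => []
  | (j + 1) => ((Nat.fib (m + j + 1) : ℤ), (Nat.fib (j + 1) : ℤ)) :: Fp m j

lemma Fp_fst (m j : ℕ) : (Fp m j).map (AddMonoidHom.fst ℤ ℤ) = Fl m j := by
  induction j with
  | zero => rfl
  | succ j ih => simp only [Fp, Fl, List.map_cons, ih]; rfl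

lemma Fp_snd (m j : ℕ) : (Fp m j).map (AddMonoidHom.snd ℤ ℤ) = Fl 0 j := by
  induction j with
  | zero => rfl
  | succ j ih => simp only [Fp, Fl, List.map_cons, ih, zero_add]; rfl

lemma fib_split (m i : ℕ) : (Nat.fib (m + i) : ℝ) - φ ^ m * Nat.fib i = ψ ^ i * Nat.fib m := by
  rw [Real.coe_fib_eq, Real.coe_fib_eq, Real.coe_fib_eq]
  have : √5 ≠ 0 := by positivity
  field_simp
  ring

lemma abs_psi : |ψ| = φ - 1 := by
  rw [abs_of_neg Real.goldenConj_neg]
  have := Real.goldenRatio_add_goldenConj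
  linarith

lemma phi_bounds : (1.6 : ℝ) < φ ∧ φ < 1.62 := by
  have h1 : (2.2 : ℝ) < √5 := by
    apply Real.lt_sqrt_of_sq_lt; norm_num
  have h2 : √5 < (2.24 : ℝ) := by
    rw [Real.sqrt_lt' (by norm_num)]; norm_num
  constructor
  · show 1.6 < (1 + √5) / 2
    linarith
  · show (1 + √5) / 2 < 1.62
    linarith

lemma fib_le_phi (n : ℕ) : (Nat.fib n : ℝ) ≤ φ ^ n := by
  have h1 := Real.fib_succ_sub_goldenConj_mul_fib n
  have h2 := Real.goldenConj_neg
  have h3 : (Nat.fib n : ℝ) ≤ Nat.fib (n + 1) := by exact_mod_cast Nat.fib_le_fib_succ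
  have h4 : (0 : ℝ) ≤ Nat.fib n := Nat.cast_nonneg _
  nlinarith

lemma fib_succ_le_phi (n : ℕ) : (Nat.fib (n + 1) : ℝ) ≤ φ ^ n := by
  have h1 := Real.fib_succ_sub_goldenConj_mul_fib n
  have h2 := Real.goldenConj_neg
  have h4 : (0 : ℝ) ≤ Nat.fib n := Nat.cast_nonneg _
  nlinarith

lemma phi_le_fib (n : ℕ) : φ ^ n ≤ 2 * Nat.fib (n + 1) := by
  have h1 := Real.fib_succ_sub_goldenConj_mul_fib n
  have h2 := Real.neg_one_lt_goldenConj
  have h3 : (Nat.fib n : ℝ) ≤ Nat.fib (n + 1) := by exact_mod_cast Nat.fib_le_fib_succ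
  have h4 : (0 : ℝ) ≤ Nat.fib n := Nat.cast_nonneg _
  nlinarith

lemma Rch_Fp (m j : ℕ) (x : ℤ × ℤ) (hx : x ∈ Rch dl (Fp m j)) :
    |(x.1 : ℝ) - φ ^ m * x.2| ≤ Nat.fib m * (φ * (1 - |ψ| ^ j)) := by
  induction j generalizing x with
  | zero =>
    have : x = 0 := hx
    rw [this]; simp
  | succ j ih =>
    obtain ⟨y, hy, v, hv, rfl⟩ := hx
    have h1 := ih y hy
    have h2 : |(v : ℝ)| ≤ 1 := by exact_mod_cast dl_ne hv
    have e1 : (((y + v • ((Nat.fib (m + j + 1) : ℤ), (Nat.fib (j + 1) : ℤ))).1 : ℤ) : ℝ) - φ ^ m *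
        (((y + v • ((Nat.fib (m + j + 1) : ℤ), (Nat.fib (j + 1) : ℤ))).2 : ℤ) : ℝ) =
        ((y.1 : ℝ) - φ ^ m * y.2) + v * (ψ ^ (j + 1) * Nat.fib m) := by
      rw [← fib_split m (j + 1)]
      simp
      rw [show m + (j + 1) = m + j + 1 by ring]
      ring
    rw [e1]
    refine (abs_add_le _ _).trans ?_
    have e2 : |(v : ℝ) * (ψ ^ (j + 1) * Nat.fib m)| ≤ |ψ| ^ (j + 1) * Nat.fib m := by
      rw [abs_mul, abs_mul, abs_pow, abs_of_nonneg (Nat.cast_nonneg (α := ℝ) (Nat.fib m))]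
      have : (0 : ℝ) ≤ |ψ| ^ (j + 1) * Nat.fib m := by positivity
      nlinarith
    have e3 : φ * (1 - |ψ| ^ (j + 1)) = φ * (1 - |ψ| ^ j) + |ψ| ^ (j + 1) := by
      rw [abs_psi, pow_succ]
      have h5 := Real.goldenRatio_sq
      linear_combination (- (φ - 1) ^ j) * h5
    rw [e3]
    linarith

theorem high_part (m j : ℕ) (h : ℝ) (hh : 0 ≤ h) :
    Ev dl (Fl m j) (fun x : ℤ => if |(x : ℝ)| ≤ h then (1 : ℝ) else 0) ≤
      (2 * (h / φ ^ m) + 5) * (2 * (5 / 8 : ℝ) ^ j) := by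
  have hφ : (0 : ℝ) < φ ^ m := pow_pos Real.goldenRatio_pos m
  set K : ℕ := ⌊h / φ ^ m + 2⌋₊ with hK
  have hK1 : (K : ℝ) ≤ h / φ ^ m + 2 := Nat.floor_le (by positivity)
  rw [← Fp_fst m j, Ev_map]
  have h1 : Ev dl (Fp m j) (fun x => if |(((AddMonoidHom.fst ℤ ℤ) x : ℤ) : ℝ)| ≤ h then (1 : ℝ) else 0) ≤
      Ev dl (Fp m j) (fun x => ∑ z ∈ Icc (-(K : ℤ)) K,
        if (AddMonoidHom.snd ℤ ℤ) x = z then (1 : ℝ) else 0) := by
    apply Ev_mono_R dl_law.1
    intro x hx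
    split_ifs with h2
    · have h3 := Rch_Fp m j x hx
      have h4 : |(x.2 : ℝ)| ≤ h / φ ^ m + 2 := by
        have h5 : φ * (1 - |ψ| ^ j) ≤ 2 := by
          have := Real.goldenRatio_lt_two
          have h6 : 0 ≤ |ψ| ^ j := by positivity
          have := Real.goldenRatio_pos
          nlinarith
        have h6 : (Nat.fib m : ℝ) * (φ * (1 - |ψ| ^ j)) ≤ φ ^ m * 2 := by
          have h7 := fib_le_phi m
          have h8 : (0 : ℝ) ≤ Nat.fib m := Nat.cast_nonneg _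
          calc (Nat.fib m : ℝ) * (φ * (1 - |ψ| ^ j)) ≤ Nat.fib m * 2 :=
                mul_le_mul_of_nonneg_left h5 h8
            _ ≤ _ := by linarith
        have h7 : φ ^ m * |(x.2 : ℝ)| ≤ h + φ ^ m * 2 := by
          have h8 : |φ ^ m * (x.2 : ℝ)| ≤ |(x.1 : ℝ)| + |(x.1 : ℝ) - φ ^ m * x.2| := by
            have := abs_sub (x.1 : ℝ) ((x.1 : ℝ) - φ ^ m * x.2)
            rwa [sub_sub_cancel] at this
          rw [abs_mul, abs_of_pos hφ] at h8
          have h9 : |(x.1 : ℝ)| ≤ h := h2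
          linarith
        rw [div_add' _ _ _ hφ.ne', le_div_iff₀ hφ]
        linarith
      have h5 : x.2.natAbs ≤ K := by
        rw [hK]; apply Nat.le_floor
        rw [Nat.cast_natAbs]; push_cast; exact h4
      have hm : x.2 ∈ Icc (-(K : ℤ)) K := by
        rw [mem_Icc]; omega
      calc (1 : ℝ) = if (AddMonoidHom.snd ℤ ℤ) x = x.2 then (1 : ℝ) else 0 := by
            simp
        _ ≤ _ := single_le_sum (f := fun z : ℤ => if (AddMonoidHom.snd ℤ ℤ) x = z then (1 : ℝ) else 0)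
            (fun z _ => by split_ifs <;> norm_num) hm
    · exact sum_nonneg fun z _ => by split_ifs <;> norm_num
  refine h1.trans ?_
  rw [Ev_sum]
  have h2 : ∀ z ∈ Icc (-(K : ℤ)) K, Ev dl (Fp m j)
      (fun x => if (AddMonoidHom.snd ℤ ℤ) x = z then (1 : ℝ) else 0) ≤ 2 * (5 / 8 : ℝ) ^ j := by
    intro z _
    have e : Ev dl (Fp m j) (fun x => if (AddMonoidHom.snd ℤ ℤ) x = z then (1 : ℝ) else 0) = PR j z := by
      unfold PR
      rw [← Fp_snd m j, Ev_map]
    rw [e]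
    exact (PR_le j z).trans (collisions j).1
  refine (sum_le_sum h2).trans ?_
  rw [sum_const, nsmul_eq_mul, Int.card_Icc]
  have : (((K : ℤ) + 1 - -(K : ℤ)).toNat : ℝ) = 2 * K + 1 := by
    have : ((K : ℤ) + 1 - -(K : ℤ)).toNat = 2 * K + 1 := by omega
    rw [this]; push_cast; ring
  rw [this]
  apply mul_le_mul_of_nonneg_right _ (by positivity)
  linarith

end Pool.Agent.K4H3.CT
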