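import Mathlib
import Pool.Agent.K4H3.CT.C2
import Pool.Agent.Helper112.LS

/-! The mass of the transform on arcs around the rational numbers with small denominators. -/

set_option autoImplicit false

namespace Pool.Agent.K4H3.CT
open Finset
open Pool.Agent.H807R2.Dav
open Pool.Agent.Helper112 (lsSep ls_general ls_sep_of_int)
open Pool.Agent.W301.SS (FK FK_near star_ee)
open scoped goldenRatio

lemma ind_nonneg (P : Prop) [Decidable P] : (0 : ℝ) ≤ if P then (1 : ℝ) else 0 := by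
  split_ifs <;> norm_num

lemma sum_union_le_of_nonneg' {ι : Type*} [DecidableEq ι] {A B : Finset ι} {g : ι → ℝ}
    (hg : ∀ j, 0 ≤ g j) : ∑ j ∈ A ∪ B, g j ≤ ∑ j ∈ A, g j + ∑ j ∈ B, g j := by
  have := sum_union_inter (s₁ := A) (s₂ := B) (f := g)
  have h2 : 0 ≤ ∑ j ∈ A ∩ B, g j := sum_nonneg fun j _ => hg j
  linarith

lemma sum_biUnion_le_of_nonneg' {ι κ : Type*} [DecidableEq ι] [DecidableEq κ] {S : Finset κ}
    {t : κ → Finset ι} {g : ι → ℝ} (hg : ∀ j, 0 ≤ g j) :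
    ∑ j ∈ S.biUnion t, g j ≤ ∑ z ∈ S, ∑ j ∈ t z, g j := by
  induction S using Finset.induction_on with
  | empty => simp
  | insert a S ha ih =>
    rw [biUnion_insert, sum_insert ha]
    exact (sum_union_le_of_nonneg' hg).trans (by linarith)

/-- local mean square bound -/
theorem local_L2 {M h : ℕ} (hM : 1 ≤ M) (hh : 1 ≤ h) (L : List ℤ)
    (hsupp : ∀ x ∈ Rch dl L, |x| + h ≤ M) (θ β : ℝ) (hβ : 2 * Real.pi * (h * β) ≤ 1 / 2)
    (J : Finset ℕ) (hJ : J ⊆ range M) (hJ2 : ∀ j ∈ J, |(j : ℝ) / M - θ| ≤ β) :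
    ∑ j ∈ J, GG L ((j : ℝ) / M) ≤
      4 * M / h * Ev dl L (fun x : ℤ => if |(x : ℝ)| ≤ h then (1 : ℝ) else 0) := by
  have hM0 : (0 : ℝ) < M := by exact_mod_cast hM
  have hh0 : (0 : ℝ) < h := by exact_mod_cast hh
  -- majorant
  have h1 : ∑ j ∈ J, GG L ((j : ℝ) / M) ≤
      ∑ j ∈ range M, 4 / (h : ℝ) ^ 2 * (‖FK h ((j : ℝ) / M - θ)‖ ^ 2 * GG L ((j : ℝ) / M)) := by
    refine le_trans (sum_le_sum fun j hj => ?_) (sum_le_sum_of_subset_of_nonneg hJ fun j _ _ => by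
      have := GG_nonneg L ((j : ℝ) / M); positivity)
    have h2 := FK_near h hh ((j : ℝ) / M - θ)
    have h3 : 2 * Real.pi * (h * |(j : ℝ) / M - θ|) ≤ 1 / 2 := by
      refine le_trans ?_ hβ
      have := hJ2 j hj
      have := Real.pi_pos
      gcongr
    have h4 : 1 / 2 ≤ ‖FK h ((j : ℝ) / M - θ) / h‖ := by
      have h5 : ‖(1 : ℂ)‖ ≤ ‖FK h ((j : ℝ) / M - θ) / h‖ + ‖FK h ((j : ℝ) / M - θ) / h - 1‖ := by
        have := norm_sub_le (FK h ((j : ℝ) / M - θ) / h) (FK h ((j : ℝ) / M - θ) / h - 1)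
        rwa [sub_sub_cancel] at this
      rw [norm_one] at h5
      linarith
    rw [norm_div, Complex.norm_natCast, le_div_iff₀ hh0] at h4
    have h6 : (1 : ℝ) ≤ 4 / (h : ℝ) ^ 2 * ‖FK h ((j : ℝ) / M - θ)‖ ^ 2 := by
      rw [div_mul_eq_mul_div, le_div_iff₀ (by positivity)]
      nlinarith
    have := GG_nonneg L ((j : ℝ) / M)
    calc GG L ((j : ℝ) / M) = 1 * GG L ((j : ℝ) / M) := (one_mul _).symm
      _ ≤ (4 / (h : ℝ) ^ 2 * ‖FK h ((j : ℝ) / M - θ)‖ ^ 2) * GG L ((j : ℝ) / M) :=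
          mul_le_mul_of_nonneg_right h6 this
      _ = _ := by ring
  refine h1.trans ?_
  rw [← mul_sum]
  -- expand
  have h2 : ((∑ j ∈ range M, ‖FK h ((j : ℝ) / M - θ)‖ ^ 2 * GG L ((j : ℝ) / M) : ℝ) : ℂ) =
      ∑ u ∈ Ioc 0 h, ∑ w ∈ Ioc 0 h, ee (-(((u : ℝ) - w) * θ)) *
        ((M : ℂ) * ((Ev dl L (fun x : ℤ => if (M : ℤ) ∣ x - ((w : ℤ) - u) then (1 : ℝ) else 0) : ℝ) : ℂ)) := by
    simp_rw [four_mod hM, mul_sum]
    push_cast
    have e1 : ∀ j ∈ range M, ((‖FK h ((j : ℝ) / M - θ)‖ : ℂ)) ^ 2 * ((GG L ((j : ℝ) / M) : ℝ) : ℂ) =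
        ∑ u ∈ Ioc 0 h, ∑ w ∈ Ioc 0 h, ee (-(((u : ℝ) - w) * θ)) *
          (ee (-(((w : ℝ) - u) * ((j : ℝ) / M))) * ((GG L ((j : ℝ) / M) : ℝ) : ℂ)) := by
      intro j _
      rw [← Complex.mul_conj']
      unfold FK
      rw [map_sum, sum_mul_sum, sum_mul]
      apply sum_congr rfl; intro u _
      rw [sum_mul]
      apply sum_congr rfl; intro w _
      rw [star_ee, ← ee_add, ← mul_assoc, ← ee_add]
      congr 2
      ring
    rw [sum_congr rfl e1, sum_comm]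
    apply sum_congr rfl; intro u _
    rw [sum_comm]
  have h3 : ∑ j ∈ range M, ‖FK h ((j : ℝ) / M - θ)‖ ^ 2 * GG L ((j : ℝ) / M) ≤
      M * (h * Ev dl L (fun x : ℤ => if |(x : ℝ)| ≤ h then (1 : ℝ) else 0)) := by
    have a1 : ∑ j ∈ range M, ‖FK h ((j : ℝ) / M - θ)‖ ^ 2 * GG L ((j : ℝ) / M) =
        ‖((∑ j ∈ range M, ‖FK h ((j : ℝ) / M - θ)‖ ^ 2 * GG L ((j : ℝ) / M) : ℝ) : ℂ)‖ := by
      rw [Complex.norm_real, Real.norm_of_nonneg]
      exact sum_nonneg fun j _ => mul_nonneg (by positivity) (GG_nonneg _ _)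
    rw [a1, h2]
    have a2 : ∀ u ∈ Ioc 0 h, ∀ w ∈ Ioc 0 h, ‖ee (-(((u : ℝ) - w) * θ)) *
        ((M : ℂ) * ((Ev dl L (fun x : ℤ => if (M : ℤ) ∣ x - ((w : ℤ) - u) then (1 : ℝ) else 0) : ℝ) : ℂ))‖ =
        M * Ev dl L (fun x : ℤ => if (M : ℤ) ∣ x - ((w : ℤ) - u) then (1 : ℝ) else 0) := by
      intro u _ w _
      rw [norm_mul, norm_ee, one_mul, norm_mul, Complex.norm_natCast, Complex.norm_real,
        Real.norm_of_nonneg (Ev_nonneg dl_law _ _ (fun x => ind_nonneg _))]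
    refine (norm_sum_le _ _).trans ?_
    have a3 : ∀ u ∈ Ioc 0 h, ‖∑ w ∈ Ioc 0 h, ee (-(((u : ℝ) - w) * θ)) *
        ((M : ℂ) * ((Ev dl L (fun x : ℤ => if (M : ℤ) ∣ x - ((w : ℤ) - u) then (1 : ℝ) else 0) : ℝ) : ℂ))‖ ≤
        M * Ev dl L (fun x : ℤ => if |(x : ℝ)| ≤ h then (1 : ℝ) else 0) := by
      intro u hu
      rw [mem_Ioc] at hu
      refine (norm_sum_le _ _).trans ?_
      rw [sum_congr rfl (a2 u (mem_Ioc.2 hu)), ← mul_sum, ← Ev_sum]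
      apply mul_le_mul_of_nonneg_left _ hM0.le
      apply Ev_mono_R dl_law.1
      intro x hx
      have hx2 := hsupp x hx
      by_cases hxh : ∃ w ∈ Ioc 0 h, (M : ℤ) ∣ x - ((w : ℤ) - u)
      · obtain ⟨w, hw, hd⟩ := hxh
        rw [mem_Ioc] at hw
        have key : ∀ w' ∈ Ioc 0 h, (M : ℤ) ∣ x - ((w' : ℤ) - u) → x = (w' : ℤ) - u := by
          intro w' hw' hd'
          rw [mem_Ioc] at hw'
          have h5 := Int.eq_zero_of_abs_lt_dvd hd' (by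
            have h6 : |x - ((w' : ℤ) - u)| ≤ |x| + |(w' : ℤ) - u| := abs_sub _ _
            have h7 : |(w' : ℤ) - u| < h := by rw [abs_lt]; omega
            linarith)
          omega
        have hx3 := key w (mem_Ioc.2 hw) hd
        have hx4 : |(x : ℝ)| ≤ h := by
          have h7 : |x| ≤ (h : ℤ) := by rw [hx3, abs_le]; omega
          have h8 : ((|x| : ℤ) : ℝ) ≤ ((h : ℤ) : ℝ) := Int.cast_le.2 h7
          push_cast at h8; exact h8
        rw [if_pos hx4, sum_eq_single w]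
        · rw [if_pos hd]
        · intro w' hw' hne
          rw [if_neg]
          intro hd'
          have := key w' hw' hd'
          apply hne; omega
        · intro hn; exact absurd (mem_Ioc.2 hw) hn
      · rw [sum_eq_zero]
        · exact ind_nonneg _
        · intro w hw
          rw [if_neg]
          intro hd
          exact hxh ⟨w, hw, hd⟩
    refine (sum_le_sum a3).trans ?_
    rw [sum_const, Nat.card_Ioc, nsmul_eq_mul, Nat.sub_zero]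
    apply le_of_eq; ring
  calc 4 / (h : ℝ) ^ 2 * ∑ j ∈ range M, ‖FK h ((j : ℝ) / M - θ)‖ ^ 2 * GG L ((j : ℝ) / M) ≤
      4 / (h : ℝ) ^ 2 * (M * (h * Ev dl L (fun x : ℤ => if |(x : ℝ)| ≤ h then (1 : ℝ) else 0))) := by
        gcongr
    _ = _ := by field_simp

lemma ee112 (x : ℝ) : Pool.Agent.Helper112.ee x = ee x := by
  unfold Pool.Agent.Helper112.ee ee
  congr 1; ring

/-- the large sieve for the low part -/
theorem sieve_low {ι : Type*} [DecidableEq ι] (R : Finset ι) (ξ : ι → ℝ) (K m : ℕ) (hK : 1 ≤ K)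
    (hsep : ∀ r ∈ R, ∀ s ∈ R, r ≠ s → lsSep K (ξ s - ξ r)) :
    ∑ r ∈ R, GG (Fl 0 m) (ξ r) ≤ 6 * ((Nat.fib (m + 2) : ℝ) + K) * PR m 0 := by
  set N : ℕ := Nat.fib (m + 2) with hN
  set α : ℕ → ℝ := fun n => Ev cl (Fl 0 m) (fun x : ℤ => if x + 1 = n then (1 : ℝ) else 0) with hα
  have h := ls_general R ξ K N hK hsep (fun n => ((α n : ℝ) : ℂ))
  have hrch : ∀ x ∈ Rch cl (Fl 0 m), 0 ≤ x ∧ x + 1 ≤ (N : ℤ) := by
    intro x hx
    have := Rch_cl 0 m x hx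
    have h2 : Nat.fib (0 + 2) = 1 := rfl
    rw [h2, zero_add] at this
    push_cast at this
    omega
  have e1 : ∀ r ∈ R, ‖∑ n ∈ Icc 1 N, ((α n : ℝ) : ℂ) * Pool.Agent.Helper112.ee (n * ξ r)‖ ^ 2 =
      GG (Fl 0 m) (ξ r) := by
    intro r _
    have e2 : ∑ n ∈ Icc 1 N, ((α n : ℝ) : ℂ) * Pool.Agent.Helper112.ee (n * ξ r) =
        ee (ξ r) * Ev cl (Fl 0 m) (fun x : ℤ => ee ((x : ℝ) * ξ r)) := by
      rw [← Ev_mulC]
      have e3 : ∀ n ∈ Icc 1 N, ((α n : ℝ) : ℂ) * Pool.Agent.Helper112.ee (n * ξ r) =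
          Ev cl (Fl 0 m) (fun x : ℤ => ee ((n : ℝ) * ξ r) * (((if x + 1 = n then (1 : ℝ) else 0) : ℝ) : ℂ)) := by
        intro n _
        rw [ee112, mul_comm, hα, Ev_ofReal, Ev_mulC]
      rw [sum_congr rfl e3, ← Ev_sum]
      apply Ev_congr_R
      intro x hx
      have hx2 := hrch x hx
      rw [sum_eq_single (x.toNat + 1)]
      · rw [if_pos (by push_cast; omega), ← ee_add]
        push_cast
        rw [mul_one]
        congr 1
        have : ((x.toNat : ℝ)) = x := by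
          have : ((x.toNat : ℤ)) = x := Int.toNat_of_nonneg hx2.1
          exact_mod_cast congrArg (Int.cast (R := ℝ)) this
        rw [this]; ring
      · intro n _ hne
        rw [if_neg]
        · simp
        · intro h3; apply hne; omega
      · intro hn
        exfalso; apply hn
        rw [mem_Icc]; omega
    rw [e2, norm_mul, norm_ee, one_mul, four_cl]
  have e4 : ∑ n ∈ Icc 1 N, ‖((α n : ℝ) : ℂ)‖ ^ 2 = PR m 0 := by
    unfold PR
    rw [← Ev_diff]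
    have e5 : ∀ n ∈ Icc 1 N, ‖((α n : ℝ) : ℂ)‖ ^ 2 = Ev cl (Fl 0 m) (fun x : ℤ =>
        Ev cl (Fl 0 m) (fun y : ℤ => (if x + 1 = n then (1 : ℝ) else 0) * (if y + 1 = n then (1 : ℝ) else 0))) := by
      intro n _
      rw [Complex.norm_real, Real.norm_eq_abs, sq_abs, sq]
      simp_rw [Ev_mulR]
      have : ∀ x : ℤ, (if x + 1 = (n : ℤ) then (1 : ℝ) else 0) * Ev cl (Fl 0 m)
          (fun y : ℤ => if y + 1 = (n : ℤ) then (1 : ℝ) else 0) = α n * (if x + 1 = (n : ℤ) then (1 : ℝ) else 0) := by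
        intro x; rw [mul_comm]
      simp_rw [this]
      rw [Ev_mulR]
    rw [sum_congr rfl e5, ← Ev_sum]
    apply Ev_congr_R
    intro x hx
    have hx2 := hrch x hx
    rw [← Ev_sum]
    apply Ev_congr_R
    intro y hy
    have hy2 := hrch y hy
    rw [sum_eq_single (x.toNat + 1)]
    · rw [if_pos (by push_cast; omega), one_mul]
      congr 1
      rw [eq_iff_iff]; push_cast; omega
    · intro n _ hne
      rw [if_neg, zero_mul]
      intro h3; apply hne; omega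
    · intro hn
      exfalso; apply hn
      rw [mem_Icc]; omega
  rw [sum_congr rfl e1, e4] at h
  exact h

/-! ### The arcs -/

/-- the points near the fractions with denominator at most `X` -/
noncomputable def AX (M X : ℕ) : Finset ℕ := by
  classical
  exact (range M).filter (fun j => ∃ q a : ℕ, 1 ≤ q ∧ q ≤ X ∧ a ≤ q ∧ a.Coprime q ∧
    |(j : ℝ) / M - (a : ℝ) / q| ≤ (X : ℝ) / M)

lemma mem_AX {M X j : ℕ} : j ∈ AX M X ↔ j < M ∧ ∃ q a : ℕ, 1 ≤ q ∧ q ≤ X ∧ a ≤ q ∧ a.Coprime q ∧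
    |(j : ℝ) / M - (a : ℝ) / q| ≤ (X : ℝ) / M := by
  classical
  unfold AX
  rw [mem_filter, mem_range]

/-- the fractions in `[0, 1)` -/
def RX (X : ℕ) : Finset (ℕ × ℕ) :=
  (Icc 1 X ×ˢ range X).filter (fun z => z.2 < z.1 ∧ z.2.Coprime z.1)

lemma mem_RX {X : ℕ} {z : ℕ × ℕ} : z ∈ RX X ↔ 1 ≤ z.1 ∧ z.1 ≤ X ∧ z.2 < z.1 ∧ z.2.Coprime z.1 := by
  unfold RX
  rw [mem_filter, mem_product, mem_Icc, mem_range]
  constructor
  · rintro ⟨⟨⟨a, b⟩, c⟩, d, e⟩; exact ⟨a, b, d, e⟩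
  · rintro ⟨a, b, d, e⟩; exact ⟨⟨⟨a, b⟩, by omega⟩, d, e⟩

lemma sep_pert {K : ℕ} (hK : 1 ≤ K) {x y : ℝ} (hx : lsSep K x) (hy : |y| ≤ 1 / (2 * (K : ℝ))) :
    lsSep (2 * K) (x + y) := by
  have hK0 : (0 : ℝ) < K := by exact_mod_cast hK
  obtain ⟨h1, h2⟩ := hx
  rw [abs_le] at hy
  have e : 1 / (K : ℝ) = 1 / (2 * (K : ℝ)) + 1 / (2 * (K : ℝ)) := by field_simp; norm_num
  have hp : 0 < 1 / (2 * (K : ℝ)) := by positivity
  have h3 : Int.fract (x + y) = Int.fract x + y := by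
    rw [Int.fract_eq_iff]
    refine ⟨by linarith, by linarith, ⟨⌊x⌋, ?_⟩⟩
    have := Int.floor_add_fract x
    linarith
  unfold lsSep
  rw [h3]
  push_cast
  constructor <;> linarith

theorem mass_AX {M X h m k : ℕ} (hX : 1 ≤ X) (hMX : 4 * X ^ 3 ≤ M) (hh : 1 ≤ h)
    (hhX : 13 * (h * X) ≤ M) (hsupp : Nat.fib (m + k + 2) + h ≤ M) :
    ∑ j ∈ AX M X, GG (Fl 0 (m + k)) ((j : ℝ) / M) ≤
      4 * M / h * Ev dl (Fl m k) (fun x : ℤ => if |(x : ℝ)| ≤ h then (1 : ℝ) else 0) *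
        (6 * ((Nat.fib (m + 2) : ℝ) + 2 * X ^ 2) * PR m 0 + 1) := by
  classical
  have hM : 1 ≤ M := by
    have : 1 ≤ X ^ 3 := Nat.one_le_pow _ _ hX
    omega
  have hM0 : (0 : ℝ) < M := by exact_mod_cast hM
  have hX0 : (0 : ℝ) < X := by exact_mod_cast hX
  have hh0 : (0 : ℝ) < h := by exact_mod_cast hh
  set B : ℝ := 4 * M / h * Ev dl (Fl m k) (fun x : ℤ => if |(x : ℝ)| ≤ h then (1 : ℝ) else 0) with hB
  have hB0 : 0 ≤ B := mul_nonneg (by positivity) (Ev_nonneg dl_law _ _ (fun x => ind_nonneg _))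
  have hβ : 2 * Real.pi * (h * ((X : ℝ) / M)) ≤ 1 / 2 := by
    have h1 : (13 : ℝ) * (h * X) ≤ M := by exact_mod_cast hhX
    have h2 : (h : ℝ) * ((X : ℝ) / M) ≤ 1 / 13 := by
      rw [← mul_div_assoc, div_le_div_iff₀ hM0 (by norm_num)]
      linarith
    have h3 := Real.pi_lt_d2
    have h4 := Real.pi_pos
    nlinarith [mul_nonneg hh0.le (div_nonneg hX0.le hM0.le)]
  have hloc : ∀ θ : ℝ, ∀ J ⊆ range M, (∀ j ∈ J, |(j : ℝ) / M - θ| ≤ (X : ℝ) / M) →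
      ∑ j ∈ J, GG (Fl m k) ((j : ℝ) / M) ≤ B := by
    intro θ J hJ hJ2
    refine local_L2 hM hh (Fl m k) ?_ θ _ hβ J hJ hJ2
    intro x hx
    have h1 := Rch_dl m k x hx
    have h2 : (0 : ℤ) ≤ Nat.fib (m + 2) := Int.natCast_nonneg _
    have h3 : ((Nat.fib (m + k + 2) + h : ℕ) : ℤ) ≤ M := by exact_mod_cast hsupp
    push_cast at h3
    linarith
  have hsplit : ∀ θ : ℝ, GG (Fl 0 (m + k)) θ = GG (Fl m k) θ * GG (Fl 0 m) θ := by
    intro θ
    rw [Fl_add 0 m k, GG_append, zero_add]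
  -- neighbourhoods
  set nb : ℝ → Finset ℕ := fun θ => (range M).filter (fun j => |(j : ℝ) / M - θ| ≤ (X : ℝ) / M) with hnb
  have hcov : ∑ j ∈ AX M X, GG (Fl 0 (m + k)) ((j : ℝ) / M) ≤
      ∑ z ∈ RX X, ∑ j ∈ nb ((z.2 : ℝ) / z.1), GG (Fl 0 (m + k)) ((j : ℝ) / M) +
      ∑ j ∈ nb 1, GG (Fl 0 (m + k)) ((j : ℝ) / M) := by
    have h1 : AX M X ⊆ (RX X).biUnion (fun z => nb ((z.2 : ℝ) / z.1)) ∪ nb 1 := by
      intro j hj
      rw [mem_AX] at hj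
      obtain ⟨hjM, q, a, h1, h2, h3, h4, h5⟩ := hj
      rw [mem_union]
      rcases Nat.lt_or_ge a q with h6 | h6
      · left
        rw [mem_biUnion]
        exact ⟨(q, a), mem_RX.2 ⟨h1, h2, h6, h4⟩, mem_filter.2 ⟨mem_range.2 hjM, h5⟩⟩
      · right
        have h7 : a = q := le_antisymm h3 h6
        rw [h7, div_self (by exact_mod_cast (by omega : q ≠ 0))] at h5
        exact mem_filter.2 ⟨mem_range.2 hjM, h5⟩
    have hg : ∀ j : ℕ, 0 ≤ GG (Fl 0 (m + k)) ((j : ℝ) / M) := fun j => GG_nonneg _ _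
    refine (sum_le_sum_of_subset_of_nonneg h1 fun j _ _ => hg j).trans ?_
    refine (sum_union_le_of_nonneg' hg).trans ?_
    gcongr
    exact sum_biUnion_le_of_nonneg' hg
  refine hcov.trans ?_
  have h1 : ∑ j ∈ nb 1, GG (Fl 0 (m + k)) ((j : ℝ) / M) ≤ B := by
    refine le_trans (sum_le_sum fun j _ => ?_) (hloc 1 (nb 1) (filter_subset _ _)
      (fun j hj => (mem_filter.1 hj).2))
    rw [hsplit]
    exact mul_le_of_le_one_right (GG_nonneg _ _) (GG_le_one _ _)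
  -- the best point in every neighbourhood
  have hbest : ∀ z : ℕ × ℕ, ∃ ξ : ℝ, |ξ - (z.2 : ℝ) / z.1| ≤ (X : ℝ) / M ∧
      ∀ j ∈ nb ((z.2 : ℝ) / z.1), GG (Fl 0 m) ((j : ℝ) / M) ≤ GG (Fl 0 m) ξ := by
    intro z
    rcases (nb ((z.2 : ℝ) / z.1)).eq_empty_or_nonempty with he | hne
    · refine ⟨(z.2 : ℝ) / z.1, by rw [sub_self, abs_zero]; positivity, ?_⟩
      intro j hj; rw [he] at hj; simp at hj
    · obtain ⟨j0, hj0, hj1⟩ := exists_max_image (nb ((z.2 : ℝ) / z.1))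
        (fun j => GG (Fl 0 m) ((j : ℝ) / M)) hne
      exact ⟨(j0 : ℝ) / M, (mem_filter.1 hj0).2, hj1⟩
  choose ξ hξ1 hξ2 using hbest
  have hsep : ∀ r ∈ RX X, ∀ s ∈ RX X, r ≠ s → lsSep (2 * X ^ 2) (ξ s - ξ r) := by
    intro r hr s hs hrs
    rw [mem_RX] at hr hs
    have h2 := ls_sep_of_int X r.1 s.1 hr.1 hs.1 hr.2.1 hs.2.1 r.2 s.2 hr.2.2.1 hs.2.2.1 hr.2.2.2
      hs.2.2.2 (by rintro ⟨a, b⟩; exact hrs (Prod.ext a b))
    have e : ξ s - ξ r = ((s.2 : ℝ) / s.1 - (r.2 : ℝ) / r.1) +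
        ((ξ s - (s.2 : ℝ) / s.1) - (ξ r - (r.2 : ℝ) / r.1)) := by ring
    rw [e]
    refine sep_pert (Nat.one_le_pow _ _ hX) h2 ?_
    refine (abs_sub _ _).trans ?_
    have h3 := hξ1 s
    have h4 := hξ1 r
    have h5 : 2 * ((X : ℝ) / M) ≤ 1 / (2 * ((X ^ 2 : ℕ) : ℝ)) := by
      push_cast
      rw [← mul_div_assoc, div_le_div_iff₀ hM0 (by positivity)]
      have h6 : (4 : ℝ) * X ^ 3 ≤ M := by exact_mod_cast hMX
      nlinarith
    linarith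
  have h2 := sieve_low (RX X) ξ (2 * X ^ 2) m (by have := Nat.one_le_pow 2 X hX; omega) hsep
  push_cast at h2
  have h3 : ∑ z ∈ RX X, ∑ j ∈ nb ((z.2 : ℝ) / z.1), GG (Fl 0 (m + k)) ((j : ℝ) / M) ≤
      ∑ z ∈ RX X, B * GG (Fl 0 m) (ξ z) := by
    apply sum_le_sum; intro z _
    calc ∑ j ∈ nb ((z.2 : ℝ) / z.1), GG (Fl 0 (m + k)) ((j : ℝ) / M) ≤
        ∑ j ∈ nb ((z.2 : ℝ) / z.1), GG (Fl m k) ((j : ℝ) / M) * GG (Fl 0 m) (ξ z) := by
          apply sum_le_sum; intro j hj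
          rw [hsplit]
          exact mul_le_mul_of_nonneg_left (hξ2 z j hj) (GG_nonneg _ _)
      _ = (∑ j ∈ nb ((z.2 : ℝ) / z.1), GG (Fl m k) ((j : ℝ) / M)) * GG (Fl 0 m) (ξ z) := by
          rw [sum_mul]
      _ ≤ _ := mul_le_mul_of_nonneg_right (hloc _ _ (filter_subset _ _)
          (fun j hj => (mem_filter.1 hj).2)) (GG_nonneg _ _)
  rw [← mul_sum] at h3
  have h4 : B * ∑ z ∈ RX X, GG (Fl 0 m) (ξ z) ≤
      B * (6 * ((Nat.fib (m + 2) : ℝ) + 2 * X ^ 2) * PR m 0) := mul_le_mul_of_nonneg_left h2 hB0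
  linarith

end Pool.Agent.K4H3.CT
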