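import Mathlib
import Pool.Agent.K4H3.CT.C3

/-! Explicit mass of the arcs, pointwise decay near rationals, Vinogradov's bound off the arcs. -/

set_option autoImplicit false

namespace Pool.Agent.K4H3.CT
open Finset
open Pool.Agent.H807R2.Dav
open Pool.Agent.W301.SS (SP VC VB)
open scoped goldenRatio

/-- the growth rate -/
noncomputable def ρ : ℝ := φ * (5 / 8)

lemma rho_bounds : 1 ≤ ρ ∧ ρ ≤ 1.0125 := by
  have := phi_bounds
  unfold ρ
  constructor <;> linarith

lemma high2 (t r h : ℕ) (K : ℝ) (hK : 1 ≤ K) (hh : (h : ℝ) ≤ K * φ ^ (2 * t + r)) :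
    Ev dl (Fl (2 * t) (r + t)) (fun x : ℤ => if |(x : ℝ)| ≤ h then (1 : ℝ) else 0) ≤
      (4 * K + 18) * (5 / 8 : ℝ) ^ t := by
  rw [Fl_add, Ev_append]
  set F : ℕ := Nat.fib (2 * t + r + 2) with hF
  have h1 : ∀ x : ℤ, Ev dl (Fl (2 * t) r) (fun y => if |((x + y : ℤ) : ℝ)| ≤ h then (1 : ℝ) else 0) ≤
      if |(x : ℝ)| ≤ (h : ℝ) + F then (1 : ℝ) else 0 := by
    intro x
    have h2 : Ev dl (Fl (2 * t) r) (fun y => if |((x + y : ℤ) : ℝ)| ≤ h then (1 : ℝ) else 0) ≤
        Ev dl (Fl (2 * t) r) (fun _ => if |(x : ℝ)| ≤ (h : ℝ) + F then (1 : ℝ) else 0) := by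
      apply Ev_mono_R dl_law.1
      intro y hy
      have h3 := Rch_dl _ _ y hy
      have h4 : |(y : ℝ)| ≤ F := by
        have h5 : |y| ≤ (F : ℤ) := by
          have : (0 : ℤ) ≤ Nat.fib (2 * t + 2) := Int.natCast_nonneg _
          linarith
        have h8 : ((|y| : ℤ) : ℝ) ≤ ((F : ℤ) : ℝ) := Int.cast_le.2 h5
        push_cast at h8; exact h8
      split_ifs with a b b
      · exact le_rfl
      · exfalso; apply b
        push_cast at a
        have := abs_sub ((x : ℝ) + y) y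
        rw [add_sub_cancel_right] at this
        linarith
      · exact zero_le_one
      · exact le_rfl
    rwa [Ev_const dl_law] at h2
  refine (Ev_mono dl_law.1 _ _ _ h1).trans ?_
  refine (high_part (2 * t + r) t ((h : ℝ) + F) (by positivity)).trans ?_
  have hφ : (0 : ℝ) < φ ^ (2 * t + r) := pow_pos Real.goldenRatio_pos _
  have h2 : ((h : ℝ) + F) / φ ^ (2 * t + r) ≤ K + 2 := by
    rw [div_le_iff₀ hφ]
    have h3 : (F : ℝ) ≤ φ ^ (2 * t + r + 1) := fib_succ_le_phi _
    rw [pow_succ] at h3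
    have := Real.goldenRatio_lt_two
    nlinarith
  have h4 : (0 : ℝ) < (5 / 8 : ℝ) ^ t := by positivity
  nlinarith

theorem mass_t (t r M : ℕ) (K : ℝ) (hK : 1 ≤ K) (ht : 1 ≤ t) (hM1 : 2 * Nat.fib (3 * t + r + 2) ≤ M)
    (hM2 : 13 * Nat.fib t ^ 3 ≤ M) (hM3 : (M : ℝ) ≤ K * φ ^ (3 * t + r)) :
    ∑ j ∈ AX M (Nat.fib t), GG (Fl 0 (3 * t + r)) ((j : ℝ) / M) ≤
      5096 * (4 * K + 18) * (ρ ^ 3) ^ t := by
  set X := Nat.fib t with hX
  have hX1 : 1 ≤ X := Nat.fib_pos.2 ht
  set h : ℕ := M / (13 * X) with hh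
  have hX3 : X ≤ X ^ 3 := Nat.le_self_pow (by norm_num) X
  have hh1 : 1 ≤ h := by
    rw [hh, Nat.one_le_div_iff (by omega)]
    omega
  have hhX : 13 * (h * X) ≤ M := by
    have := Nat.div_mul_le_self M (13 * X)
    rw [← hh] at this
    calc 13 * (h * X) = h * (13 * X) := by ring
      _ ≤ M := this
  have hM0 : (0 : ℝ) < M := by
    have : 0 < M := by omega
    exact_mod_cast this
  have hX0 : (0 : ℝ) < X := by exact_mod_cast hX1
  have hh0 : (0 : ℝ) < h := by exact_mod_cast hh1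
  have hMh : (M : ℝ) ≤ 26 * (X * h) := by
    have h1 : M < 13 * X * (h + 1) := by
      rw [hh]; exact Nat.lt_mul_div_succ M (by omega)
    have h2 : M ≤ 26 * (X * h) := by nlinarith
    exact_mod_cast h2
  have e : 3 * t + r = 2 * t + (r + t) := by ring
  have hm := mass_AX (M := M) (X := X) (h := h) (m := 2 * t) (k := r + t) hX1 (by omega) hh1 hhX
    (by
      rw [← e]
      have h1 : h ≤ M / 2 := by
        rw [hh]; exact Nat.div_le_div_left (by omega) (by norm_num)
      omega)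
  rw [← e] at hm
  refine hm.trans ?_
  have hφt : (0 : ℝ) < φ ^ t := pow_pos Real.goldenRatio_pos t
  have hXφ : (X : ℝ) ≤ φ ^ t := fib_le_phi t
  have hφX : φ ^ t ≤ 4 * X := by
    have h1 := phi_le_fib t
    have h2 : (Nat.fib (t + 1) : ℝ) ≤ 2 * X := by
      have h3 : Nat.fib (t + 1) ≤ 2 * Nat.fib t := by
        obtain ⟨s, rfl⟩ : ∃ s, t = s + 1 := ⟨t - 1, by omega⟩
        rw [show s + 1 + 1 = s + 2 by ring, Nat.fib_add_two]
        have : Nat.fib s ≤ Nat.fib (s + 1) := Nat.fib_le_fib_succ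
        omega
      exact_mod_cast h3
    linarith
  have hP := high2 t r h K hK (by
    have h1 : 13 * ((h : ℝ) * X) ≤ K * φ ^ (3 * t + r) := by
      have : 13 * ((h : ℝ) * X) ≤ M := by exact_mod_cast hhX
      linarith
    have h2 : φ ^ (3 * t + r) = φ ^ (2 * t + r) * φ ^ t := by rw [← pow_add]; congr 1; ring
    rw [h2] at h1
    have hφ2 : (0 : ℝ) < φ ^ (2 * t + r) := pow_pos Real.goldenRatio_pos _
    have h3 : K * (φ ^ (2 * t + r) * φ ^ t) ≤ K * (φ ^ (2 * t + r) * (4 * X)) := by gcongr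
    have h4 : 13 * ((h : ℝ) * X) ≤ (4 * K * φ ^ (2 * t + r)) * X := by linarith
    have h5 : 13 * (h : ℝ) ≤ 4 * K * φ ^ (2 * t + r) := by
      apply le_of_mul_le_mul_right _ hX0
      linarith
    have h6 : 0 < K * φ ^ (2 * t + r) := by positivity
    linarith)
  have h1 : 4 * (M : ℝ) / h ≤ 104 * φ ^ t := by
    rw [div_le_iff₀ hh0]
    nlinarith
  have hl : (0 : ℝ) < (5 / 8 : ℝ) ^ t := by positivity
  have hρt : (1 : ℝ) ≤ ρ ^ (2 * t) := one_le_pow₀ rho_bounds.1
  have h2 : 6 * ((Nat.fib (2 * t + 2) : ℝ) + 2 * X ^ 2) * PR (2 * t) 0 + 1 ≤ 49 * ρ ^ (2 * t) := by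
    have h3 : (Nat.fib (2 * t + 2) : ℝ) ≤ 2 * φ ^ (2 * t) := by
      have := fib_succ_le_phi (2 * t + 1)
      rw [pow_succ] at this
      have h4 := Real.goldenRatio_lt_two
      have h5 : (0 : ℝ) < φ ^ (2 * t) := pow_pos Real.goldenRatio_pos _
      nlinarith
    have h4 : (X : ℝ) ^ 2 ≤ φ ^ (2 * t) := by
      rw [mul_comm, pow_mul]; gcongr
    have h5 := (collisions (2 * t)).1
    have h6 : (0 : ℝ) < φ ^ (2 * t) := pow_pos Real.goldenRatio_pos _
    have h7 : 6 * ((Nat.fib (2 * t + 2) : ℝ) + 2 * X ^ 2) * PR (2 * t) 0 ≤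
        6 * (4 * φ ^ (2 * t)) * (2 * (5 / 8 : ℝ) ^ (2 * t)) := by
      have := PR_nonneg (2 * t) 0
      gcongr
      linarith
    have h8 : ρ ^ (2 * t) = φ ^ (2 * t) * (5 / 8 : ℝ) ^ (2 * t) := by unfold ρ; rw [mul_pow]
    rw [h8] at hρt ⊢
    nlinarith
  have hPn : 0 ≤ Ev dl (Fl (2 * t) (r + t)) (fun x : ℤ => if |(x : ℝ)| ≤ h then (1 : ℝ) else 0) :=
    Ev_nonneg dl_law _ _ (fun x => ind_nonneg _)
  have h3 : 0 ≤ 6 * ((Nat.fib (2 * t + 2) : ℝ) + 2 * X ^ 2) * PR (2 * t) 0 + 1 := by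
    have := PR_nonneg (2 * t) 0
    positivity
  calc 4 * M / h * Ev dl (Fl (2 * t) (r + t)) (fun x : ℤ => if |(x : ℝ)| ≤ h then (1 : ℝ) else 0) *
        (6 * ((Nat.fib (2 * t + 2) : ℝ) + 2 * X ^ 2) * PR (2 * t) 0 + 1) ≤
      (104 * φ ^ t) * ((4 * K + 18) * (5 / 8 : ℝ) ^ t) * (49 * ρ ^ (2 * t)) := by
        gcongr
    _ = 5096 * (4 * K + 18) * (φ ^ t * (5 / 8 : ℝ) ^ t * ρ ^ (2 * t)) := by ring
    _ = 5096 * (4 * K + 18) * (ρ ^ 3) ^ t := by
        rw [← mul_pow, show φ * (5 / 8 : ℝ) = ρ from rfl, ← pow_add, ← pow_mul]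
        congr 2; ring

/-! ### Pointwise decay -/

lemma GG_le_mem (L : List ℤ) (θ : ℝ) (s : ℤ) (hs : s ∈ L) :
    GG L θ ≤ (1 + Real.cos (2 * Real.pi * (s * θ))) / 2 := by
  induction L with
  | nil => simp at hs
  | cons a L ih =>
    rw [GG_cons]
    have h1 : ∀ b : ℤ, 0 ≤ (1 + Real.cos (2 * Real.pi * (b * θ))) / 2 ∧
        (1 + Real.cos (2 * Real.pi * (b * θ))) / 2 ≤ 1 := by
      intro b
      have h1 := Real.neg_one_le_cos (2 * Real.pi * (b * θ))
      have h2 := Real.cos_le_one (2 * Real.pi * (b * θ))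
      constructor <;> linarith
    rcases List.mem_cons.1 hs with h | h
    · subst h
      exact mul_le_of_le_one_right (h1 s).1 (GG_le_one _ _)
    · have := ih h
      have h3 := GG_nonneg L θ
      have h4 := h1 a
      nlinarith

lemma cos_far (x : ℝ) (h : 1 / 8 ≤ |x - round x|) : (1 + Real.cos (2 * Real.pi * x)) / 2 ≤ 7 / 8 := by
  have h1 : Real.cos (2 * Real.pi * x) = Real.cos (2 * Real.pi * |x - round x|) := by
    have e : 2 * Real.pi * x = 2 * Real.pi * (x - round x) + (round x : ℤ) * (2 * Real.pi) := by ring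
    rw [e, Real.cos_add_int_mul_two_pi]
    rcases abs_choice (x - round x) with h2 | h2
    · rw [h2]
    · rw [h2, mul_neg, Real.cos_neg]
  have h2 : |x - round x| ≤ 1 / 2 := abs_sub_round x
  have hpi := Real.pi_pos
  have h3 : Real.cos (2 * Real.pi * |x - round x|) ≤ Real.cos (Real.pi / 4) := by
    apply Real.cos_le_cos_of_nonneg_of_le_pi (by positivity)
    · nlinarith
    · nlinarith
  rw [h1]
  rw [Real.cos_pi_div_four] at h3
  have h4 : √2 ≤ 1.5 := by
    rw [Real.sqrt_le_left (by norm_num)]; norm_num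
  linarith

lemma mem_Fl (m j i : ℕ) (hi : i < j) : (Nat.fib (m + i + 1) : ℤ) ∈ Fl m j := by
  induction j with
  | zero => omega
  | succ j ih =>
    rw [Fl_succ, List.mem_cons]
    rcases Nat.lt_or_ge i j with h | h
    · right; exact ih h
    · left
      have : i = j := by omega
      rw [this]

lemma mul_nonneg_iff_of_same {a b : ℤ} (h : 0 ≤ a * b) : (0 ≤ a ∧ 0 ≤ b) ∨ (a ≤ 0 ∧ b ≤ 0) :=
  mul_nonneg_iff.1 h

/-- a solution of the recurrence cannot stay small -/
lemma stay_small (h : ℕ) (v : ℕ → ℤ) (hrec : ∀ i, i + 2 < 2 * h + 2 → v (i + 2) = v (i + 1) + v i)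
    (B : ℤ) (hB : ∀ i, i < 2 * h + 2 → |v i| < B) (hnz : ¬ (v h = 0 ∧ v (h + 1) = 0)) :
    (Nat.fib h : ℤ) < B := by
  have hf : ∀ j, j ≤ h → v (h + j + 1) = Nat.fib j * v h + Nat.fib (j + 1) * v (h + 1) := by
    intro j
    induction j using Nat.strong_induction_on with
    | _ j ih =>
      intro hj
      match j, ih, hj with
      | 0, _, _ => simp
      | 1, _, hj =>
        have := hrec h (by omega)
        simp only [Nat.fib_one, show Nat.fib (1 + 1) = 1 from rfl]
        rw [show h + 1 + 1 = h + 2 by ring, this]; push_cast; ring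
      | (j + 2), ih, hj =>
        have h1 := ih (j + 1) (by omega) (by omega)
        have h2 := ih j (by omega) (by omega)
        have h3 := hrec (h + j + 1) (by omega)
        rw [show h + (j + 2) + 1 = h + j + 1 + 2 by ring, h3,
          show h + j + 1 + 1 = h + (j + 1) + 1 by ring, h1, h2]
        have e1 : Nat.fib (j + 2) = Nat.fib j + Nat.fib (j + 1) := Nat.fib_add_two
        have e2 : Nat.fib (j + 2 + 1) = Nat.fib (j + 1) + Nat.fib (j + 1 + 1) := Nat.fib_add_two
        rw [e2, e1]; push_cast; ring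
  have hb : ∀ j, j ≤ h → v (h - j) = (-1) ^ j * (Nat.fib (j + 1) * v h - Nat.fib j * v (h + 1)) := by
    intro j
    induction j using Nat.strong_induction_on with
    | _ j ih =>
      intro hj
      match j, ih, hj with
      | 0, _, _ => simp
      | 1, _, hj =>
        have := hrec (h - 1) (by omega)
        rw [show h - 1 + 2 = h + 1 by omega, show h - 1 + 1 = h by omega] at this
        simp only [Nat.fib_one, show Nat.fib (1 + 1) = 1 from rfl]
        push_cast
        linarith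
      | (j + 2), ih, hj =>
        have h1 := ih (j + 1) (by omega) (by omega)
        have h2 := ih j (by omega) (by omega)
        have h3 := hrec (h - (j + 2)) (by omega)
        rw [show h - (j + 2) + 2 = h - j by omega, show h - (j + 2) + 1 = h - (j + 1) by omega,
          h1, h2] at h3
        have e1 : Nat.fib (j + 2) = Nat.fib j + Nat.fib (j + 1) := Nat.fib_add_two
        have e2 : Nat.fib (j + 2 + 1) = Nat.fib (j + 1) + Nat.fib (j + 1 + 1) := Nat.fib_add_two
        have e3 : Nat.fib (j + 1 + 1) = Nat.fib j + Nat.fib (j + 1) := Nat.fib_add_two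
        rw [e2, e1]
        rw [e3] at h3
        push_cast at h3 ⊢
        linear_combination -h3
  have f1 := hf h le_rfl
  have b1 := hb h le_rfl
  rw [Nat.sub_self] at b1
  have f2 := hB (h + h + 1) (by omega)
  have b2 := hB 0 (by omega)
  rw [f1] at f2
  rw [b1, abs_mul, abs_pow, abs_neg, abs_one, one_pow, one_mul] at b2
  have hF : (Nat.fib h : ℤ) ≤ Nat.fib (h + 1) := by exact_mod_cast Nat.fib_le_fib_succ
  have hF0 : (0 : ℤ) ≤ Nat.fib h := Int.natCast_nonneg _
  have key : (1 : ℤ) ≤ |v h| + |v (h + 1)| := by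
    by_contra hc
    apply hnz
    have h1 := abs_nonneg (v h)
    have h2 := abs_nonneg (v (h + 1))
    constructor
    · exact abs_eq_zero.1 (by omega)
    · exact abs_eq_zero.1 (by omega)
  rcases le_total 0 (v h * v (h + 1)) with hs | hs
  · have e : |(Nat.fib h : ℤ) * v h + Nat.fib (h + 1) * v (h + 1)| =
        Nat.fib h * |v h| + Nat.fib (h + 1) * |v (h + 1)| := by
      have h5 : 0 ≤ ((Nat.fib h : ℤ) * v h) * ((Nat.fib (h + 1) : ℤ) * v (h + 1)) := by
        have : ((Nat.fib h : ℤ) * v h) * ((Nat.fib (h + 1) : ℤ) * v (h + 1)) =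
          ((Nat.fib h : ℤ) * Nat.fib (h + 1)) * (v h * v (h + 1)) := by ring
        rw [this]; positivity
      rw [abs_add_eq_add_abs_iff _ _ |>.2 (mul_nonneg_iff_of_same h5), abs_mul, abs_mul, Nat.abs_cast, Nat.abs_cast]
    rw [e] at f2
    nlinarith [abs_nonneg (v h), abs_nonneg (v (h + 1))]
  · have e : |(Nat.fib (h + 1) : ℤ) * v h - Nat.fib h * v (h + 1)| =
        Nat.fib (h + 1) * |v h| + Nat.fib h * |v (h + 1)| := by
      have h5 : 0 ≤ ((Nat.fib (h + 1) : ℤ) * v h) * (-((Nat.fib h : ℤ) * v (h + 1))) := by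
        have : ((Nat.fib (h + 1) : ℤ) * v h) * (-((Nat.fib h : ℤ) * v (h + 1))) =
          ((Nat.fib h : ℤ) * Nat.fib (h + 1)) * (-(v h * v (h + 1))) := by ring
        rw [this]
        have : 0 ≤ -(v h * v (h + 1)) := by linarith
        positivity
      rw [sub_eq_add_neg, abs_add_eq_add_abs_iff _ _ |>.2 (mul_nonneg_iff_of_same h5), abs_neg, abs_mul, abs_mul, Nat.abs_cast,
        Nat.abs_cast]
    rw [e] at b2
    nlinarith [abs_nonneg (v h), abs_nonneg (v (h + 1))]

lemma window (h q a m : ℕ) (hq : 2 ≤ q) (hqF : q ≤ 4 * Nat.fib h) (hc : a.Coprime q) (β : ℝ)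
    (hβ : (Nat.fib (m + (2 * h + 2)) : ℝ) * |β| ≤ 1 / 8) :
    GG (Fl m (2 * h + 2)) ((a : ℝ) / q + β) ≤ 7 / 8 := by
  have hq0 : (0 : ℝ) < q := by exact_mod_cast (by omega : 0 < q)
  -- some residue is large
  have hex : ∃ i < 2 * h + 2, 1 / 4 ≤ |(Nat.fib (m + i + 1) : ℝ) * (a / q) -
      round ((Nat.fib (m + i + 1) : ℝ) * (a / q))| := by
    by_contra hcon
    push Not at hcon
    set v : ℕ → ℤ := fun i => Nat.fib (m + i + 1) * a - q * round ((Nat.fib (m + i + 1) : ℝ) * (a / q))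
      with hv
    have hvr : ∀ i, ((v i : ℤ) : ℝ) = q * ((Nat.fib (m + i + 1) : ℝ) * (a / q) -
        round ((Nat.fib (m + i + 1) : ℝ) * (a / q))) := by
      intro i
      rw [hv]; push_cast
      field_simp
    have hsmall : ∀ i, i < 2 * h + 2 → 4 * |v i| < q := by
      intro i hi
      have h1 := hcon i hi
      have h2 : 4 * |((v i : ℤ) : ℝ)| < q := by
        rw [hvr, abs_mul, abs_of_pos hq0]
        nlinarith
      have h3 : ((4 * |v i| : ℤ) : ℝ) < ((q : ℤ) : ℝ) := by push_cast; exact h2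
      exact_mod_cast h3
    have hrec : ∀ i, i + 2 < 2 * h + 2 → v (i + 2) = v (i + 1) + v i := by
      intro i hi
      have hd : (q : ℤ) ∣ v (i + 2) - (v (i + 1) + v i) := by
        have e1 : Nat.fib (m + (i + 2) + 1) = Nat.fib (m + i + 1) + Nat.fib (m + (i + 1) + 1) := by
          rw [show m + (i + 2) + 1 = (m + i + 1) + 2 by ring, Nat.fib_add_two,
            show m + (i + 1) + 1 = m + i + 1 + 1 by ring]
        refine ⟨-round ((Nat.fib (m + (i + 2) + 1) : ℝ) * (a / q)) +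
          round ((Nat.fib (m + (i + 1) + 1) : ℝ) * (a / q)) +
          round ((Nat.fib (m + i + 1) : ℝ) * (a / q)), ?_⟩
        simp only [hv]
        rw [e1]; push_cast; ring
      have h1 := hsmall i (by omega)
      have h2 := hsmall (i + 1) (by omega)
      have h3 := hsmall (i + 2) (by omega)
      have h4 := Int.eq_zero_of_abs_lt_dvd hd (by
        have h5 : |v (i + 2) - (v (i + 1) + v i)| ≤ |v (i + 2)| + |v (i + 1) + v i| := abs_sub _ _
        have h6 : |v (i + 1) + v i| ≤ |v (i + 1)| + |v i| := abs_add_le _ _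
        omega)
      omega
    have hnz : ¬ (v h = 0 ∧ v (h + 1) = 0) := by
      rintro ⟨h1, h2⟩
      have d1 : (q : ℤ) ∣ Nat.fib (m + h + 1) * a := by
        refine ⟨round ((Nat.fib (m + h + 1) : ℝ) * (a / q)), ?_⟩
        simp only [hv] at h1; linarith
      have d2 : (q : ℤ) ∣ Nat.fib (m + (h + 1) + 1) * a := by
        refine ⟨round ((Nat.fib (m + (h + 1) + 1) : ℝ) * (a / q)), ?_⟩
        simp only [hv] at h2; linarith
      have d3 : q ∣ Nat.fib (m + h + 1) := by
        have : q ∣ Nat.fib (m + h + 1) * a := by exact_mod_cast d1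
        exact hc.symm.dvd_of_dvd_mul_right this
      have d4 : q ∣ Nat.fib (m + h + 1 + 1) := by
        have : q ∣ Nat.fib (m + (h + 1) + 1) * a := by exact_mod_cast d2
        have := hc.symm.dvd_of_dvd_mul_right this
        rwa [show m + (h + 1) + 1 = m + h + 1 + 1 by ring] at this
      have := Nat.dvd_gcd d3 d4
      rw [Nat.fib_coprime_fib_succ] at this
      have := Nat.le_of_dvd one_pos this
      omega
    -- bound for `v` with `B = ⌈q / 4⌉`
    have h1 := stay_small h v hrec ((q + 3) / 4) (fun i hi => by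
      have := hsmall i hi
      omega) hnz
    omega
  obtain ⟨i, hi, h1⟩ := hex
  refine (GG_le_mem _ _ _ (mem_Fl m (2 * h + 2) i hi)).trans ?_
  apply cos_far
  push_cast
  set F : ℝ := (Nat.fib (m + i + 1) : ℝ) with hF
  have h2 : |F * β| ≤ 1 / 8 := by
    rw [abs_mul, abs_of_nonneg (Nat.cast_nonneg _)]
    refine le_trans ?_ hβ
    have : Nat.fib (m + i + 1) ≤ Nat.fib (m + (2 * h + 2)) := Nat.fib_mono (by omega)
    have : F ≤ (Nat.fib (m + (2 * h + 2)) : ℝ) := by rw [hF]; exact_mod_cast this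
    gcongr
  have h3 : |F * (a / q) - round (F * (a / q))| ≤ |F * (a / q) - round (F * (a / q + β))| :=
    round_le _ _
  have h4 : |F * (a / q) - round (F * (a / q + β))| ≤
      |F * (a / q + β) - round (F * (a / q + β))| + |F * β| := by
    have := abs_sub (F * (a / q + β) - round (F * (a / q + β))) (F * β)
    have e : F * (a / q + β) - round (F * (a / q + β)) - F * β =
      F * (a / q) - round (F * (a / q + β)) := by ring
    rwa [e] at this
  linarith

theorem decay (h q a i r : ℕ) (hq : 2 ≤ q) (hqF : q ≤ 4 * Nat.fib h) (hc : a.Coprime q) (β : ℝ)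
    (hβ : (Nat.fib (i * (2 * h + 2)) : ℝ) * |β| ≤ 1 / 8) :
    GG (Fl 0 (i * (2 * h + 2) + r)) ((a : ℝ) / q + β) ≤ (7 / 8 : ℝ) ^ i := by
  rw [Fl_add, GG_append]
  refine (mul_le_of_le_one_left (GG_nonneg _ _) (GG_le_one _ _)).trans ?_
  induction i with
  | zero => simp [Fl, GG_nil]
  | succ i ih =>
    rw [Nat.succ_mul, Fl_add, GG_append, pow_succ, mul_comm]
    have hmono : (Nat.fib (i * (2 * h + 2)) : ℝ) ≤ Nat.fib ((i + 1) * (2 * h + 2)) := by
      exact_mod_cast Nat.fib_mono (Nat.mul_le_mul_right _ (Nat.le_succ i))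
    have h1 := ih (le_trans (mul_le_mul_of_nonneg_right hmono (abs_nonneg β)) hβ)
    have h2 := window h q a (i * (2 * h + 2)) hq hqF hc β (by
      rw [Nat.succ_mul] at hβ; exact hβ)
    rw [zero_add]
    exact mul_le_mul h1 h2 (GG_nonneg _ _) (by positivity)

/-! ### Vinogradov's bound off the arcs -/

theorem off_AX {C : ℝ} (hC : VC C) {N M X j : ℕ} (hN : 1 ≤ N) (hNM : N ≤ M) (hX : 1 ≤ X)
    (hXM : X ≤ M) (hj : j < M) (hjA : j ∉ AX M X) :
    ‖SP N (-((j : ℝ) / M))‖ ≤ C * (1 + Real.log M) ^ 7 * (2 * (M / √(X : ℝ)) + (M : ℝ) ^ (4 / 5 : ℝ)) := by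
  obtain ⟨hC0, hC⟩ := hC
  have hM0 : (0 : ℝ) < M := by exact_mod_cast (by omega : 0 < M)
  have hX0 : (0 : ℝ) < X := by exact_mod_cast hX
  set P : ℕ := M / X with hP
  have hP1 : 1 ≤ P := (Nat.one_le_div_iff (by omega)).2 hXM
  have hPX : (M : ℝ) ≤ (P + 1) * X := by
    have : M < X * (M / X + 1) := Nat.lt_mul_div_succ M (by omega)
    have h2 : M ≤ (P + 1) * X := by rw [hP]; linarith
    exact_mod_cast h2
  obtain ⟨z, hz1, hz2⟩ := Real.exists_rat_abs_sub_le_and_den_le ((j : ℝ) / M) (n := P) (by omega)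
  have hd0 : (0 : ℝ) < z.den := by exact_mod_cast z.den_pos
  have hd1 : (1 : ℝ) ≤ z.den := by exact_mod_cast z.den_pos
  have hz : (z : ℝ) = (z.num : ℝ) / z.den := Rat.cast_def z
  have hP0 : (0 : ℝ) < (P : ℝ) + 1 := by positivity
  have hj0 : (0 : ℝ) ≤ (j : ℝ) / M := by positivity
  have hj1 : (j : ℝ) / M < 1 := by rw [div_lt_one hM0]; exact_mod_cast hj
  rw [hz] at hz1
  -- the numerator
  have hnum0 : 0 ≤ z.num := by
    by_contra hcon
    have h1 : (z.num : ℝ) ≤ -1 := by exact_mod_cast (by omega : z.num ≤ -1)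
    have h2 := (abs_le.1 hz1).2
    have h3 : (z.num : ℝ) / z.den ≤ -1 / z.den := by gcongr
    have h4 : 1 / (((P : ℝ) + 1) * z.den) < 1 / z.den := by
      apply div_lt_div_of_pos_left one_pos hd0
      have : (1 : ℝ) ≤ P := by exact_mod_cast hP1
      nlinarith
    have h5 : -1 / (z.den : ℝ) = -(1 / z.den) := by ring
    linarith
  have hnum1 : z.num ≤ z.den := by
    by_contra hcon
    have h1 : ((z.den : ℝ)) + 1 ≤ z.num := by exact_mod_cast (by omega : (z.den : ℤ) + 1 ≤ z.num)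
    have h2 := (abs_le.1 hz1).1
    have h3 : ((z.den : ℝ) + 1) / z.den ≤ (z.num : ℝ) / z.den := by gcongr
    have h4 : 1 / (((P : ℝ) + 1) * z.den) < 1 / z.den := by
      apply div_lt_div_of_pos_left one_pos hd0
      have : (1 : ℝ) ≤ P := by exact_mod_cast hP1
      nlinarith
    have h5 : ((z.den : ℝ) + 1) / z.den = 1 + 1 / z.den := by field_simp
    linarith
  have hcop : z.num.natAbs.Coprime z.den := z.reduced
  have hna : ((z.num.natAbs : ℕ) : ℝ) = z.num := by
    rw [Nat.cast_natAbs]; push_cast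
    rw [abs_of_nonneg (by exact_mod_cast hnum0)]
  -- the denominator is large
  have hbig : X < z.den := by
    by_contra hcon
    apply hjA
    rw [mem_AX]
    refine ⟨hj, z.den, z.num.natAbs, z.den_pos, by omega, by omega, hcop, ?_⟩
    rw [hna]
    refine hz1.trans ?_
    rw [div_le_div_iff₀ (by positivity) hM0]
    nlinarith
  have hcopZ : IsCoprime (-z.num) ((z.den : ℕ) : ℤ) := by
    rw [IsCoprime.neg_left_iff, Int.isCoprime_iff_gcd_eq_one, Int.gcd, Int.natAbs_natCast]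
    exact hcop
  have hzP : (z.den : ℝ) ≤ P := by exact_mod_cast hz2
  have h1 := hC N z.den hN z.den_pos (-z.num) hcopZ (-((j : ℝ) / M)) (by
    have e : -((j : ℝ) / M) - ((-z.num : ℤ) : ℝ) / z.den = -((j : ℝ) / M - (z.num : ℝ) / z.den) := by
      push_cast; ring
    rw [e, abs_neg]
    refine hz1.trans ?_
    apply div_le_div_of_nonneg_left zero_le_one (by positivity)
    nlinarith)
  refine h1.trans ?_
  have hN0 : (0 : ℝ) < N := by exact_mod_cast hN
  have hNMr : (N : ℝ) ≤ M := by exact_mod_cast hNM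
  have hlog : Real.log N ≤ Real.log M := Real.log_le_log hN0 hNMr
  have hlog0 : 0 ≤ Real.log N := Real.log_nonneg (by exact_mod_cast hN)
  have hV : VB N z.den ≤ 2 * (M / √(X : ℝ)) + (M : ℝ) ^ (4 / 5 : ℝ) := by
    unfold VB
    have hXd : (X : ℝ) ≤ z.den := by exact_mod_cast hbig.le
    have a1 : (N : ℝ) / √(z.den : ℝ) ≤ M / √(X : ℝ) := by
      have : 0 < √(X : ℝ) := Real.sqrt_pos.2 hX0
      gcongr
    have a2 : (N : ℝ) ^ (4 / 5 : ℝ) ≤ (M : ℝ) ^ (4 / 5 : ℝ) := by gcongr
    have a3 : √((N : ℝ) * z.den) ≤ M / √(X : ℝ) := by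
      rw [le_div_iff₀ (Real.sqrt_pos.2 hX0), ← Real.sqrt_mul (by positivity)]
      apply Real.sqrt_le_iff.2
      refine ⟨hM0.le, ?_⟩
      have b1 : (P : ℝ) * X ≤ M := by
        have := Nat.div_mul_le_self M X
        rw [← hP] at this
        exact_mod_cast this
      calc (N : ℝ) * z.den * X = N * (z.den * X) := by ring
        _ ≤ M * (P * X) := by gcongr
        _ ≤ M * M := by gcongr
        _ = _ := by ring
    linarith
  have hV0 : 0 ≤ VB N z.den := by unfold VB; positivity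
  gcongr

end Pool.Agent.K4H3.CT
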