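import Mathlib
import Pool.Agent.K4H3.CT.C4

/-! The circle method for the random sums. -/

set_option autoImplicit false

namespace Pool.Agent.K4H3.CT
open Finset
open Pool.Agent.H807R2.Dav
open Pool.Agent.W301.SS (SP VC VB om om_nonneg SP_le FK FK_near orth)
open scoped goldenRatio

/-- `log p` at primes, on the integers -/
noncomputable def oz (z : ℤ) : ℝ := om z.toNat

lemma oz_nonneg (z : ℤ) : 0 ≤ oz z := om_nonneg _

lemma inv0 {N M : ℕ} (hNM : N < M) (m : ℕ) (hmN : m ≤ N) :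
    ∑ r ∈ range M, SP N (-((r : ℝ) / M)) * ee ((m : ℝ) * ((r : ℝ) / M)) = M * ((om m : ℝ) : ℂ) := by
  rcases Nat.eq_zero_or_pos m with rfl | hm
  · have hM : 1 ≤ M := by omega
    have e1 : ∀ r ∈ range M, SP N (-((r : ℝ) / M)) * ee (((0 : ℕ) : ℝ) * ((r : ℝ) / M)) =
        ∑ n ∈ Icc 1 N, ((om n : ℝ) : ℂ) * ee (((-(n : ℤ) : ℤ) : ℝ) * ((r : ℝ) / M)) := by
      intro r _
      unfold SP
      rw [sum_mul]
      apply sum_congr rfl
      intro n _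
      rw [mul_assoc, ← ee_add]
      congr 2
      push_cast; ring
    rw [sum_congr rfl e1, sum_comm, sum_eq_zero]
    · simp [om, Nat.not_prime_zero]
    · intro n hn
      rw [mem_Icc] at hn
      rw [← mul_sum, orth hM, if_neg, mul_zero]
      intro h
      have h3 := Int.eq_zero_of_abs_lt_dvd h (by rw [abs_lt]; constructor <;> omega)
      omega
  · exact Pool.Agent.W301.SS.inversion hNM m hm hmN

/-- the weight of a frequency -/
noncomputable def TT (N M H n j : ℕ) : ℝ := ‖SP N (-((j : ℝ) / M))‖ * GG (Fl 0 n) ((j : ℝ) / M) *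
  ‖1 - FK H ((j : ℝ) / M) / H‖

lemma four_om {N M H n y : ℕ} (hNM : N < M) (hH : 1 ≤ H) (hy : y + 2 * Nat.fib (n + 2) + H ≤ N) :
    M * |Ev el (Fl 0 n) (fun x => oz (y + x)) -
      Ev el (Fl 0 n) (fun x => (∑ h ∈ Ioc 0 H, oz (y + x + h)) / H)| ≤
    ∑ r ∈ range M, TT N M H n r := by
  have hH0 : (H : ℂ) ≠ 0 := by exact_mod_cast (by omega : H ≠ 0)
  have key : (M : ℂ) * ((Ev el (Fl 0 n) (fun x => oz (y + x)) -
      Ev el (Fl 0 n) (fun x => (∑ h ∈ Ioc 0 H, oz (y + x + h)) / H) : ℝ) : ℂ) =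
      ∑ r ∈ range M, SP N (-((r : ℝ) / M)) * (ee ((y : ℝ) * ((r : ℝ) / M)) *
        (1 - FK H ((r : ℝ) / M) / H)) * Ev el (Fl 0 n) (fun x : ℤ => ee ((x : ℝ) * ((r : ℝ) / M))) := by
    have e0 : ∀ a b : ℝ, a - b = a + (-1) * b := fun a b => by ring
    rw [e0, ← Ev_mulR, ← Ev_add, Ev_ofReal, ← Ev_mulC]
    simp_rw [← Ev_mulC]
    rw [← Ev_sum]
    apply Ev_congr_R
    intro x hx
    have hx1 := Rch_el 0 n x hx
    have h2 : Nat.fib (0 + 2) = 1 := rfl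
    rw [h2, zero_add] at hx1
    push_cast at hx1
    obtain ⟨m, hm⟩ : ∃ m : ℕ, x = m := ⟨x.toNat, by omega⟩
    subst hm
    have hmN : y + m + H ≤ N := by omega
    have e1 : ∀ r ∈ range M, SP N (-((r : ℝ) / M)) * (ee ((y : ℝ) * ((r : ℝ) / M)) *
        (1 - FK H ((r : ℝ) / M) / H)) * ee ((((m : ℕ) : ℤ) : ℝ) * ((r : ℝ) / M)) =
        SP N (-((r : ℝ) / M)) * ee (((y + m : ℕ) : ℝ) * ((r : ℝ) / M)) -
        (∑ h ∈ Ioc 0 H, SP N (-((r : ℝ) / M)) * ee (((y + m + h : ℕ) : ℝ) * ((r : ℝ) / M))) / H := by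
      intro r _
      have a1 : ee (((y + m : ℕ) : ℝ) * ((r : ℝ) / M)) =
          ee ((y : ℝ) * ((r : ℝ) / M)) * ee ((m : ℝ) * ((r : ℝ) / M)) := by
        rw [← ee_add]; congr 1; push_cast; ring
      have a2 : ∑ h ∈ Ioc 0 H, SP N (-((r : ℝ) / M)) * ee (((y + m + h : ℕ) : ℝ) * ((r : ℝ) / M)) =
          SP N (-((r : ℝ) / M)) * ee (((y + m : ℕ) : ℝ) * ((r : ℝ) / M)) * FK H ((r : ℝ) / M) := by
        unfold FK
        rw [mul_sum]
        apply sum_congr rfl; intro h _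
        rw [mul_assoc, ← ee_add]
        congr 2; push_cast; ring
      rw [a2, a1]
      simp only [Int.cast_natCast]
      ring
    rw [sum_congr rfl e1, sum_sub_distrib, ← sum_div, sum_comm, inv0 hNM _ (by omega)]
    have e2 : ∀ h ∈ Ioc 0 H, ∑ r ∈ range M, SP N (-((r : ℝ) / M)) *
        ee (((y + m + h : ℕ) : ℝ) * ((r : ℝ) / M)) = M * ((om (y + m + h) : ℝ) : ℂ) := by
      intro h hh
      rw [mem_Ioc] at hh
      exact inv0 hNM _ (by omega)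
    rw [sum_congr rfl e2]
    have e3 : oz ((y : ℤ) + (m : ℕ)) = om (y + m) := by
      unfold oz; congr 1
    have e4 : ∀ h : ℕ, oz ((y : ℤ) + (m : ℕ) + h) = om (y + m + h) := by
      intro h; unfold oz; congr 1
    simp_rw [e3, e4]
    push_cast
    rw [← mul_sum]
    ring
  have h1 : M * |Ev el (Fl 0 n) (fun x => oz (y + x)) -
      Ev el (Fl 0 n) (fun x => (∑ h ∈ Ioc 0 H, oz (y + x + h)) / H)| =
      ‖(M : ℂ) * ((Ev el (Fl 0 n) (fun x => oz (y + x)) -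
      Ev el (Fl 0 n) (fun x => (∑ h ∈ Ioc 0 H, oz (y + x + h)) / H) : ℝ) : ℂ)‖ := by
    rw [norm_mul, Complex.norm_natCast, Complex.norm_real, Real.norm_eq_abs]
  rw [h1, key]
  refine (norm_sum_le _ _).trans (le_of_eq (sum_congr rfl fun r _ => ?_))
  unfold TT
  rw [norm_mul, norm_mul, norm_mul, norm_ee, one_mul, four_el]
  ring

lemma FK_le_two (H : ℕ) (hH : 1 ≤ H) (x : ℝ) : ‖1 - FK H x / H‖ ≤ 2 := by
  have hH0 : (0 : ℝ) < H := by exact_mod_cast hH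
  refine (norm_sub_le _ _).trans ?_
  have : ‖FK H x / H‖ ≤ 1 := by
    rw [norm_div, Complex.norm_natCast, div_le_one hH0]
    unfold FK
    refine (norm_sum_le _ _).trans ?_
    simp [norm_ee]
  rw [norm_one]; linarith

lemma TT_nonneg (N M H n j : ℕ) : 0 ≤ TT N M H n j := by
  unfold TT
  have := GG_nonneg (Fl 0 n) ((j : ℝ) / M)
  positivity

lemma AX_mono {M X Y : ℕ} (h : X ≤ Y) : AX M X ⊆ AX M Y := by
  intro j hj
  rw [mem_AX] at hj ⊢
  obtain ⟨h1, q, a, h2, h3, h4, h5, h6⟩ := hj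
  refine ⟨h1, q, a, h2, h3.trans h, h4, h5, h6.trans ?_⟩
  have : (X : ℝ) ≤ Y := by exact_mod_cast h
  gcongr

/-- the bound for the exponential sum off the arcs -/
noncomputable def VV (C : ℝ) (M t : ℕ) : ℝ :=
  C * (1 + Real.log M) ^ 7 * (2 * (M / √(Nat.fib t : ℝ)) + (M : ℝ) ^ (4 / 5 : ℝ))

lemma TT_off {C : ℝ} (hC : VC C) {N M H n t j : ℕ} (hN : 1 ≤ N) (hNM : N ≤ M) (hH : 1 ≤ H)
    (ht : 1 ≤ t) (htM : Nat.fib t ≤ M) (hj : j < M) (hjA : j ∉ AX M (Nat.fib t)) :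
    TT N M H n j ≤ 2 * VV C M t * GG (Fl 0 n) ((j : ℝ) / M) := by
  have h1 := off_AX hC hN hNM (Nat.fib_pos.2 ht) htM hj hjA
  have h2 := FK_le_two H hH ((j : ℝ) / M)
  have h3 := GG_nonneg (Fl 0 n) ((j : ℝ) / M)
  unfold TT
  have h4 : 0 ≤ VV C M t := le_trans (norm_nonneg _) h1
  calc ‖SP N (-((j : ℝ) / M))‖ * GG (Fl 0 n) ((j : ℝ) / M) * ‖1 - FK H ((j : ℝ) / M) / H‖ ≤
        VV C M t * GG (Fl 0 n) ((j : ℝ) / M) * 2 := by
        unfold VV at h4 ⊢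
        gcongr
    _ = _ := by ring

lemma VV_nonneg {C : ℝ} (hC : 0 ≤ C) (M t : ℕ) : 0 ≤ VV C M t := by
  unfold VV
  have : 0 ≤ Real.log M := Real.log_natCast_nonneg M
  positivity

/-- one shell -/
lemma shell {C : ℝ} (hC : VC C) {N M H n t : ℕ} {K : ℝ} (hN : 1 ≤ N) (hNM : N ≤ M) (hH : 1 ≤ H)
    (ht : 1 ≤ t) (hK : 1 ≤ K) (htn : 3 * (t + 1) ≤ n) (hM1 : 2 * Nat.fib (n + 2) ≤ M)
    (hM2 : 13 * Nat.fib (t + 1) ^ 3 ≤ M) (hM3 : (M : ℝ) ≤ K * φ ^ n) :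
    ∑ j ∈ AX M (Nat.fib (t + 1)), TT N M H n j ≤ ∑ j ∈ AX M (Nat.fib t), TT N M H n j +
      2 * VV C M t * (5096 * (4 * K + 18) * (ρ ^ 3) ^ (t + 1)) := by
  classical
  have hm : Nat.fib t ≤ Nat.fib (t + 1) := Nat.fib_le_fib_succ
  have h1 := sum_sdiff (AX_mono (M := M) hm) (f := fun j => TT N M H n j)
  rw [← h1, add_comm]
  gcongr
  have hfM : Nat.fib t ≤ M := by
    have : Nat.fib (t + 1) ≤ Nat.fib (t + 1) ^ 3 := Nat.le_self_pow (by norm_num) _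
    omega
  have h2 : ∀ j ∈ AX M (Nat.fib (t + 1)) \ AX M (Nat.fib t), TT N M H n j ≤
      2 * VV C M t * GG (Fl 0 n) ((j : ℝ) / M) := by
    intro j hj
    rw [mem_sdiff] at hj
    exact TT_off hC hN hNM hH ht hfM (mem_AX.1 hj.1).1 hj.2
  refine (sum_le_sum h2).trans ?_
  rw [← mul_sum]
  apply mul_le_mul_of_nonneg_left _ (by have := VV_nonneg hC.1.le M t; positivity)
  refine (sum_le_sum_of_subset_of_nonneg sdiff_subset fun j _ _ => GG_nonneg _ _).trans ?_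
  obtain ⟨r, rfl⟩ : ∃ r, n = 3 * (t + 1) + r := ⟨n - 3 * (t + 1), by omega⟩
  exact mass_t (t + 1) r M K hK (by omega) hM1 hM2 hM3

lemma shells {C : ℝ} (hC : VC C) {N M H n t₀ : ℕ} {K : ℝ} (hN : 1 ≤ N) (hNM : N ≤ M) (hH : 1 ≤ H)
    (ht : 1 ≤ t₀) (hK : 1 ≤ K) (hM1 : 2 * Nat.fib (n + 2) ≤ M) (hM3 : (M : ℝ) ≤ K * φ ^ n)
    (T : ℕ) (hT : t₀ ≤ T) (hTn : 3 * T ≤ n) (hM2 : 13 * Nat.fib T ^ 3 ≤ M) :
    ∑ j ∈ AX M (Nat.fib T), TT N M H n j ≤ ∑ j ∈ AX M (Nat.fib t₀), TT N M H n j +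
      ∑ t ∈ Ico t₀ T, 2 * VV C M t * (5096 * (4 * K + 18) * (ρ ^ 3) ^ (t + 1)) := by
  induction T, hT using Nat.le_induction with
  | base => simp
  | succ T hT ih =>
    have hm : Nat.fib T ≤ Nat.fib (T + 1) := Nat.fib_le_fib_succ
    have h1 := ih (by omega) (by
      have : Nat.fib T ^ 3 ≤ Nat.fib (T + 1) ^ 3 := Nat.pow_le_pow_left hm 3
      omega)
    have h2 := shell hC hN hNM hH (by omega : 1 ≤ T) hK hTn hM1 hM2 hM3
    rw [sum_Ico_succ_top hT]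
    linarith

lemma all_bound {C : ℝ} (hC : VC C) {N M H n T : ℕ} (hN : 1 ≤ N) (hNM : N ≤ M) (hH : 1 ≤ H)
    (hT : 1 ≤ T) (hM1 : Nat.fib (n + 2) ≤ M) (hTM : Nat.fib T ≤ M) :
    ∑ j ∈ range M, TT N M H n j ≤ ∑ j ∈ AX M (Nat.fib T), TT N M H n j +
      2 * VV C M T * (M * (2 * (5 / 8 : ℝ) ^ n)) := by
  classical
  have hM : 1 ≤ M := by omega
  have hM0 : (0 : ℝ) < M := by exact_mod_cast hM
  have hsub : AX M (Nat.fib T) ⊆ range M := fun j hj => mem_range.2 (mem_AX.1 hj).1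
  have h1 := sum_sdiff hsub (f := fun j => TT N M H n j)
  rw [← h1, add_comm]
  gcongr
  have h2 : ∀ j ∈ range M \ AX M (Nat.fib T), TT N M H n j ≤
      2 * VV C M T * GG (Fl 0 n) ((j : ℝ) / M) := by
    intro j hj
    rw [mem_sdiff, mem_range] at hj
    exact TT_off hC hN hNM hH hT hTM hj.1 hj.2
  refine (sum_le_sum h2).trans ?_
  rw [← mul_sum]
  apply mul_le_mul_of_nonneg_left _ (by have := VV_nonneg hC.1.le M T; positivity)
  refine (sum_le_sum_of_subset_of_nonneg sdiff_subset fun j _ _ => GG_nonneg _ _).trans ?_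
  have h3 := mod_zero hM (Fl 0 n)
  rw [eq_div_iff hM0.ne'] at h3
  rw [← h3, mul_comm]
  apply mul_le_mul_of_nonneg_left _ hM0.le
  have e : Ev dl (Fl 0 n) (fun x : ℤ => if (M : ℤ) ∣ x then (1 : ℝ) else 0) = PR n 0 := by
    apply Ev_congr_R
    intro x hx
    have h4 := Rch_dl 0 n x hx
    have h5 : Nat.fib (0 + 2) = 1 := rfl
    rw [h5, zero_add] at h4
    push_cast at h4
    congr 1
    rw [eq_iff_iff]
    constructor
    · intro h6
      exact Int.eq_zero_of_abs_lt_dvd h6 (by omega)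
    · rintro rfl; simp
  rw [e]
  exact (collisions n).1

end Pool.Agent.K4H3.CT
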