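import Mathlib
import Pool.Agent.K4H3.CT.C5
import Pool.Agent.W301.SS.Asym

/-! The circle method for the random sums: the lowest arcs and the conclusion. -/

set_option autoImplicit false

namespace Pool.Agent.K4H3.CT
open Finset Filter
open Pool.Agent.H807R2.Dav
open Pool.Agent.W301.SS (SP VC VB om om_nonneg SP_le FK FK_near orth)
open scoped goldenRatio

lemma FK_sub_one (H : ℕ) (x : ℝ) : FK H (x - 1) = FK H x := by
  unfold FK
  apply sum_congr rfl; intro h _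
  have e : (h : ℝ) * x = (h : ℝ) * (x - 1) + ((h : ℤ) : ℝ) := by push_cast; ring
  rw [e, ee_add_int]

/-- frequencies near a fraction with denominator at least two -/
noncomputable def AO (M X : ℕ) : Finset ℕ := by
  classical
  exact (range M).filter (fun j => ∃ q a : ℕ, 2 ≤ q ∧ q ≤ X ∧ a ≤ q ∧ a.Coprime q ∧
    |(j : ℝ) / M - (a : ℝ) / q| ≤ (X : ℝ) / M)

lemma mem_AO {M X j : ℕ} : j ∈ AO M X ↔ j < M ∧ ∃ q a : ℕ, 2 ≤ q ∧ q ≤ X ∧ a ≤ q ∧ a.Coprime q ∧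
    |(j : ℝ) / M - (a : ℝ) / q| ≤ (X : ℝ) / M := by
  classical
  unfold AO
  rw [mem_filter, mem_range]

lemma card_AO {M X : ℕ} (hM : 1 ≤ M) (hX : 1 ≤ X) : ((AO M X).card : ℝ) ≤ 8 * (X : ℝ) ^ 3 := by
  classical
  have hM0 : (0 : ℝ) < M := by exact_mod_cast hM
  set S : Finset (ℕ × ℕ) := Icc 1 X ×ˢ range (X + 1) with hS
  set J : ℕ × ℕ → Finset ℕ := fun z =>
    Icc (⌊(z.2 : ℝ) * M / z.1⌋₊ - X) (⌊(z.2 : ℝ) * M / z.1⌋₊ + X + 1) with hJ
  have hsub : AO M X ⊆ S.biUnion J := by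
    intro j hj
    rw [mem_AO] at hj
    obtain ⟨h1, q, a, h2, h3, h4, h5, h6⟩ := hj
    rw [mem_biUnion]
    refine ⟨(q, a), ?_, ?_⟩
    · rw [hS, mem_product, mem_Icc, mem_range]
      exact ⟨⟨by omega, h3⟩, by simp only; omega⟩
    · have hq0 : (0 : ℝ) < q := by exact_mod_cast (by omega : 0 < q)
      have h7 : |(j : ℝ) - (a : ℝ) * M / q| ≤ X := by
        have e : (j : ℝ) - (a : ℝ) * M / q = ((j : ℝ) / M - (a : ℝ) / q) * M := by field_simp
        rw [e, abs_mul, abs_of_pos hM0]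
        rwa [le_div_iff₀ hM0] at h6
      rw [abs_le] at h7
      have h8 : (⌊(a : ℝ) * M / q⌋₊ : ℝ) ≤ (a : ℝ) * M / q := Nat.floor_le (by positivity)
      have h9 : (a : ℝ) * M / q < (⌊(a : ℝ) * M / q⌋₊ : ℝ) + 1 := Nat.lt_floor_add_one _
      rw [hJ]
      simp only [mem_Icc]
      constructor
      · have : (⌊(a : ℝ) * M / q⌋₊ : ℝ) ≤ (j : ℝ) + X := by linarith
        have : ⌊(a : ℝ) * M / q⌋₊ ≤ j + X := by exact_mod_cast this
        omega
      · have : (j : ℝ) ≤ (⌊(a : ℝ) * M / q⌋₊ : ℝ) + X + 1 := by linarith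
        exact_mod_cast this
  have h1 := card_le_card hsub
  have h2 : (S.biUnion J).card ≤ S.card * (2 * X + 2) := by
    apply card_biUnion_le_card_mul
    intro z _
    rw [hJ]
    simp only [Nat.card_Icc]
    omega
  have h3 : S.card = X * (X + 1) := by rw [hS, card_product]; simp
  have h4 : (AO M X).card ≤ X * (X + 1) * (2 * X + 2) := by rw [← h3]; exact h1.trans h2
  have h5 : ((AO M X).card : ℝ) ≤ X * (X + 1) * (2 * X + 2) := by exact_mod_cast h4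
  have hX1 : (1 : ℝ) ≤ X := by exact_mod_cast hX
  refine h5.trans ?_
  have : (X : ℝ) * (X + 1) * (2 * X + 2) ≤ X * (X + X) * (2 * X + 2 * X) := by gcongr <;> linarith
  linarith [this, (by ring : (X : ℝ) * (X + X) * (2 * X + 2 * X) = 8 * (X : ℝ) ^ 3)]

lemma low {N M H n t i r : ℕ} (hN : 1 ≤ N) (hNM : 2 * N ≤ M) (hH : 1 ≤ H) (ht : 1 ≤ t)
    (hn : n = i * (2 * t + 2) + r)
    (hβ : (Nat.fib (i * (2 * t + 2)) : ℝ) * ((Nat.fib t : ℝ) / M) ≤ 1 / 8) :
    ∑ j ∈ AX M (Nat.fib t), TT N M H n j ≤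
      21 * H * (Nat.fib t : ℝ) ^ 2 + 16 * (Nat.fib t : ℝ) ^ 3 * M * (7 / 8 : ℝ) ^ i := by
  classical
  have hM : 1 ≤ M := by omega
  have hM0 : (0 : ℝ) < M := by exact_mod_cast hM
  set X := Nat.fib t with hX
  have hX1 : 1 ≤ X := Nat.fib_pos.2 ht
  have hX1r : (1 : ℝ) ≤ X := by exact_mod_cast hX1
  have hX0 : (0 : ℝ) < X := by linarith
  have hH0 : (0 : ℝ) < H := by exact_mod_cast hH
  have hSP : ∀ θ : ℝ, ‖SP N θ‖ ≤ M := by
    intro θ
    have h1 := SP_le N θ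
    have h2 : (2 : ℝ) * N ≤ M := by exact_mod_cast hNM
    linarith
  have hnear : ∀ j : ℕ, ‖1 - FK H ((j : ℝ) / M) / H‖ ≤ 2 * Real.pi * (H * (X / M)) →
      TT N M H n j ≤ M * (2 * Real.pi * (H * (X / M))) := by
    intro j hj
    unfold TT
    calc ‖SP N (-((j : ℝ) / M))‖ * GG (Fl 0 n) ((j : ℝ) / M) * ‖1 - FK H ((j : ℝ) / M) / H‖ ≤
        M * 1 * (2 * Real.pi * (H * (X / M))) := by
          have := hSP (-((j : ℝ) / M))
          have := GG_le_one (Fl 0 n) ((j : ℝ) / M)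
          have := GG_nonneg (Fl 0 n) ((j : ℝ) / M)
          gcongr
      _ = _ := by ring
  have hsub : AX M X ⊆ (range (X + 1) ∪ Ico (M - X) M) ∪ AO M X := by
    intro j hj
    rw [mem_AX] at hj
    obtain ⟨h1, q, a, h2, h3, h4, h5, h6⟩ := hj
    rw [mem_union, mem_union]
    rcases Nat.lt_or_ge 1 q with h7 | h7
    · right
      exact mem_AO.2 ⟨h1, q, a, h7, h3, h4, h5, h6⟩
    · left
      have hq : q = 1 := by omega
      subst hq
      rw [Nat.cast_one, div_one] at h6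
      rcases Nat.eq_zero_or_pos a with h8 | h8
      · left
        rw [h8, Nat.cast_zero, sub_zero, abs_of_nonneg (by positivity)] at h6
        rw [div_le_div_iff_of_pos_right hM0] at h6
        rw [mem_range]
        have : j ≤ X := by exact_mod_cast h6
        omega
      · right
        have h9 : a = 1 := by omega
        rw [h9, Nat.cast_one] at h6
        have h10 := (abs_le.1 h6).1
        rw [mem_Ico]
        refine ⟨?_, h1⟩
        have h11 : (M : ℝ) ≤ j + X := by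
          have h12 : -((X : ℝ) / M) * M ≤ ((j : ℝ) / M - 1) * M :=
            mul_le_mul_of_nonneg_right h10 hM0.le
          have e1 : -((X : ℝ) / M) * M = -X := by field_simp
          have e2 : ((j : ℝ) / M - 1) * M = j - M := by field_simp
          rw [e1, e2] at h12
          linarith
        have : M ≤ j + X := by exact_mod_cast h11
        omega
  have hT0 : ∀ j, 0 ≤ TT N M H n j := TT_nonneg N M H n
  have s0 : ∑ j ∈ range (X + 1), TT N M H n j ≤ (X + 1) * (M * (2 * Real.pi * (H * (X / M)))) := by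
    have : ∀ j ∈ range (X + 1), TT N M H n j ≤ M * (2 * Real.pi * (H * (X / M))) := by
      intro j hj
      rw [mem_range] at hj
      apply hnear
      rw [norm_sub_rev]
      refine (FK_near H hH _).trans ?_
      rw [abs_of_nonneg (by positivity)]
      have : (j : ℝ) ≤ X := by exact_mod_cast (by omega : j ≤ X)
      gcongr
    refine (sum_le_sum this).trans ?_
    rw [sum_const, card_range, nsmul_eq_mul]; push_cast; exact le_rfl
  have s1 : ∑ j ∈ Ico (M - X) M, TT N M H n j ≤ X * (M * (2 * Real.pi * (H * (X / M)))) := by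
    have : ∀ j ∈ Ico (M - X) M, TT N M H n j ≤ M * (2 * Real.pi * (H * (X / M))) := by
      intro j hj
      rw [mem_Ico] at hj
      apply hnear
      rw [norm_sub_rev, ← FK_sub_one]
      refine (FK_near H hH _).trans ?_
      have h1 : |(j : ℝ) / M - 1| ≤ X / M := by
        rw [abs_le]
        have h2 : (j : ℝ) / M ≤ 1 := by rw [div_le_one hM0]; exact_mod_cast hj.2.le
        have h3 : (M : ℝ) ≤ j + X := by exact_mod_cast (by omega : M ≤ j + X)
        constructor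
        · rw [neg_le_sub_iff_le_add, ← add_div, one_le_div hM0]; linarith
        · have : 0 ≤ (X : ℝ) / M := by positivity
          linarith
      gcongr
    refine (sum_le_sum this).trans ?_
    rw [sum_const, Nat.card_Ico, nsmul_eq_mul]
    apply mul_le_mul_of_nonneg_right _ (by positivity)
    have : M - (M - X) ≤ X := by omega
    exact_mod_cast this
  have s2 : ∑ j ∈ AO M X, TT N M H n j ≤ 8 * (X : ℝ) ^ 3 * (M * (7 / 8 : ℝ) ^ i * 2) := by
    have : ∀ j ∈ AO M X, TT N M H n j ≤ M * (7 / 8 : ℝ) ^ i * 2 := by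
      intro j hj
      rw [mem_AO] at hj
      obtain ⟨h1, q, a, h2, h3, h4, h5, h6⟩ := hj
      have hd := decay t q a i r h2 (by omega) h5 ((j : ℝ) / M - (a : ℝ) / q) (by
        refine le_trans ?_ hβ
        gcongr)
      rw [add_sub_cancel, ← hn] at hd
      unfold TT
      have := hSP (-((j : ℝ) / M))
      have := GG_nonneg (Fl 0 n) ((j : ℝ) / M)
      have := FK_le_two H hH ((j : ℝ) / M)
      gcongr
    refine (sum_le_sum this).trans ?_
    rw [sum_const, nsmul_eq_mul]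
    exact mul_le_mul_of_nonneg_right (card_AO hM hX1) (by positivity)
  refine (sum_le_sum_of_subset_of_nonneg hsub fun j _ _ => hT0 j).trans ?_
  refine (sum_union_le_of_nonneg' hT0).trans ?_
  have h3 := sum_union_le_of_nonneg' (A := range (X + 1)) (B := Ico (M - X) M) hT0
  have e1 : (M : ℝ) * (2 * Real.pi * (H * (X / M))) = 2 * Real.pi * (H * X) := by field_simp
  rw [e1] at s0 s1
  have h4 : ((X : ℝ) + 1) * (2 * Real.pi * (H * X)) + X * (2 * Real.pi * (H * X)) ≤ 21 * H * X ^ 2 := by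
    have hpi := Real.pi_lt_d2
    have h5 : ((X : ℝ) + 1) * (2 * Real.pi * (H * X)) + X * (2 * Real.pi * (H * X)) =
      (2 * X + 1) * 2 * Real.pi * (H * X) := by ring
    rw [h5]
    calc (2 * (X : ℝ) + 1) * 2 * Real.pi * (H * X) ≤ (2 * X + X) * 2 * 3.15 * (H * X) := by
          gcongr
      _ = 18.9 * H * X ^ 2 := by ring
      _ ≤ 21 * H * X ^ 2 := by gcongr; norm_num
  have h5 : 8 * (X : ℝ) ^ 3 * (M * (7 / 8 : ℝ) ^ i * 2) = 16 * (X : ℝ) ^ 3 * M * (7 / 8 : ℝ) ^ i := by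
    ring
  linarith

/-! ### Numerical bounds -/

lemma fib_ge (t : ℕ) (ht : 1 ≤ t) : φ ^ t ≤ 4 * Nat.fib t := by
  have h1 := phi_le_fib t
  have h2 : (Nat.fib (t + 1) : ℝ) ≤ 2 * Nat.fib t := by
    have h3 : Nat.fib (t + 1) ≤ 2 * Nat.fib t := by
      obtain ⟨s, rfl⟩ : ∃ s, t = s + 1 := ⟨t - 1, by omega⟩
      rw [show s + 1 + 1 = s + 2 by ring, Nat.fib_add_two]
      have : Nat.fib s ≤ Nat.fib (s + 1) := Nat.fib_le_fib_succ
      omega
    exact_mod_cast h3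
  linarith

lemma VV_le {C : ℝ} (hC : 0 ≤ C) {M t n : ℕ} (ht : 1 ≤ t) (hM : (1.6 : ℝ) ^ n ≤ M) :
    VV C M t ≤ C * (1 + Real.log M) ^ 7 * (M * (4 / 1.264 ^ t + 1 / 1.09 ^ n)) := by
  have hM0 : (0 : ℝ) < M := lt_of_lt_of_le (by positivity) hM
  have hlog : 0 ≤ Real.log M := Real.log_natCast_nonneg M
  unfold VV
  apply mul_le_mul_of_nonneg_left _ (by positivity)
  have h1 : (1.264 : ℝ) ^ t / 2 ≤ √(Nat.fib t : ℝ) := by
    apply Real.le_sqrt_of_sq_le
    have h2 := fib_ge t ht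
    have h3 : ((1.264 : ℝ) ^ t / 2) ^ 2 = (1.264 ^ 2) ^ t / 4 := by rw [← pow_mul, mul_comm 2 t, pow_mul]; ring
    have h4 : ((1.264 : ℝ) ^ 2) ^ t ≤ φ ^ t := by
      apply pow_le_pow_left₀ (by norm_num)
      have := phi_bounds.1
      norm_num at this ⊢
      linarith
    rw [h3]; linarith
  have h2 : (M : ℝ) / √(Nat.fib t : ℝ) ≤ M * (2 / 1.264 ^ t) := by
    have hp : (0 : ℝ) < 1.264 ^ t := by positivity
    rw [div_le_iff₀ (by linarith)]
    calc (M : ℝ) = M * (2 / 1.264 ^ t) * (1.264 ^ t / 2) := by field_simp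
      _ ≤ _ := by gcongr
  have h3 : (M : ℝ) ^ (4 / 5 : ℝ) ≤ M * (1 / 1.09 ^ n) := by
    have h4 : (1.09 : ℝ) ^ n ≤ (M : ℝ) ^ (1 / 5 : ℝ) := by
      have h5 : ((1.09 : ℝ) ^ n) ^ 5 ≤ M := by
        refine le_trans ?_ hM
        rw [← pow_mul, mul_comm, pow_mul]
        apply pow_le_pow_left₀ (by norm_num)
        norm_num
      calc (1.09 : ℝ) ^ n = (((1.09 : ℝ) ^ n) ^ 5) ^ (1 / 5 : ℝ) := by
            rw [← Real.rpow_natCast (((1.09 : ℝ) ^ n)) 5, ← Real.rpow_mul (by positivity)]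
            norm_num
        _ ≤ _ := by gcongr
    have hp : (0 : ℝ) < 1.09 ^ n := by positivity
    rw [mul_one_div, le_div_iff₀ hp]
    calc (M : ℝ) ^ (4 / 5 : ℝ) * 1.09 ^ n ≤ (M : ℝ) ^ (4 / 5 : ℝ) * (M : ℝ) ^ (1 / 5 : ℝ) := by gcongr
      _ = M := by rw [← Real.rpow_add hM0]; norm_num
  calc 2 * ((M : ℝ) / √(Nat.fib t : ℝ)) + (M : ℝ) ^ (4 / 5 : ℝ) ≤
      2 * (M * (2 / 1.264 ^ t)) + M * (1 / 1.09 ^ n) := by linarith
    _ = _ := by ring

/-- the sum over the shells -/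
lemma shell_sum {C : ℝ} (hC : 0 ≤ C) {K : ℝ} (hK : 1 ≤ K) {M n t₀ T : ℕ} (ht : 1 ≤ t₀)
    (hT : T ≤ n) (hM : (1.6 : ℝ) ^ n ≤ M) :
    ∑ t ∈ Ico t₀ T, 2 * VV C M t * (5096 * (4 * K + 18) * (ρ ^ 3) ^ (t + 1)) ≤
      M * (2 * C * (1 + Real.log M) ^ 7 * (5096 * (4 * K + 18)) *
        (25 * 0.83 ^ t₀ + 2 * n * 0.96 ^ n)) := by
  have hM0 : (0 : ℝ) < M := lt_of_lt_of_le (by positivity) hM
  have hlog : 0 ≤ Real.log M := Real.log_natCast_nonneg M
  set Λ := (1 + Real.log M) ^ 7 with hΛ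
  have hΛ0 : 0 ≤ Λ := by positivity
  have h1 : ∀ t ∈ Ico t₀ T, 2 * VV C M t * (5096 * (4 * K + 18) * (ρ ^ 3) ^ (t + 1)) ≤
      M * (2 * C * Λ * (5096 * (4 * K + 18))) * (4.152 * 0.83 ^ t + 2 * 0.96 ^ n) := by
    intro t ht'
    rw [mem_Ico] at ht'
    have h2 := VV_le hC (by omega : 1 ≤ t) hM
    have h3 : (ρ ^ 3) ^ (t + 1) ≤ 1.038 ^ (t + 1) := by
      apply pow_le_pow_left₀ (by have := rho_bounds.1; positivity)
      have h4 := rho_bounds
      calc ρ ^ 3 ≤ 1.0125 ^ 3 := by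
            have : 0 ≤ ρ := by linarith [h4.1]
            gcongr
            exact h4.2
        _ ≤ 1.038 := by norm_num
    have h5 : (4 / 1.264 ^ t + 1 / 1.09 ^ n : ℝ) * 1.038 ^ (t + 1) ≤ 4.152 * 0.83 ^ t + 2 * 0.96 ^ n := by
      have a1 : (4 / 1.264 ^ t : ℝ) * 1.038 ^ (t + 1) ≤ 4.152 * 0.83 ^ t := by
        have : (4 / 1.264 ^ t : ℝ) * 1.038 ^ (t + 1) = 4.152 * (1.038 / 1.264) ^ t := by
          rw [pow_succ, div_pow]; ring
        rw [this]
        have : (1.038 / 1.264 : ℝ) ^ t ≤ 0.83 ^ t := by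
          apply pow_le_pow_left₀ (by norm_num); norm_num
        linarith
      have a2 : (1 / 1.09 ^ n : ℝ) * 1.038 ^ (t + 1) ≤ 2 * 0.96 ^ n := by
        have b1 : (1.038 : ℝ) ^ (t + 1) ≤ 2 * 1.038 ^ n := by
          have : (1.038 : ℝ) ^ t ≤ 1.038 ^ n := pow_le_pow_right₀ (by norm_num) (by omega)
          have h0 : (0 : ℝ) < 1.038 ^ n := by positivity
          rw [pow_succ]
          linarith
        calc (1 / 1.09 ^ n : ℝ) * 1.038 ^ (t + 1) ≤ (1 / 1.09 ^ n : ℝ) * (2 * 1.038 ^ n) := by gcongr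
          _ = 2 * (1.038 / 1.09) ^ n := by rw [div_pow]; ring
          _ ≤ _ := by
            have : (1.038 / 1.09 : ℝ) ^ n ≤ 0.96 ^ n := by
              apply pow_le_pow_left₀ (by norm_num); norm_num
            linarith
      rw [add_mul]; linarith
    have hρ0 : 0 ≤ (ρ ^ 3) ^ (t + 1) := by have := rho_bounds.1; positivity
    calc 2 * VV C M t * (5096 * (4 * K + 18) * (ρ ^ 3) ^ (t + 1)) ≤
        2 * (C * Λ * (M * (4 / 1.264 ^ t + 1 / 1.09 ^ n))) * (5096 * (4 * K + 18) * 1.038 ^ (t + 1)) := by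
          have := VV_nonneg hC M t
          gcongr
      _ = M * (2 * C * Λ * (5096 * (4 * K + 18))) * ((4 / 1.264 ^ t + 1 / 1.09 ^ n) * 1.038 ^ (t + 1)) := by
          ring
      _ ≤ _ := by gcongr
  refine (sum_le_sum h1).trans ?_
  rw [← mul_sum, sum_add_distrib, ← mul_sum, sum_const, Nat.card_Ico, nsmul_eq_mul]
  have h2 : ∑ t ∈ Ico t₀ T, (0.83 : ℝ) ^ t ≤ 0.83 ^ t₀ / (1 - 0.83) :=
    geom_sum_Ico_le_of_lt_one (by norm_num) (by norm_num)
  have h3 : (4.152 : ℝ) * ∑ t ∈ Ico t₀ T, (0.83 : ℝ) ^ t ≤ 25 * 0.83 ^ t₀ := by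
    have : (4.152 : ℝ) * (0.83 ^ t₀ / (1 - 0.83)) ≤ 25 * 0.83 ^ t₀ := by
      rw [← mul_div_assoc, div_le_iff₀ (by norm_num)]
      have : (0 : ℝ) < 0.83 ^ t₀ := by positivity
      linarith
    linarith
  have h4 : ((T - t₀ : ℕ) : ℝ) * (2 * 0.96 ^ n) ≤ 2 * n * 0.96 ^ n := by
    have : ((T - t₀ : ℕ) : ℝ) ≤ n := by exact_mod_cast (by omega : T - t₀ ≤ n)
    calc ((T - t₀ : ℕ) : ℝ) * (2 * 0.96 ^ n) ≤ n * (2 * 0.96 ^ n) := by gcongr
      _ = _ := by ring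
  calc M * (2 * C * Λ * (5096 * (4 * K + 18))) * (4.152 * ∑ t ∈ Ico t₀ T, (0.83 : ℝ) ^ t +
        ((T - t₀ : ℕ) : ℝ) * (2 * 0.96 ^ n)) ≤
      M * (2 * C * Λ * (5096 * (4 * K + 18))) * (25 * 0.83 ^ t₀ + 2 * n * 0.96 ^ n) := by
        gcongr
    _ = _ := by ring

/-- the last range -/
lemma last_bound {C : ℝ} (hC : 0 ≤ C) {K : ℝ} (hK : 1 ≤ K) {M n T : ℕ} (hT1 : 1 ≤ T)
    (hT : n ≤ 4 * T + 3) (hM : (1.6 : ℝ) ^ n ≤ M) (hM3 : (M : ℝ) ≤ K * φ ^ n) :
    2 * VV C M T * (M * (2 * (5 / 8 : ℝ) ^ n)) ≤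
      M * (C * (1 + Real.log M) ^ 7 * (K * 24 * 0.96 ^ n)) := by
  have hM0 : (0 : ℝ) < M := lt_of_lt_of_le (by positivity) hM
  have hlog : 0 ≤ Real.log M := Real.log_natCast_nonneg M
  set Λ := (1 + Real.log M) ^ 7 with hΛ
  have hΛ0 : 0 ≤ Λ := by positivity
  have h2 := VV_le hC hT1 hM
  have h3 : (M : ℝ) * (5 / 8 : ℝ) ^ n ≤ K * 1.0125 ^ n := by
    calc (M : ℝ) * (5 / 8 : ℝ) ^ n ≤ K * φ ^ n * (5 / 8 : ℝ) ^ n := by gcongr
      _ = K * ρ ^ n := by unfold ρ; rw [mul_pow]; ring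
      _ ≤ _ := by
        have h4 := rho_bounds
        have : 0 ≤ ρ := by linarith [h4.1]
        gcongr
        exact h4.2
  have h4 : (4 / 1.264 ^ T + 1 / 1.09 ^ n : ℝ) * 1.0125 ^ n ≤ 6 * 0.96 ^ n := by
    have a1 : (4 / 1.264 ^ T : ℝ) * 1.0125 ^ n ≤ 4.8 * 0.96 ^ n := by
      have b1 : (1.06 : ℝ) ^ n ≤ 1.2 * 1.264 ^ T := by
        calc (1.06 : ℝ) ^ n ≤ 1.06 ^ (4 * T + 3) := pow_le_pow_right₀ (by norm_num) hT
          _ = 1.06 ^ 3 * (1.06 ^ 4) ^ T := by rw [pow_add, pow_mul]; ring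
          _ ≤ 1.2 * 1.264 ^ T := by
            gcongr <;> norm_num
      rw [div_mul_eq_mul_div, div_le_iff₀ (by positivity)]
      calc (4 : ℝ) * 1.0125 ^ n = 4 * ((1.0125 / 1.06) ^ n * 1.06 ^ n) := by rw [← mul_pow]; norm_num
        _ ≤ 4 * (0.96 ^ n * (1.2 * 1.264 ^ T)) := by
          gcongr
          norm_num
        _ = _ := by ring
    have a2 : (1 / 1.09 ^ n : ℝ) * 1.0125 ^ n ≤ 0.96 ^ n := by
      calc (1 / 1.09 ^ n : ℝ) * 1.0125 ^ n = (1.0125 / 1.09) ^ n := by rw [div_pow]; ring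
        _ ≤ _ := by
          apply pow_le_pow_left₀ (by norm_num); norm_num
    have : (0 : ℝ) < 0.96 ^ n := by positivity
    rw [add_mul]; linarith
  calc 2 * VV C M T * (M * (2 * (5 / 8 : ℝ) ^ n)) =
      4 * VV C M T * (M * (5 / 8 : ℝ) ^ n) := by ring
    _ ≤ 4 * (C * Λ * (M * (4 / 1.264 ^ T + 1 / 1.09 ^ n))) * (K * 1.0125 ^ n) := by
        have := VV_nonneg hC M T
        gcongr
    _ = M * (C * Λ * (K * (4 * ((4 / 1.264 ^ T + 1 / 1.09 ^ n) * 1.0125 ^ n)))) := by ring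
    _ ≤ M * (C * Λ * (K * (4 * (6 * 0.96 ^ n)))) := by gcongr
    _ = _ := by ring

end Pool.Agent.K4H3.CT
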