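import Mathlib
import Pool.Agent.K4H3.CT.C6

/-! The circle method for the random sums: the asymptotic formula. -/

set_option autoImplicit false

namespace Pool.Agent.K4H3.CT
open Finset Filter
open Pool.Agent.H807R2.Dav
open Pool.Agent.W301.SS (SP VC VB om om_nonneg SP_le FK FK_near orth pnt_unif sum_om_Ioc)
open scoped goldenRatio

/-- the total, `L = Nat.log 2 n` -/
lemma total {C : ℝ} (hC : VC C) {K : ℝ} (hK : 1 ≤ K) {N M H n L : ℕ} (hN : 1 ≤ N) (hNM : 2 * N ≤ M)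
    (hH : 1 ≤ H) (hL : 1 ≤ L) (hn : 2 ^ L ≤ n) (hn2 : n < 2 ^ (L + 1))
    (hbig : 570 * (L + 1) * (60 * L + 2) + 30 * L + 5 ≤ n)
    (hM1 : 3 * Nat.fib (n + 2) ≤ M) (hM3 : (M : ℝ) ≤ K * φ ^ n) (hHn : (H : ℝ) * n ^ 61 ≤ M) :
    ∑ j ∈ range M, TT N M H n j ≤ M * (21 / n + 16 / n +
      2 * C * (1 + Real.log M) ^ 7 * (5096 * (4 * K + 18)) * (25 * (256 / n ^ 8) + 2 * n * 0.96 ^ n) +
      C * (1 + Real.log M) ^ 7 * (K * 24 * 0.96 ^ n)) := by
  have hC0 : 0 < C := hC.1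
  have hn1 : 1 ≤ n := by have : 1 ≤ 2 ^ L := Nat.one_le_two_pow; omega
  have hnr : (1 : ℝ) ≤ n := by exact_mod_cast hn1
  have hn0 : (0 : ℝ) < n := by linarith
  have hM : 1 ≤ M := by omega
  have hM0 : (0 : ℝ) < M := by exact_mod_cast hM
  have hlog : 0 ≤ Real.log M := Real.log_natCast_nonneg M
  have hH0 : (0 : ℝ) < H := by exact_mod_cast hH
  set t₀ : ℕ := 30 * L with ht₀
  set T : ℕ := n / 4 with hT
  have hLn : 30 * L + 5 + 1140 * (30 * L + 1) ≤ n := by nlinarith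
  have ht0T : t₀ ≤ T := by omega
  have hφM : φ ^ n ≤ M := by
    have h1 := phi_le_fib n
    have h2 : Nat.fib (n + 1) ≤ Nat.fib (n + 2) := Nat.fib_le_fib_succ
    have h3 : (2 : ℝ) * Nat.fib (n + 1) ≤ M := by exact_mod_cast (by omega : 2 * Nat.fib (n + 1) ≤ M)
    linarith
  have h16 : (1.6 : ℝ) ^ n ≤ M := by
    refine le_trans ?_ hφM
    exact pow_le_pow_left₀ (by norm_num) phi_bounds.1.le n
  -- size of the last arcs
  have hTM : 13 * Nat.fib T ^ 3 ≤ M := by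
    have h1 : (Nat.fib T : ℝ) ≤ φ ^ T := fib_le_phi T
    have h2 : (13 : ℝ) * (Nat.fib T : ℝ) ^ 3 ≤ M := by
      refine le_trans ?_ hφM
      have h3 : (13 : ℝ) ≤ φ ^ 6 := by
        calc (13 : ℝ) ≤ 1.6 ^ 6 := by norm_num
          _ ≤ φ ^ 6 := pow_le_pow_left₀ (by norm_num) phi_bounds.1.le 6
      calc (13 : ℝ) * (Nat.fib T : ℝ) ^ 3 ≤ φ ^ 6 * (φ ^ T) ^ 3 := by gcongr
        _ = φ ^ (6 + 3 * T) := by rw [pow_add, ← pow_mul, mul_comm T 3]
        _ ≤ φ ^ n := pow_le_pow_right₀ Real.one_lt_goldenRatio.le (by omega)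
    exact_mod_cast h2
  have hfT : Nat.fib T ≤ M := by
    have : Nat.fib T ≤ Nat.fib T ^ 3 := Nat.le_self_pow (by norm_num) _
    omega
  have h1 := all_bound hC (N := N) (M := M) (H := H) (n := n) (T := T) hN (by omega) hH (by omega)
    (by omega) hfT
  have h2 := shells hC (N := N) (M := M) (H := H) (n := n) (t₀ := t₀) hN (by omega) hH (by omega) hK
    (by omega) hM3 T ht0T (by omega) hTM
  have h3 := shell_sum hC0.le hK (M := M) (n := n) (t₀ := t₀) (T := T) (by omega) (by omega) h16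
  have h4 := last_bound hC0.le hK (M := M) (n := n) (T := T) (by omega) (by omega) h16 hM3
  -- the lowest arcs
  set i : ℕ := 570 * (L + 1) with hi
  have hX : (Nat.fib t₀ : ℝ) ≤ (n : ℝ) ^ 30 := by
    have a1 : (Nat.fib t₀ : ℝ) ≤ φ ^ t₀ := fib_le_phi _
    have a2 : φ ^ t₀ ≤ 2 ^ t₀ :=
      pow_le_pow_left₀ Real.goldenRatio_pos.le Real.goldenRatio_lt_two.le _
    have a3 : (2 : ℝ) ^ t₀ = (2 ^ L) ^ 30 := by rw [← pow_mul, ht₀, mul_comm]
    have a4 : ((2 : ℝ) ^ L) ≤ n := by exact_mod_cast hn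
    calc (Nat.fib t₀ : ℝ) ≤ (2 ^ L) ^ 30 := by linarith
      _ ≤ _ := by gcongr
  have h5 := low (N := N) (M := M) (H := H) (n := n) (t := t₀) (i := i) (r := n - i * (2 * t₀ + 2))
    hN hNM hH (by omega) (by
      have : i * (2 * t₀ + 2) ≤ n := by
        have e : i * (2 * t₀ + 2) = 570 * (L + 1) * (60 * L + 2) := by rw [hi, ht₀]; ring
        rw [e]
        exact (Nat.le_add_right _ _).trans ((Nat.le_add_right _ _).trans hbig)
      exact (Nat.add_sub_cancel' this).symm) (by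
      have a1 : (Nat.fib (i * (2 * t₀ + 2)) : ℝ) ≤ φ ^ (i * (2 * t₀ + 2)) := fib_le_phi _
      have a2 : (Nat.fib t₀ : ℝ) ≤ φ ^ t₀ := fib_le_phi _
      rw [← mul_div_assoc, div_le_div_iff₀ hM0 (by norm_num)]
      have a3 : (8 : ℝ) ≤ φ ^ 5 := by
        calc (8 : ℝ) ≤ 1.6 ^ 5 := by norm_num
          _ ≤ φ ^ 5 := pow_le_pow_left₀ (by norm_num) phi_bounds.1.le 5
      calc (Nat.fib (i * (2 * t₀ + 2)) : ℝ) * (Nat.fib t₀ : ℝ) * 8 ≤
            φ ^ (i * (2 * t₀ + 2)) * φ ^ t₀ * φ ^ 5 := by gcongr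
        _ = φ ^ (i * (2 * t₀ + 2) + t₀ + 5) := by rw [← pow_add, ← pow_add]
        _ ≤ φ ^ n := by
            apply pow_le_pow_right₀ Real.one_lt_goldenRatio.le
            have e : i * (2 * t₀ + 2) = 570 * (L + 1) * (60 * L + 2) := by rw [hi, ht₀]; ring
            rw [e]
            exact hbig
        _ ≤ 1 * M := by linarith)
  have h6 : 21 * H * (Nat.fib t₀ : ℝ) ^ 2 ≤ M * (21 / n) := by
    have a1 : (Nat.fib t₀ : ℝ) ^ 2 ≤ (n : ℝ) ^ 60 := by
      calc (Nat.fib t₀ : ℝ) ^ 2 ≤ ((n : ℝ) ^ 30) ^ 2 := by gcongr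
        _ = _ := by rw [← pow_mul]
    rw [← mul_div_assoc, le_div_iff₀ hn0]
    calc 21 * (H : ℝ) * (Nat.fib t₀ : ℝ) ^ 2 * (n : ℝ) ≤ 21 * (H : ℝ) * (n : ℝ) ^ 60 * (n : ℝ) := by gcongr
      _ = 21 * ((H : ℝ) * (n : ℝ) ^ 61) := by ring
      _ ≤ 21 * M := by linarith
      _ = _ := by ring
  have h7 : 16 * (Nat.fib t₀ : ℝ) ^ 3 * M * (7 / 8 : ℝ) ^ i ≤ M * (16 / n) := by
    have a1 : (Nat.fib t₀ : ℝ) ^ 3 ≤ (n : ℝ) ^ 90 := by
      calc (Nat.fib t₀ : ℝ) ^ 3 ≤ ((n : ℝ) ^ 30) ^ 3 := by gcongr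
        _ = _ := by rw [← pow_mul]
    have a2 : (7 / 8 : ℝ) ^ i * (n : ℝ) ^ 95 ≤ 1 := by
      have b1 : (7 / 8 : ℝ) ^ i ≤ (1 / 2) ^ (95 * (L + 1)) := by
        rw [hi, show 570 * (L + 1) = 6 * (95 * (L + 1)) by ring, pow_mul]
        apply pow_le_pow_left₀ (by norm_num); norm_num
      have b2 : (n : ℝ) ≤ 2 ^ (L + 1) := by exact_mod_cast hn2.le
      calc (7 / 8 : ℝ) ^ i * (n : ℝ) ^ 95 ≤ (1 / 2) ^ (95 * (L + 1)) * (2 ^ (L + 1)) ^ 95 := by gcongr
        _ = (1 / 2) ^ (95 * (L + 1)) * 2 ^ (95 * (L + 1)) := by rw [← pow_mul]; ring_nf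
        _ = 1 := by rw [← mul_pow]; norm_num
    have a3 : (n : ℝ) ^ 90 * n ≤ (n : ℝ) ^ 95 := by
      rw [← pow_succ]; exact pow_le_pow_right₀ hnr (by norm_num)
    rw [← mul_div_assoc, le_div_iff₀ hn0]
    calc 16 * (Nat.fib t₀ : ℝ) ^ 3 * (M : ℝ) * (7 / 8 : ℝ) ^ i * (n : ℝ) ≤
          16 * (n : ℝ) ^ 90 * (M : ℝ) * (7 / 8 : ℝ) ^ i * (n : ℝ) := by gcongr
      _ = 16 * (M : ℝ) * ((7 / 8 : ℝ) ^ i * ((n : ℝ) ^ 90 * (n : ℝ))) := by ring
      _ ≤ 16 * (M : ℝ) * ((7 / 8 : ℝ) ^ i * (n : ℝ) ^ 95) := by gcongr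
      _ ≤ 16 * (M : ℝ) * 1 := by gcongr
      _ = _ := by ring
  have h8 : (0.83 : ℝ) ^ t₀ ≤ 256 / n ^ 8 := by
    have b1 : (0.83 : ℝ) ^ t₀ ≤ (1 / 2 ^ 8) ^ L := by
      rw [ht₀, pow_mul]
      apply pow_le_pow_left₀ (by norm_num); norm_num
    have b2 : (n : ℝ) ≤ 2 * 2 ^ L := by
      have : (n : ℝ) ≤ 2 ^ (L + 1) := by exact_mod_cast hn2.le
      rw [pow_succ] at this; linarith
    rw [le_div_iff₀ (by positivity)]
    calc (0.83 : ℝ) ^ t₀ * n ^ 8 ≤ (1 / 2 ^ 8) ^ L * (2 * 2 ^ L) ^ 8 := by gcongr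
      _ = 256 * ((1 / 2 ^ 8) ^ L * (2 ^ 8) ^ L) := by rw [mul_pow, ← pow_mul 2 L 8, mul_comm L 8, pow_mul]; norm_num; ring
      _ = 256 := by rw [← mul_pow]; norm_num
  have h9 : M * (2 * C * (1 + Real.log M) ^ 7 * (5096 * (4 * K + 18)) *
        (25 * 0.83 ^ t₀ + 2 * n * 0.96 ^ n)) ≤
      M * (2 * C * (1 + Real.log M) ^ 7 * (5096 * (4 * K + 18)) *
        (25 * (256 / n ^ 8) + 2 * n * 0.96 ^ n)) := by gcongr
  calc ∑ j ∈ range M, TT N M H n j ≤ M * (21 / n) + M * (16 / n) + M * (2 * C * (1 + Real.log M) ^ 7 *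
        (5096 * (4 * K + 18)) * (25 * (256 / n ^ 8) + 2 * n * 0.96 ^ n)) +
        M * (C * (1 + Real.log M) ^ 7 * (K * 24 * 0.96 ^ n)) := by linarith
    _ = _ := by ring

lemma ev_L (B : ℕ) : ∀ᶠ n : ℕ in atTop, B ≤ Nat.log 2 n := by
  filter_upwards [eventually_ge_atTop (2 ^ B)] with n hn
  have := Nat.log_mono_right (b := 2) hn
  rwa [Nat.log_pow (by norm_num)] at this

lemma ev_big : ∀ᶠ n : ℕ in atTop,
    570 * (Nat.log 2 n + 1) * (60 * Nat.log 2 n + 2) + 30 * Nat.log 2 n + 5 ≤ n := by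
  have h1 := tendsto_pow_const_div_const_pow_of_one_lt 3 (r := (2 : ℝ)) (by norm_num)
  have h2 := h1.eventually (gt_mem_nhds (show (0 : ℝ) < 1 by norm_num))
  rw [eventually_atTop] at h2
  obtain ⟨B, hB⟩ := h2
  filter_upwards [ev_L (B + 71000), eventually_ge_atTop 1] with n hn hn1
  set L := Nat.log 2 n with hL
  have h3 := hB L (by omega)
  rw [div_lt_one (by positivity)] at h3
  have h4 : L ^ 3 < 2 ^ L := by exact_mod_cast h3
  have h5 : 2 ^ L ≤ n := Nat.pow_log_le_self 2 (by omega)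
  have h6 : 570 * (L + 1) * (60 * L + 2) + 30 * L + 5 ≤ 71000 * L ^ 2 := by nlinarith
  have h7 : 71000 * L ^ 2 ≤ L ^ 3 := by
    have : 71000 * L ^ 2 ≤ L * L ^ 2 := Nat.mul_le_mul_right _ (by omega)
    calc 71000 * L ^ 2 ≤ L * L ^ 2 := this
      _ = L ^ 3 := by ring
  omega

/-- **The circle method**: the average of `log p` over the primes of the form `y + S_n` tends to
one, uniformly for `y ≤ K₀ F_{n+2}`. -/
theorem asym (K₀ : ℕ) (ε : ℝ) (hε : 0 < ε) : ∀ᶠ n : ℕ in atTop, ∀ y : ℕ,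
    y ≤ K₀ * Nat.fib (n + 2) → |Ev el (Fl 0 n) (fun x => oz (y + x)) - 1| ≤ ε := by
  obtain ⟨C, hC⟩ : ∃ C, VC C := by
    obtain ⟨C, h1, h2⟩ := Pool.Agent.W301.SS.vinoP
    exact ⟨C, h1, h2⟩
  have hC0 : 0 < C := hC.1
  set K : ℝ := 4 * (K₀ + 3) with hK
  have hK1 : 1 ≤ K := by
    have : (0 : ℝ) ≤ K₀ := Nat.cast_nonneg _
    rw [hK]; linarith
  -- the parameters
  set Nf : ℕ → ℕ := fun n => (K₀ + 3) * Nat.fib (n + 2) with hNf
  have hNtend : Tendsto Nf atTop atTop := by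
    rw [tendsto_atTop]
    intro B
    filter_upwards [eventually_ge_atTop (B + 5)] with n hn
    have h1 : n + 2 ≤ Nat.fib (n + 2) := Nat.le_fib_self (by omega)
    rw [hNf]
    simp only
    nlinarith
  have hpnt := hNtend.eventually (pnt_unif 62)
  -- the errors
  have lim1 : Tendsto (fun n : ℕ => (37 : ℝ) / n) atTop (nhds 0) :=
    tendsto_const_div_atTop_nhds_zero_nat 37
  have lim2 : Tendsto (fun n : ℕ => (2 * C * (K + 2) ^ 7 * (5096 * (4 * K + 18)) * (25 * 256)) / (n : ℝ))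
      atTop (nhds 0) := tendsto_const_div_atTop_nhds_zero_nat _
  have lim3 : Tendsto (fun n : ℕ => (2 * C * (K + 2) ^ 7 * (5096 * (4 * K + 18)) * 2 +
      C * (K + 2) ^ 7 * (K * 24)) * ((n : ℝ) ^ 8 * 0.96 ^ n)) atTop (nhds 0) := by
    have := (tendsto_pow_const_mul_const_pow_of_abs_lt_one 8 (r := (0.96 : ℝ))
      (by rw [abs_of_pos] <;> norm_num)).const_mul (2 * C * (K + 2) ^ 7 * (5096 * (4 * K + 18)) * 2 +
      C * (K + 2) ^ 7 * (K * 24))
    rwa [mul_zero] at this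
  have lim4 : Tendsto (fun n : ℕ => (2 / (0.375 : ℝ) ^ 62) / (n : ℝ)) atTop (nhds 0) :=
    tendsto_const_div_atTop_nhds_zero_nat _
  have ev1 := lim1.eventually (gt_mem_nhds (show (0 : ℝ) < ε / 4 by positivity))
  have ev2 := lim2.eventually (gt_mem_nhds (show (0 : ℝ) < ε / 4 by positivity))
  have ev3 := lim3.eventually (gt_mem_nhds (show (0 : ℝ) < ε / 4 by positivity))
  have ev4 := lim4.eventually (gt_mem_nhds (show (0 : ℝ) < ε / 4 by positivity))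
  -- growth of the Fibonacci numbers
  have hgrow : ∀ᶠ n : ℕ in atTop, (n : ℝ) ^ 61 ≤ (1.6 : ℝ) ^ n := by
    have h1 := tendsto_pow_const_div_const_pow_of_one_lt 61 (r := (1.6 : ℝ)) (by norm_num)
    have h2 := h1.eventually (gt_mem_nhds (show (0 : ℝ) < 1 by norm_num))
    filter_upwards [h2] with n hn
    rw [div_lt_one (by positivity)] at hn
    exact hn.le
  filter_upwards [hpnt, ev1, ev2, ev3, ev4, hgrow, ev_big, ev_L 1,
    eventually_ge_atTop (2 * (K₀ + 3) + 5)] with n hp e1 e2 e3 e4 hg hbig hL1 hn y hy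
  set L := Nat.log 2 n with hL
  have hn1 : 1 ≤ n := by omega
  have hnr : (1 : ℝ) ≤ n := by exact_mod_cast hn1
  have hn0 : (0 : ℝ) < n := by linarith
  set N : ℕ := Nf n with hN
  have hNe : N = (K₀ + 3) * Nat.fib (n + 2) := rfl
  set M : ℕ := 2 * N with hM
  have hfib1 : 1 ≤ Nat.fib (n + 2) := Nat.fib_pos.2 (by omega)
  have hN1 : 3 * Nat.fib (n + 2) ≤ N := by rw [hNe]; nlinarith
  have hN0 : (0 : ℝ) < N := by exact_mod_cast (by omega : 0 < N)
  have hM0 : (0 : ℝ) < M := by exact_mod_cast (by omega : 0 < M)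
  have hφM : φ ^ n ≤ N := by
    have h1 := phi_le_fib n
    have h2 : Nat.fib (n + 1) ≤ Nat.fib (n + 2) := Nat.fib_le_fib_succ
    have h3 : (2 : ℝ) * Nat.fib (n + 1) ≤ N := by exact_mod_cast (by omega : 2 * Nat.fib (n + 1) ≤ N)
    linarith
  have h16 : (1.6 : ℝ) ^ n ≤ N := by
    refine le_trans ?_ hφM
    exact pow_le_pow_left₀ (by norm_num) phi_bounds.1.le n
  have hM3 : (M : ℝ) ≤ K * φ ^ n := by
    have h1 : (Nat.fib (n + 2) : ℝ) ≤ φ ^ (n + 1) := fib_succ_le_phi _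
    rw [pow_succ] at h1
    have h2 := Real.goldenRatio_lt_two
    have h3 : (0 : ℝ) < φ ^ n := pow_pos Real.goldenRatio_pos n
    have h4 : (Nat.fib (n + 2) : ℝ) ≤ 2 * φ ^ n := by nlinarith
    rw [hM, hNe, hK]; push_cast
    have : (0 : ℝ) ≤ K₀ := Nat.cast_nonneg _
    nlinarith
  -- the length of the short intervals
  set H : ℕ := M / n ^ 61 with hH
  have hnM : n ^ 61 ≤ N := by
    have : (n : ℝ) ^ 61 ≤ N := hg.trans h16
    exact_mod_cast this
  have hn61 : 0 < n ^ 61 := by positivity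
  have hH1 : 1 ≤ H := by rw [hH, Nat.one_le_div_iff hn61]; omega
  have hH0 : (0 : ℝ) < H := by exact_mod_cast hH1
  have hHn : (H : ℝ) * n ^ 61 ≤ M := by
    have := Nat.div_mul_le_self M (n ^ 61)
    rw [← hH] at this
    exact_mod_cast this
  have hHN : (N : ℝ) ≤ H * n ^ 61 := by
    have h1 : M < n ^ 61 * (M / n ^ 61 + 1) := Nat.lt_mul_div_succ M hn61
    rw [← hH] at h1
    have h2 : M < H * n ^ 61 + n ^ 61 := by linarith
    have h3 : N ≤ H * n ^ 61 := by omega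
    exact_mod_cast h3
  have hHF : H ≤ Nat.fib (n + 2) := by
    have h1 : H ≤ M / (2 * (K₀ + 3)) := by
      rw [hH]
      apply Nat.div_le_div_left _ (by omega)
      calc 2 * (K₀ + 3) ≤ n := by omega
        _ ≤ n ^ 61 := Nat.le_self_pow (by norm_num) n
    have h2 : M / (2 * (K₀ + 3)) = Nat.fib (n + 2) := by
      rw [hM, hNe, ← mul_assoc]
      exact Nat.mul_div_cancel_left _ (by omega)
    omega
  have hyN : y + 2 * Nat.fib (n + 2) + H ≤ N := by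
    rw [hNe]
    have : (K₀ + 3) * Nat.fib (n + 2) = K₀ * Nat.fib (n + 2) + 3 * Nat.fib (n + 2) := by ring
    omega
  have h1 := four_om (N := N) (M := M) (H := H) (n := n) (y := y) (by omega) hH1 hyN
  have h2 := total hC hK1 (N := N) (M := M) (H := H) (n := n) (L := L) (by omega) (by omega) hH1 hL1
    (Nat.pow_log_le_self 2 (by omega)) (Nat.lt_pow_succ_log_self (by norm_num) n) hbig (by omega) hM3 hHn
  have h3 := h1.trans h2
  have h4 := le_of_mul_le_mul_left h3 hM0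
  -- the logarithm
  have hlogM : 1 + Real.log M ≤ (K + 2) * n := by
    have a1 : Real.log M ≤ Real.log (K * φ ^ n) := Real.log_le_log hM0 hM3
    have a2 : Real.log (K * φ ^ n) = Real.log K + n * Real.log φ := by
      rw [Real.log_mul (by linarith) (pow_pos Real.goldenRatio_pos n).ne', Real.log_pow]
    have a3 : Real.log K ≤ K - 1 := Real.log_le_sub_one_of_pos (by linarith)
    have a4 : Real.log φ ≤ 1 := by
      have := Real.log_le_sub_one_of_pos Real.goldenRatio_pos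
      have := Real.goldenRatio_lt_two
      linarith
    have a5 : (n : ℝ) * Real.log φ ≤ n * 1 := by gcongr
    nlinarith
  have hlogM0 : 0 ≤ 1 + Real.log M := by
    have : 0 ≤ Real.log M := Real.log_natCast_nonneg M
    linarith
  have hΛ : (1 + Real.log M) ^ 7 ≤ (K + 2) ^ 7 * n ^ 7 := by
    rw [← mul_pow]; gcongr
  have h5 : 21 / (n : ℝ) + 16 / n +
      2 * C * (1 + Real.log M) ^ 7 * (5096 * (4 * K + 18)) * (25 * (256 / n ^ 8) + 2 * n * 0.96 ^ n) +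
      C * (1 + Real.log M) ^ 7 * (K * 24 * 0.96 ^ n) ≤ ε / 4 + ε / 4 + ε / 4 := by
    calc 21 / (n : ℝ) + 16 / n +
        2 * C * (1 + Real.log M) ^ 7 * (5096 * (4 * K + 18)) * (25 * (256 / n ^ 8) + 2 * n * 0.96 ^ n) +
        C * (1 + Real.log M) ^ 7 * (K * 24 * 0.96 ^ n) ≤ 21 / (n : ℝ) + 16 / n +
        2 * C * ((K + 2) ^ 7 * n ^ 7) * (5096 * (4 * K + 18)) * (25 * (256 / n ^ 8) + 2 * n * 0.96 ^ n) +
        C * ((K + 2) ^ 7 * n ^ 7) * (K * 24 * 0.96 ^ n) := by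
          gcongr
      _ ≤ 37 / n + (2 * C * (K + 2) ^ 7 * (5096 * (4 * K + 18)) * (25 * 256)) / (n : ℝ) +
        (2 * C * (K + 2) ^ 7 * (5096 * (4 * K + 18)) * 2 +
          C * (K + 2) ^ 7 * (K * 24)) * ((n : ℝ) ^ 8 * 0.96 ^ n) := by
          have b1 : (n : ℝ) ^ 7 * (25 * (256 / n ^ 8)) = 25 * 256 / n := by field_simp
          have b2 : (n : ℝ) ^ 7 * 0.96 ^ n ≤ n ^ 8 * 0.96 ^ n := by
            have : (n : ℝ) ^ 7 ≤ n ^ 8 := pow_le_pow_right₀ hnr (by norm_num)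
            gcongr
          have b3 : 2 * C * ((K + 2) ^ 7 * n ^ 7) * (5096 * (4 * K + 18)) *
              (25 * (256 / n ^ 8) + 2 * n * 0.96 ^ n) =
              (2 * C * (K + 2) ^ 7 * (5096 * (4 * K + 18)) * (25 * 256)) / (n : ℝ) +
              2 * C * (K + 2) ^ 7 * (5096 * (4 * K + 18)) * 2 * (n ^ 8 * 0.96 ^ n) := by
            have : 2 * C * ((K + 2) ^ 7 * (n : ℝ) ^ 7) * (5096 * (4 * K + 18)) *
              (25 * (256 / n ^ 8) + 2 * n * 0.96 ^ n) =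
              2 * C * (K + 2) ^ 7 * (5096 * (4 * K + 18)) * ((n : ℝ) ^ 7 * (25 * (256 / n ^ 8)) +
                2 * (n ^ 8 * 0.96 ^ n)) := by ring
            rw [this, b1]; ring
          have b4 : C * ((K + 2) ^ 7 * n ^ 7) * (K * 24 * 0.96 ^ n) =
              C * (K + 2) ^ 7 * (K * 24) * (n ^ 7 * 0.96 ^ n) := by ring
          have b5 : C * (K + 2) ^ 7 * (K * 24) * (n ^ 7 * 0.96 ^ n) ≤
              C * (K + 2) ^ 7 * (K * 24) * (n ^ 8 * 0.96 ^ n) := by gcongr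
          have b6 : (21 : ℝ) / n + 16 / n = 37 / n := by ring
          rw [b3, b4, b6]
          linarith
      _ ≤ _ := by linarith
  -- the average over the short intervals
  have hlogN : 0.375 * (n : ℝ) ≤ Real.log N := by
    have a1 : Real.log (φ ^ n) ≤ Real.log N := Real.log_le_log (pow_pos Real.goldenRatio_pos n) hφM
    rw [Real.log_pow] at a1
    have a2 : 0.375 ≤ Real.log φ := by
      have := Real.one_sub_inv_le_log_of_pos Real.goldenRatio_pos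
      have h3 : φ⁻¹ ≤ 0.625 := by
        rw [inv_le_comm₀ Real.goldenRatio_pos (by norm_num)]
        have := phi_bounds.1
        norm_num
        linarith
      linarith
    nlinarith
  have h6 : |Ev el (Fl 0 n) (fun x => (∑ h ∈ Ioc 0 H, oz (y + x + h)) / H) - 1| ≤ ε / 4 := by
    have a0 : Ev el (Fl 0 n) (fun x => (∑ h ∈ Ioc 0 H, oz (y + x + h)) / H) - 1 =
        Ev el (Fl 0 n) (fun x => (∑ h ∈ Ioc 0 H, oz (y + x + h)) / H - 1) := by
      have e0 : ∀ a b : ℝ, a - b = a + (-1) * b := fun a b => by ring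
      simp_rw [e0]
      rw [Ev_add, Ev_const el_law]
    rw [a0, ← Real.norm_eq_abs]
    refine (Ev_norm_le el_law.1 _ _).trans ?_
    have a1 : Ev el (Fl 0 n) (fun x => ‖(∑ h ∈ Ioc 0 H, oz (y + x + h)) / H - 1‖) ≤
        Ev el (Fl 0 n) (fun _ => ε / 4) := by
      apply Ev_mono_R el_law.1
      intro x hx
      have hx1 := Rch_el 0 n x hx
      have h2 : Nat.fib (0 + 2) = 1 := rfl
      rw [h2, zero_add] at hx1
      push_cast at hx1
      obtain ⟨m, hm⟩ : ∃ m : ℕ, x = m := ⟨x.toNat, by omega⟩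
      subst hm
      have hmN : y + m + H ≤ N := by omega
      have b1 : ∑ h ∈ Ioc 0 H, oz ((y : ℤ) + (m : ℕ) + h) = ∑ h ∈ Ioc 0 H, om (y + m + h) := by
        apply sum_congr rfl; intro h _
        unfold oz; congr 1
      rw [b1, sum_om_Ioc]
      have c1 := hp (y + m + H) (by omega)
      have c2 := hp (y + m) (by omega)
      have c3 : |Chebyshev.theta ((y + m + H : ℕ) : ℝ) - Chebyshev.theta ((y + m : ℕ) : ℝ) - H| ≤
          2 * (N / Real.log N ^ 62) := by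
        rw [abs_le] at c1 c2 ⊢
        push_cast at c1 c2 ⊢
        constructor <;> linarith
      have c4 : (Chebyshev.theta ((y + m + H : ℕ) : ℝ) - Chebyshev.theta ((y + m : ℕ) : ℝ)) / H - 1 =
          (Chebyshev.theta ((y + m + H : ℕ) : ℝ) - Chebyshev.theta ((y + m : ℕ) : ℝ) - H) / H := by
        field_simp
      rw [c4, Real.norm_eq_abs, abs_div, abs_of_pos hH0, div_le_iff₀ hH0]
      refine c3.trans ?_
      have c5 : (N : ℝ) / Real.log N ^ 62 ≤ N / (0.375 * n) ^ 62 := by gcongr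
      have c6 : 2 * ((N : ℝ) / (0.375 * n) ^ 62) ≤ 2 / 0.375 ^ 62 / n * H := by
        rw [mul_pow]
        calc 2 * ((N : ℝ) / ((0.375 : ℝ) ^ 62 * (n : ℝ) ^ 62)) ≤
              2 * (((H : ℝ) * (n : ℝ) ^ 61) / ((0.375 : ℝ) ^ 62 * (n : ℝ) ^ 62)) := by gcongr
          _ = 2 / (0.375 : ℝ) ^ 62 / (n : ℝ) * (H : ℝ) := by field_simp
      calc 2 * ((N : ℝ) / Real.log N ^ 62) ≤ 2 * ((N : ℝ) / (0.375 * (n : ℝ)) ^ 62) := by linarith
        _ ≤ 2 / (0.375 : ℝ) ^ 62 / (n : ℝ) * (H : ℝ) := c6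
        _ ≤ ε / 4 * H := by gcongr
    rwa [Ev_const el_law] at a1
  calc |Ev el (Fl 0 n) (fun x => oz (y + x)) - 1| =
      |(Ev el (Fl 0 n) (fun x => oz (y + x)) -
        Ev el (Fl 0 n) (fun x => (∑ h ∈ Ioc 0 H, oz (y + x + h)) / H)) +
        (Ev el (Fl 0 n) (fun x => (∑ h ∈ Ioc 0 H, oz (y + x + h)) / H) - 1)| := by congr 1; ring
    _ ≤ _ := abs_add_le _ _
    _ ≤ ε := by linarith

end Pool.Agent.K4H3.CT
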