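import Mathlib
import Pool.Agent.K4H3.CT.C6
import Pool.Agent.W301.SS.Good

/-! The sieve bound for the random sums, uniformly in the shift. -/

set_option autoImplicit false

namespace Pool.Agent.K4H3.CT
open Finset Filter
open Pool.Agent.H807R2.Dav
open Pool.Agent.W301.SS (orth nu mv DD DD_pos nu_eq nu_nonneg sel)
open Pool.Agent.Helper112 (lsSep ls_sep_of_int)
open scoped goldenRatio

/-- the law of the sum of coins modulo `m` -/
lemma el_mod {m : ℕ} (hm : 1 ≤ m) (L : List ℤ) (y : ℤ) :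
    |Ev el L (fun x : ℤ => if (m : ℤ) ∣ y + x then (1 : ℝ) else 0) - 1 / m| ≤
      1 / m * ∑ r ∈ Ioo 0 m, GG L ((r : ℝ) / m) := by
  have hm0 : (0 : ℝ) < m := by exact_mod_cast hm
  have hmc : (m : ℂ) ≠ 0 := by exact_mod_cast hm0.ne'
  have key : (m : ℂ) * ((Ev el L (fun x : ℤ => if (m : ℤ) ∣ y + x then (1 : ℝ) else 0) : ℝ) : ℂ) =
      ∑ r ∈ range m, ee ((y : ℝ) * ((r : ℝ) / m)) * Ev el L (fun x : ℤ => ee ((x : ℝ) * ((r : ℝ) / m))) := by
    simp_rw [← Ev_mulC]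
    rw [← Ev_sum, Ev_ofReal, ← Ev_mulC]
    congr 1
    funext x
    have h := orth hm (y + x)
    have e : ∀ r ∈ range m, ee ((y : ℝ) * ((r : ℝ) / m)) * ee ((x : ℝ) * ((r : ℝ) / m)) =
        ee (((y + x : ℤ) : ℝ) * ((r : ℝ) / m)) := by
      intro r _
      rw [← ee_add]; congr 1; push_cast; ring
    rw [sum_congr rfl e, h]
    split_ifs <;> simp
  have hr : range m = insert 0 (Ioo 0 m) := by
    ext i; simp only [mem_range, mem_insert, mem_Ioo]; omega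
  rw [hr, sum_insert (by simp)] at key
  have e0 : ee ((y : ℝ) * (((0 : ℕ) : ℝ) / m)) * Ev el L (fun x : ℤ => ee ((x : ℝ) * (((0 : ℕ) : ℝ) / m))) = 1 := by
    simp only [Nat.cast_zero, zero_div, mul_zero, ee_zero, one_mul]
    exact Ev_const el_law L (1 : ℂ)
  rw [e0] at key
  have h1 : m * |Ev el L (fun x : ℤ => if (m : ℤ) ∣ y + x then (1 : ℝ) else 0) - 1 / m| =
      ‖(m : ℂ) * ((Ev el L (fun x : ℤ => if (m : ℤ) ∣ y + x then (1 : ℝ) else 0) : ℝ) : ℂ) - 1‖ := by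
    have e1 : (m : ℂ) * ((Ev el L (fun x : ℤ => if (m : ℤ) ∣ y + x then (1 : ℝ) else 0) : ℝ) : ℂ) - 1 =
        (m : ℂ) * ((Ev el L (fun x : ℤ => if (m : ℤ) ∣ y + x then (1 : ℝ) else 0) - 1 / m : ℝ) : ℂ) := by
      push_cast
      rw [mul_sub, mul_one_div_cancel hmc]
    rw [e1, norm_mul, Complex.norm_natCast, Complex.norm_real, Real.norm_eq_abs]
  have h2 : ‖(m : ℂ) * ((Ev el L (fun x : ℤ => if (m : ℤ) ∣ y + x then (1 : ℝ) else 0) : ℝ) : ℂ) - 1‖ ≤
      ∑ r ∈ Ioo 0 m, GG L ((r : ℝ) / m) := by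
    rw [key, add_sub_cancel_left]
    refine (norm_sum_le _ _).trans (sum_le_sum fun r _ => ?_)
    rw [norm_mul, norm_ee, one_mul, four_el]
  rw [← h1] at h2
  rw [one_div_mul_eq_div, le_div_iff₀ hm0]
  linarith

/-- the fractions in lowest terms -/
lemma lowest {m X : ℕ} (hm : 1 ≤ m) (hmX : m ≤ X) (g : ℝ → ℝ) (hg : ∀ x, 0 ≤ g x) :
    ∑ r ∈ Ioo 0 m, g ((r : ℝ) / m) ≤
      ∑ z ∈ (RX X).filter (fun z => 2 ≤ z.1), if z.1 ∣ m then g ((z.2 : ℝ) / z.1) else 0 := by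
  classical
  set ψ' : ℕ → ℕ × ℕ := fun r => (m / Nat.gcd r m, r / Nat.gcd r m) with hψ
  have hinj : Set.InjOn ψ' (Ioo 0 m : Finset ℕ) := by
    intro r hr s hs hrs
    rw [coe_Ioo, Set.mem_Ioo] at hr hs
    have g1 : 0 < Nat.gcd r m := Nat.gcd_pos_of_pos_right _ (by omega)
    have g2 : 0 < Nat.gcd s m := Nat.gcd_pos_of_pos_right _ (by omega)
    have h1 : m / Nat.gcd r m = m / Nat.gcd s m := congrArg Prod.fst hrs
    have h2 : r / Nat.gcd r m = s / Nat.gcd s m := congrArg Prod.snd hrs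
    have d1 := Nat.gcd_dvd_right r m
    have d2 := Nat.gcd_dvd_right s m
    have h3 : Nat.gcd r m = Nat.gcd s m := by
      have e1 := Nat.div_mul_cancel d1
      have e2 := Nat.div_mul_cancel d2
      rw [h1] at e1
      have hq : 0 < m / Nat.gcd s m := Nat.div_pos (Nat.le_of_dvd (by omega) d2) g2
      exact Nat.eq_of_mul_eq_mul_left hq (e1.trans e2.symm)
    have e3 := Nat.div_mul_cancel (Nat.gcd_dvd_left r m)
    have e4 := Nat.div_mul_cancel (Nat.gcd_dvd_left s m)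
    rw [← e3, ← e4, h2, h3]
  have e : ∑ r ∈ Ioo 0 m, g ((r : ℝ) / m) =
      ∑ z ∈ (Ioo 0 m).image ψ', if z.1 ∣ m then g ((z.2 : ℝ) / z.1) else 0 := by
    rw [sum_image hinj]
    apply sum_congr rfl; intro r hr
    rw [mem_Ioo] at hr
    have g1 : 0 < Nat.gcd r m := Nat.gcd_pos_of_pos_right _ (by omega)
    have hgr : (0 : ℝ) < Nat.gcd r m := by exact_mod_cast g1
    rw [if_pos (Nat.div_dvd_of_dvd (Nat.gcd_dvd_right r m))]
    simp only [hψ]
    rw [Nat.cast_div (Nat.gcd_dvd_left r m) hgr.ne', Nat.cast_div (Nat.gcd_dvd_right r m) hgr.ne']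
    congr 1
    field_simp
  rw [e]
  apply sum_le_sum_of_subset_of_nonneg
  · intro z hz
    rw [mem_image] at hz
    obtain ⟨r, hr, rfl⟩ := hz
    rw [mem_Ioo] at hr
    have g1 : 0 < Nat.gcd r m := Nat.gcd_pos_of_pos_right _ (by omega)
    have d1 := Nat.gcd_dvd_right r m
    have d0 := Nat.gcd_dvd_left r m
    have e1 := Nat.div_mul_cancel d1
    have e0 := Nat.div_mul_cancel d0
    have hlt : r / Nat.gcd r m < m / Nat.gcd r m := by
      by_contra hc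
      push Not at hc
      have := Nat.mul_le_mul_right (Nat.gcd r m) hc
      omega
    have hq2 : 2 ≤ m / Nat.gcd r m := by
      have : 0 < r / Nat.gcd r m := Nat.div_pos (Nat.le_of_dvd hr.1 d0) g1
      omega
    rw [mem_filter, mem_RX]
    refine ⟨⟨by simp only [hψ]; omega, ?_, hlt, ?_⟩, hq2⟩
    · exact (Nat.div_le_self _ _).trans hmX
    · exact Nat.coprime_div_gcd_div_gcd g1
  · intro z _ _
    split_ifs
    · exact hg _
    · exact le_rfl

/-- the sum of `1 / [d, e]` over the multiples of `q` -/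
noncomputable def kap (D q : ℕ) : ℝ := ∑ x ∈ DD D, if q ∣ Nat.lcm x.1 x.2 then 1 / (Nat.lcm x.1 x.2 : ℝ) else 0

lemma kap_nonneg (D q : ℕ) : 0 ≤ kap D q := sum_nonneg fun x _ => by split_ifs <;> positivity

lemma kap_le (D q : ℕ) (hD : 1 ≤ D) (hq : 1 ≤ q) :
    kap D q ≤ (1 + 2 * Real.log D) ^ 9 / √(q : ℝ) := by
  classical
  have hlogD : 0 ≤ Real.log D := Real.log_natCast_nonneg D
  have hq0 : (0 : ℝ) < q := by exact_mod_cast hq
  set Y := D ^ 2 with hY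
  have hlogY : Real.log Y = 2 * Real.log D := by rw [hY]; push_cast; rw [Real.log_pow]; norm_num
  have h1 : kap D q ≤ ∑ m ∈ (Icc 1 Y).filter (fun m => q ∣ m), ((m.divisors.card : ℝ) ^ 2) / m := by
    unfold kap
    set f : ℕ × ℕ → ℕ := fun x => Nat.lcm x.1 x.2 with hf
    have hmaps : ∀ x ∈ DD D, f x ∈ Icc 1 Y := by
      intro x hx
      have p1 := DD_pos hx
      unfold DD at hx
      rw [mem_product, mem_Icc, mem_Icc] at hx
      rw [mem_Icc]
      refine ⟨p1, ?_⟩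
      calc f x ≤ x.1 * x.2 := Nat.le_of_dvd (Nat.mul_pos (by omega) (by omega)) (Nat.lcm_dvd_mul _ _)
        _ ≤ D * D := Nat.mul_le_mul (by omega) (by omega)
        _ = Y := by rw [hY]; ring
    rw [← sum_fiberwise_of_maps_to hmaps, sum_filter]
    apply sum_le_sum; intro m hm
    rw [mem_Icc] at hm
    split_ifs with hqm
    · have e1 : ∑ x ∈ (DD D).filter (fun x => f x = m), (if q ∣ Nat.lcm x.1 x.2 then 1 / (Nat.lcm x.1 x.2 : ℝ) else 0) =
          (((DD D).filter (fun x => f x = m)).card : ℝ) / m := by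
        rw [sum_congr rfl (fun x hx => by
          rw [show Nat.lcm x.1 x.2 = m from (mem_filter.1 hx).2, if_pos hqm])]
        rw [sum_const, nsmul_eq_mul]; ring
      rw [e1]
      apply div_le_div_of_nonneg_right _ (Nat.cast_nonneg m)
      have e2 : (DD D).filter (fun x => f x = m) ⊆ m.divisors ×ˢ m.divisors := by
        intro x hx
        rw [mem_filter] at hx
        have hm0 : m ≠ 0 := by omega
        have hx2 : Nat.lcm x.1 x.2 = m := hx.2
        rw [mem_product, Nat.mem_divisors, Nat.mem_divisors]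
        exact ⟨⟨by rw [← hx2]; exact Nat.dvd_lcm_left _ _, hm0⟩, ⟨by rw [← hx2]; exact Nat.dvd_lcm_right _ _, hm0⟩⟩
      have e3 := card_le_card e2
      rw [card_product] at e3
      calc (((DD D).filter (fun x => f x = m)).card : ℝ) ≤ ((m.divisors.card * m.divisors.card : ℕ) : ℝ) := by
            exact_mod_cast e3
        _ = _ := by push_cast; ring
    · apply le_of_eq
      apply sum_eq_zero
      intro x hx
      rw [show Nat.lcm x.1 x.2 = m from (mem_filter.1 hx).2, if_neg hqm]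
  refine h1.trans ?_
  have h2 : ∑ m ∈ (Icc 1 Y).filter (fun m => q ∣ m), ((m.divisors.card : ℝ) ^ 2) / m =
      ∑ m ∈ (Icc 1 Y).filter (fun m => q ∣ m), √(1 / (m : ℝ)) * ((m.divisors.card : ℝ) ^ 2 * √(1 / (m : ℝ))) := by
    apply sum_congr rfl; intro m _
    have := Real.mul_self_sqrt (show (0 : ℝ) ≤ 1 / m by positivity)
    calc ((m.divisors.card : ℝ) ^ 2) / m = (m.divisors.card : ℝ) ^ 2 * (1 / m) := by ring
      _ = (m.divisors.card : ℝ) ^ 2 * (√(1 / (m : ℝ)) * √(1 / (m : ℝ))) := by rw [this]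
      _ = _ := by ring
  rw [h2]
  refine (Real.sum_mul_le_sqrt_mul_sqrt _ _ _).trans ?_
  have h3 : ∑ m ∈ (Icc 1 Y).filter (fun m => q ∣ m), √(1 / (m : ℝ)) ^ 2 ≤ (1 + 2 * Real.log D) / q := by
    have a1 : ∀ m ∈ (Icc 1 Y).filter (fun m => q ∣ m), √(1 / (m : ℝ)) ^ 2 = 1 / (m : ℝ) := fun m _ =>
      Real.sq_sqrt (by positivity)
    rw [sum_congr rfl a1]
    have a2 : (Icc 1 Y).filter (fun m => q ∣ m) ⊆ (Icc 1 Y).image (fun t => q * t) := by
      intro m hm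
      rw [mem_filter, mem_Icc] at hm
      obtain ⟨⟨h4, h5⟩, t, rfl⟩ := hm
      rw [mem_image]
      refine ⟨t, ?_, rfl⟩
      rw [mem_Icc]
      constructor
      · by_contra hc
        have : t = 0 := by omega
        rw [this] at h4; omega
      · exact le_trans (Nat.le_mul_of_pos_left t hq) h5
    refine (sum_le_sum_of_subset_of_nonneg a2 fun m _ _ => by positivity).trans ?_
    rw [sum_image (fun a _ b _ hab => Nat.eq_of_mul_eq_mul_left hq hab)]
    have a3 : ∑ t ∈ Icc 1 Y, 1 / ((q * t : ℕ) : ℝ) = (∑ t ∈ Icc 1 Y, 1 / (t : ℝ)) / q := by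
      rw [sum_div]
      apply sum_congr rfl; intro t _
      push_cast
      rw [div_div, mul_comm]
    rw [a3, ← hlogY]
    apply div_le_div_of_nonneg_right _ hq0.le
    exact _root_.W37.RK.harm_le Y
  have h4 : ∑ m ∈ (Icc 1 Y).filter (fun m => q ∣ m), ((m.divisors.card : ℝ) ^ 2 * √(1 / (m : ℝ))) ^ 2 ≤
      (1 + 2 * Real.log D) ^ 16 := by
    have a1 : ∀ m ∈ (Icc 1 Y).filter (fun m => q ∣ m), ((m.divisors.card : ℝ) ^ 2 * √(1 / (m : ℝ))) ^ 2 =
        (m.divisors.card : ℝ) ^ 4 / m := fun m _ => by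
      rw [mul_pow, Real.sq_sqrt (by positivity)]; ring
    rw [sum_congr rfl a1]
    refine (sum_le_sum_of_subset_of_nonneg (filter_subset _ _) fun m _ _ =>
      div_nonneg (pow_nonneg (Nat.cast_nonneg _) _) (Nat.cast_nonneg _)).trans ?_
    have := _root_.W37.RK.sum_card_pow_div 4 Y
    rw [hlogY] at this
    exact this
  have hL1 : 1 ≤ 1 + 2 * Real.log D := by linarith
  calc √(∑ m ∈ (Icc 1 Y).filter (fun m => q ∣ m), √(1 / (m : ℝ)) ^ 2) *
        √(∑ m ∈ (Icc 1 Y).filter (fun m => q ∣ m), ((m.divisors.card : ℝ) ^ 2 * √(1 / (m : ℝ))) ^ 2) ≤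
      √((1 + 2 * Real.log D) / q) * √((1 + 2 * Real.log D) ^ 16) :=
        mul_le_mul (Real.sqrt_le_sqrt h3) (Real.sqrt_le_sqrt h4) (Real.sqrt_nonneg _) (Real.sqrt_nonneg _)
    _ = √(1 + 2 * Real.log D) / √(q : ℝ) * (1 + 2 * Real.log D) ^ 8 := by
        rw [Real.sqrt_div (by linarith)]
        congr 1
        rw [show (1 + 2 * Real.log D) ^ 16 = ((1 + 2 * Real.log D) ^ 8) ^ 2 by ring,
          Real.sqrt_sq (by positivity)]
    _ ≤ (1 + 2 * Real.log D) / √(q : ℝ) * (1 + 2 * Real.log D) ^ 8 := by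
        have : √(1 + 2 * Real.log D) ≤ 1 + 2 * Real.log D := by
          rw [Real.sqrt_le_left (by linarith)]
          nlinarith
        gcongr
    _ = _ := by ring

/-- the large sieve for the Farey fractions -/
lemma farey_low (s : ℕ) (hs : 1 ≤ s) :
    ∑ z ∈ RX (Nat.fib s), GG (Fl 0 (2 * s)) ((z.2 : ℝ) / z.1) ≤ 36 * (ρ ^ 2) ^ s := by
  set X := Nat.fib s with hX
  have hX1 : 1 ≤ X := Nat.fib_pos.2 hs
  have h1 := sieve_low (RX X) (fun z => (z.2 : ℝ) / z.1) (X ^ 2) (2 * s) (Nat.one_le_pow _ _ hX1)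
    (by
      intro r hr t ht hrt
      rw [mem_RX] at hr ht
      exact ls_sep_of_int X r.1 t.1 hr.1 ht.1 hr.2.1 ht.2.1 r.2 t.2 hr.2.2.1 ht.2.2.1 hr.2.2.2
        ht.2.2.2 (by rintro ⟨a, b⟩; exact hrt (Prod.ext a b)))
  refine h1.trans ?_
  have h3 : (Nat.fib (2 * s + 2) : ℝ) ≤ 2 * φ ^ (2 * s) := by
    have := fib_succ_le_phi (2 * s + 1)
    rw [pow_succ] at this
    have h4 := Real.goldenRatio_lt_two
    have h5 : (0 : ℝ) < φ ^ (2 * s) := pow_pos Real.goldenRatio_pos _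
    nlinarith
  have h4 : (X : ℝ) ^ 2 ≤ φ ^ (2 * s) := by
    have := fib_le_phi s
    rw [mul_comm, pow_mul]; gcongr
  have h5 := (collisions (2 * s)).1
  have h6 := PR_nonneg (2 * s) 0
  have h7 : (0 : ℝ) < φ ^ (2 * s) := pow_pos Real.goldenRatio_pos _
  calc 6 * ((Nat.fib (2 * s + 2) : ℝ) + ((X ^ 2 : ℕ) : ℝ)) * PR (2 * s) 0 ≤
        6 * (2 * φ ^ (2 * s) + φ ^ (2 * s)) * (2 * (5 / 8 : ℝ) ^ (2 * s)) := by
          push_cast
          gcongr
    _ = 36 * (φ ^ (2 * s) * (5 / 8 : ℝ) ^ (2 * s)) := by ring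
    _ = _ := by rw [← mul_pow, show φ * (5 / 8 : ℝ) = ρ from rfl, ← pow_mul]

lemma sqrt_fib (t : ℕ) (ht : 1 ≤ t) : (1.264 : ℝ) ^ t / 2 ≤ √(Nat.fib t : ℝ) := by
  apply Real.le_sqrt_of_sq_le
  have h2 := fib_ge t ht
  have h3 : ((1.264 : ℝ) ^ t / 2) ^ 2 = (1.264 ^ 2) ^ t / 4 := by
    rw [← pow_mul, mul_comm 2 t, pow_mul]; ring
  have h4 : ((1.264 : ℝ) ^ 2) ^ t ≤ φ ^ t := by
    apply pow_le_pow_left₀ (by norm_num)
    have := phi_bounds.1
    norm_num at this ⊢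
    linarith
  rw [h3]; linarith

/-- the total error of the sieve -/
noncomputable def SE (w D X : ℕ) : ℝ := ∑ z ∈ (RX X).filter (fun z => 2 ≤ z.1),
  GG (Fl 0 w) ((z.2 : ℝ) / z.1) * kap D z.1

lemma SE_step {w D t : ℕ} (ht : 1 ≤ t) (htw : 2 * (t + 1) ≤ w) (hD : 1 ≤ D) :
    SE w D (Nat.fib (t + 1)) ≤ SE w D (Nat.fib t) + (1 + 2 * Real.log D) ^ 9 * (74 * 0.83 ^ t) := by
  have hlogD : 0 ≤ Real.log D := Real.log_natCast_nonneg D
  set X := Nat.fib t with hX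
  set X' := Nat.fib (t + 1) with hX'
  have hXX : X ≤ X' := Nat.fib_le_fib_succ
  have hX1 : 1 ≤ X := Nat.fib_pos.2 ht
  set P : ℝ := (1 + 2 * Real.log D) ^ 9 with hP
  have hP0 : 0 ≤ P := by positivity
  have hsub : (RX X).filter (fun z => 2 ≤ z.1) ⊆ (RX X').filter (fun z => 2 ≤ z.1) := by
    intro z hz
    rw [mem_filter, mem_RX] at hz ⊢
    obtain ⟨⟨a, b, c, d⟩, e⟩ := hz
    exact ⟨⟨a, b.trans hXX, c, d⟩, e⟩
  unfold SE
  rw [← sum_sdiff hsub, add_comm]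
  gcongr
  have h1 : ∀ z ∈ (RX X').filter (fun z => 2 ≤ z.1) \ (RX X).filter (fun z => 2 ≤ z.1),
      GG (Fl 0 w) ((z.2 : ℝ) / z.1) * kap D z.1 ≤
        GG (Fl 0 (2 * (t + 1))) ((z.2 : ℝ) / z.1) * (P * (2 / 1.264 ^ t)) := by
    intro z hz
    rw [Finset.mem_sdiff, mem_filter, mem_filter, mem_RX, mem_RX] at hz
    obtain ⟨⟨⟨a, b, c, d⟩, e⟩, f⟩ := hz
    have hz1 : X < z.1 := by
      by_contra hc
      exact f ⟨⟨a, by omega, c, d⟩, e⟩
    have h2 := kap_le D z.1 hD a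
    have h3 : P / √(z.1 : ℝ) ≤ P * (2 / 1.264 ^ t) := by
      have h4 : (1.264 : ℝ) ^ t / 2 ≤ √(z.1 : ℝ) := by
        refine (sqrt_fib t ht).trans ?_
        apply Real.sqrt_le_sqrt
        exact_mod_cast hz1.le
      have hp : (0 : ℝ) < 1.264 ^ t / 2 := by positivity
      rw [div_eq_mul_inv]
      apply mul_le_mul_of_nonneg_left _ hP0
      rw [← one_div, div_le_div_iff₀ (by linarith) (by positivity)]
      linarith
    have h5 : GG (Fl 0 w) ((z.2 : ℝ) / z.1) ≤ GG (Fl 0 (2 * (t + 1))) ((z.2 : ℝ) / z.1) := by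
      obtain ⟨r, rfl⟩ : ∃ r, w = 2 * (t + 1) + r := ⟨w - 2 * (t + 1), by omega⟩
      rw [Fl_add, GG_append]
      exact mul_le_of_le_one_left (GG_nonneg _ _) (GG_le_one _ _)
    have h6 := kap_nonneg D z.1
    have h7 := GG_nonneg (Fl 0 (2 * (t + 1))) ((z.2 : ℝ) / z.1)
    exact mul_le_mul h5 (h2.trans h3) h6 h7
  refine (sum_le_sum h1).trans ?_
  rw [← sum_mul]
  have h2 : ∑ z ∈ (RX X').filter (fun z => 2 ≤ z.1) \ (RX X).filter (fun z => 2 ≤ z.1),
      GG (Fl 0 (2 * (t + 1))) ((z.2 : ℝ) / z.1) ≤ 36 * (ρ ^ 2) ^ (t + 1) := by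
    refine le_trans ?_ (farey_low (t + 1) (by omega))
    exact sum_le_sum_of_subset_of_nonneg (sdiff_subset.trans (filter_subset _ _))
      fun z _ _ => GG_nonneg _ _
  have h3 : (ρ ^ 2) ^ (t + 1) ≤ 1.0252 ^ (t + 1) := by
    have h4 := rho_bounds
    have h5 : 0 ≤ ρ := by linarith [h4.1]
    apply pow_le_pow_left₀ (by positivity)
    calc ρ ^ 2 ≤ 1.0125 ^ 2 := by gcongr; exact h4.2
      _ ≤ 1.0252 := by norm_num
  calc (∑ z ∈ (RX X').filter (fun z => 2 ≤ z.1) \ (RX X).filter (fun z => 2 ≤ z.1),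
      GG (Fl 0 (2 * (t + 1))) ((z.2 : ℝ) / z.1)) * (P * (2 / 1.264 ^ t)) ≤
      (36 * 1.0252 ^ (t + 1)) * (P * (2 / 1.264 ^ t)) := by
        gcongr
        linarith
    _ = P * (72 * 1.0252 * (1.0252 / 1.264) ^ t) := by rw [div_pow, pow_succ]; ring
    _ ≤ P * (74 * 0.83 ^ t) := by
        gcongr <;> norm_num

lemma SE_le {w D t₁ : ℕ} (ht : 1 ≤ t₁) (hD : 1 ≤ D) (T : ℕ) (hT : t₁ ≤ T) (hTw : 2 * T ≤ w) :
    SE w D (Nat.fib T) ≤ SE w D (Nat.fib t₁) + (1 + 2 * Real.log D) ^ 9 * (436 * 0.83 ^ t₁) := by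
  have hlogD : 0 ≤ Real.log D := Real.log_natCast_nonneg D
  have key : SE w D (Nat.fib T) ≤ SE w D (Nat.fib t₁) +
      (1 + 2 * Real.log D) ^ 9 * (74 * ∑ t ∈ Ico t₁ T, (0.83 : ℝ) ^ t) := by
    induction T, hT using Nat.le_induction with
    | base => simp
    | succ T hT ih =>
      have h1 := ih (by omega)
      have h2 := SE_step (w := w) (D := D) (t := T) (by omega) hTw hD
      rw [sum_Ico_succ_top hT]
      rw [mul_add 74, mul_add ((1 + 2 * Real.log D) ^ 9)]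
      linarith
  refine key.trans ?_
  have h2 : ∑ t ∈ Ico t₁ T, (0.83 : ℝ) ^ t ≤ 0.83 ^ t₁ / (1 - 0.83) :=
    geom_sum_Ico_le_of_lt_one (by norm_num) (by norm_num)
  have h3 : (74 : ℝ) * ∑ t ∈ Ico t₁ T, (0.83 : ℝ) ^ t ≤ 436 * 0.83 ^ t₁ := by
    have : (74 : ℝ) * (0.83 ^ t₁ / (1 - 0.83)) ≤ 436 * 0.83 ^ t₁ := by
      rw [← mul_div_assoc, div_le_iff₀ (by norm_num)]
      have : (0 : ℝ) < 0.83 ^ t₁ := by positivity
      linarith
    linarith
  gcongr

lemma card_RX (X : ℕ) : ((RX X).card : ℝ) ≤ (X : ℝ) ^ 2 := by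
  have h1 : (RX X).card ≤ (Icc 1 X ×ˢ range X).card := card_le_card (filter_subset _ _)
  rw [card_product, Nat.card_Icc, card_range] at h1
  have : (RX X).card ≤ X ^ 2 := by rw [sq]; simpa using h1
  exact_mod_cast this

lemma SE_base {w D t₁ i r : ℕ} (ht : 1 ≤ t₁) (hD : 1 ≤ D) (hw : w = i * (2 * t₁ + 2) + r) :
    SE w D (Nat.fib t₁) ≤ (Nat.fib t₁ : ℝ) ^ 2 * ((7 / 8 : ℝ) ^ i * (1 + 2 * Real.log D) ^ 9) := by
  have hlogD : 0 ≤ Real.log D := Real.log_natCast_nonneg D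
  unfold SE
  have h1 : ∀ z ∈ (RX (Nat.fib t₁)).filter (fun z => 2 ≤ z.1),
      GG (Fl 0 w) ((z.2 : ℝ) / z.1) * kap D z.1 ≤ (7 / 8 : ℝ) ^ i * (1 + 2 * Real.log D) ^ 9 := by
    intro z hz
    rw [mem_filter, mem_RX] at hz
    obtain ⟨⟨a, b, c, d⟩, e⟩ := hz
    have h2 := decay t₁ z.1 z.2 i r e (by omega) d 0 (by simp)
    rw [add_zero, ← hw] at h2
    have h3 := kap_le D z.1 hD a
    have h4 : (1 + 2 * Real.log D) ^ 9 / √(z.1 : ℝ) ≤ (1 + 2 * Real.log D) ^ 9 := by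
      apply div_le_self (by positivity)
      rw [Real.one_le_sqrt]
      exact_mod_cast a
    exact mul_le_mul h2 (h3.trans h4) (kap_nonneg _ _) (by positivity)
  refine (sum_le_sum h1).trans ?_
  rw [sum_const, nsmul_eq_mul]
  apply mul_le_mul_of_nonneg_right _ (by positivity)
  refine le_trans ?_ (card_RX _)
  exact_mod_cast card_le_card (filter_subset _ _)

end Pool.Agent.K4H3.CT
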