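import Mathlib
import Pool.Agent.K4H3.CT.C8

/-! The sieve bound for the random sums, uniformly in the shift: conclusion. -/

set_option autoImplicit false

namespace Pool.Agent.K4H3.CT
open Finset
open Pool.Agent.H807R2.Dav
open Pool.Agent.W301.SS (nu mv DD DD_pos nu_eq nu_nonneg sel)
open scoped goldenRatio

/-- the probability of a point for the sum of coins -/
lemma el_point (w : ℕ) (y z : ℤ) :
    Ev el (Fl 0 w) (fun x : ℤ => if y + x = z then (1 : ℝ) else 0) ≤ 2 * (5 / 8 : ℝ) ^ w := by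
  set m : ℕ := 2 * Nat.fib (w + 2) + (z - y).natAbs + 1 with hm
  have hm1 : 1 ≤ m := by omega
  have hm0 : (0 : ℝ) < m := by exact_mod_cast hm1
  have h1 := el_mod hm1 (Fl 0 w) (y - z)
  have h2 := mod_zero hm1 (Fl 0 w)
  have hr : range m = insert 0 (Ioo 0 m) := by
    ext i; simp only [mem_range, mem_insert, mem_Ioo]; omega
  have hG0 : GG (Fl 0 w) (((0 : ℕ) : ℝ) / m) = 1 := by
    have h := four_el (Fl 0 w) (((0 : ℕ) : ℝ) / m)
    simp only [Nat.cast_zero, zero_div, mul_zero, ee_zero] at h ⊢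
    rw [← h]
    have : Ev el (Fl 0 w) (fun _ : ℤ => (1 : ℂ)) = 1 := Ev_const el_law _ _
    rw [this, norm_one]
  rw [hr, sum_insert (by simp), hG0] at h2
  have e1 : Ev el (Fl 0 w) (fun x : ℤ => if y + x = z then (1 : ℝ) else 0) =
      Ev el (Fl 0 w) (fun x : ℤ => if (m : ℤ) ∣ y - z + x then (1 : ℝ) else 0) := by
    apply Ev_congr_R
    intro x hx
    have hx1 := Rch_el 0 w x hx
    have h3 : Nat.fib (0 + 2) = 1 := rfl
    rw [h3, zero_add] at hx1
    push_cast at hx1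
    congr 1
    rw [eq_iff_iff]
    constructor
    · intro h; rw [show y - z + x = 0 by omega]; exact dvd_zero _
    · intro h
      have h4 := Int.eq_zero_of_abs_lt_dvd h (by
        rw [abs_lt]; omega)
      omega
  have e2 : Ev dl (Fl 0 w) (fun x : ℤ => if (m : ℤ) ∣ x then (1 : ℝ) else 0) = PR w 0 := by
    apply Ev_congr_R
    intro x hx
    have h4 := Rch_dl 0 w x hx
    have h5 : Nat.fib (0 + 2) = 1 := rfl
    rw [h5, zero_add] at h4
    push_cast at h4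
    congr 1
    rw [eq_iff_iff]
    constructor
    · intro h6
      exact Int.eq_zero_of_abs_lt_dvd h6 (by omega)
    · rintro rfl; simp
  rw [e2] at h2
  rw [e1]
  have h3 := (abs_le.1 h1).2
  have h4 := (collisions w).1
  rw [h2] at h4
  have e3 : (1 + ∑ x ∈ Ioo 0 m, GG (Fl 0 w) ((x : ℝ) / m)) / m =
      1 / m + 1 / m * ∑ x ∈ Ioo 0 m, GG (Fl 0 w) ((x : ℝ) / m) := by ring
  rw [e3] at h4
  linarith

/-- the sieve -/
lemma sieve_main {w y D X : ℕ} {l : ℕ → ℝ} (hl : ∀ d, |l d| ≤ 1) (hD : 1 ≤ D) (hX : D ^ 2 ≤ X) :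
    Ev el (Fl 0 w) (fun x : ℤ => nu l D ((y : ℤ) + x).toNat) ≤ mv l D + SE w D X := by
  have e1 : Ev el (Fl 0 w) (fun x : ℤ => nu l D ((y : ℤ) + x).toNat) =
      ∑ v ∈ DD D, l v.1 * l v.2 * Ev el (Fl 0 w) (fun x : ℤ =>
        if ((Nat.lcm v.1 v.2 : ℕ) : ℤ) ∣ (y : ℤ) + x then (1 : ℝ) else 0) := by
    simp_rw [nu_eq]
    rw [Ev_sum]
    apply sum_congr rfl; intro v _
    rw [← Ev_mulR]
    apply Ev_congr_R
    intro x hx
    have hx1 := Rch_el 0 w x hx
    congr 2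
    rw [eq_iff_iff]
    have h2 : (((y : ℤ) + x).toNat : ℤ) = y + x := Int.toNat_of_nonneg (by omega)
    conv_rhs => rw [← h2]
    exact Int.natCast_dvd_natCast.symm
  rw [e1]
  unfold mv SE
  have h1 : ∀ v ∈ DD D, l v.1 * l v.2 * Ev el (Fl 0 w) (fun x : ℤ =>
      if ((Nat.lcm v.1 v.2 : ℕ) : ℤ) ∣ (y : ℤ) + x then (1 : ℝ) else 0) ≤
      l v.1 * l v.2 / (Nat.lcm v.1 v.2 : ℝ) + ∑ z ∈ (RX X).filter (fun z => 2 ≤ z.1),
        GG (Fl 0 w) ((z.2 : ℝ) / z.1) *
          (if z.1 ∣ Nat.lcm v.1 v.2 then 1 / (Nat.lcm v.1 v.2 : ℝ) else 0) := by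
    intro v hv
    have hp := DD_pos hv
    set m := Nat.lcm v.1 v.2 with hm
    have hm0 : (0 : ℝ) < m := by exact_mod_cast hp
    have hmX : m ≤ X := by
      refine le_trans ?_ hX
      unfold DD at hv
      rw [mem_product, mem_Icc, mem_Icc] at hv
      calc m ≤ v.1 * v.2 := Nat.le_of_dvd (Nat.mul_pos (by omega) (by omega)) (Nat.lcm_dvd_mul _ _)
        _ ≤ D * D := Nat.mul_le_mul (by omega) (by omega)
        _ = D ^ 2 := by ring
    set p := Ev el (Fl 0 w) (fun x : ℤ => if (m : ℤ) ∣ (y : ℤ) + x then (1 : ℝ) else 0) with hpd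
    have h2 := el_mod hp (Fl 0 w) y
    rw [← hpd] at h2
    have h3 := lowest hp hmX (GG (Fl 0 w)) (fun x => GG_nonneg _ _)
    have h4 : |l v.1 * l v.2| ≤ 1 := by
      rw [abs_mul]; exact mul_le_one₀ (hl _) (abs_nonneg _) (hl _)
    have h5 : l v.1 * l v.2 * p = l v.1 * l v.2 / m + l v.1 * l v.2 * (p - 1 / m) := by ring
    rw [h5]
    have h6 : l v.1 * l v.2 * (p - 1 / m) ≤ 1 / m * ∑ r ∈ Ioo 0 m, GG (Fl 0 w) ((r : ℝ) / m) := by
      calc l v.1 * l v.2 * (p - 1 / m) ≤ |l v.1 * l v.2 * (p - 1 / m)| := le_abs_self _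
        _ = |l v.1 * l v.2| * |p - 1 / m| := abs_mul _ _
        _ ≤ 1 * (1 / m * ∑ r ∈ Ioo 0 m, GG (Fl 0 w) ((r : ℝ) / m)) := by
            gcongr
        _ = _ := one_mul _
    have h7 : 1 / (m : ℝ) * ∑ z ∈ (RX X).filter (fun z => 2 ≤ z.1),
        (if z.1 ∣ m then GG (Fl 0 w) ((z.2 : ℝ) / z.1) else 0) =
        ∑ z ∈ (RX X).filter (fun z => 2 ≤ z.1), GG (Fl 0 w) ((z.2 : ℝ) / z.1) *
          (if z.1 ∣ m then 1 / (m : ℝ) else 0) := by
      rw [mul_sum]
      apply sum_congr rfl; intro z _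
      split_ifs
      · ring
      · ring
    have h8 : 1 / (m : ℝ) * ∑ r ∈ Ioo 0 m, GG (Fl 0 w) ((r : ℝ) / m) ≤
        1 / (m : ℝ) * ∑ z ∈ (RX X).filter (fun z => 2 ≤ z.1),
        (if z.1 ∣ m then GG (Fl 0 w) ((z.2 : ℝ) / z.1) else 0) :=
      mul_le_mul_of_nonneg_left h3 (by positivity)
    linarith
  refine (sum_le_sum h1).trans ?_
  rw [sum_add_distrib, sum_comm]
  gcongr with z _
  unfold kap
  rw [mul_sum]

lemma nu_prime {l : ℕ → ℝ} (h1 : l 1 = 1) {D p : ℕ} (hD : 1 ≤ D) (hp : p.Prime) (hpD : D < p) :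
    nu l D p = 1 := by
  unfold nu
  rw [sum_eq_single 1]
  · simp [h1]
  · intro d hd hd1
    rw [mem_Icc] at hd
    rw [if_neg]
    intro h
    rcases (Nat.dvd_prime hp).1 h with h2 | h2
    · exact hd1 h2
    · omega
  · intro h; exact absurd (mem_Icc.2 ⟨le_rfl, hD⟩) h

lemma prime_le {w y D X : ℕ} {l : ℕ → ℝ} (h1 : l 1 = 1) (hl : ∀ d, |l d| ≤ 1) (hD : 1 ≤ D)
    (hX : D ^ 2 ≤ X) :
    Ev el (Fl 0 w) (fun x : ℤ => if (((y : ℤ) + x).toNat).Prime then (1 : ℝ) else 0) ≤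
      (D + 1) * (2 * (5 / 8 : ℝ) ^ w) + (mv l D + SE w D X) := by
  have h2 : Ev el (Fl 0 w) (fun x : ℤ => if (((y : ℤ) + x).toNat).Prime then (1 : ℝ) else 0) ≤
      Ev el (Fl 0 w) (fun x : ℤ => (∑ v ∈ range (D + 1), if (y : ℤ) + x = v then (1 : ℝ) else 0) +
        nu l D ((y : ℤ) + x).toNat) := by
    apply Ev_mono_R el_law.1
    intro x hx
    have hx1 := Rch_el 0 w x hx
    have h3 : 0 ≤ ∑ v ∈ range (D + 1), if (y : ℤ) + x = v then (1 : ℝ) else 0 :=
      sum_nonneg fun v _ => ind_nonneg _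
    have h4 := nu_nonneg l D ((y : ℤ) + x).toNat
    split_ifs with hp
    · rcases Nat.lt_or_ge D ((y : ℤ) + x).toNat with h5 | h5
      · rw [nu_prime h1 hD hp h5]; linarith
      · have h6 : (1 : ℝ) ≤ ∑ v ∈ range (D + 1), if (y : ℤ) + x = v then (1 : ℝ) else 0 := by
          have h7 : (y : ℤ) + x = (((y : ℤ) + x).toNat : ℤ) := (Int.toNat_of_nonneg (by omega)).symm
          calc (1 : ℝ) = if (y : ℤ) + x = (((y : ℤ) + x).toNat : ℤ) then (1 : ℝ) else 0 := by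
                rw [if_pos h7]
            _ ≤ _ := single_le_sum (f := fun v : ℕ => if (y : ℤ) + x = v then (1 : ℝ) else 0)
                (fun v _ => ind_nonneg _) (mem_range.2 (by omega))
        linarith
    · linarith
  refine h2.trans ?_
  rw [Ev_add, Ev_sum]
  apply add_le_add
  · have h3 : ∀ v ∈ range (D + 1), Ev el (Fl 0 w) (fun x : ℤ => if (y : ℤ) + x = ((v : ℕ) : ℤ) then (1 : ℝ) else 0) ≤
        2 * (5 / 8 : ℝ) ^ w := fun v _ => el_point w y v
    refine (sum_le_sum h3).trans ?_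
    rw [sum_const, card_range, nsmul_eq_mul]; push_cast; exact le_rfl
  · exact sieve_main hl hD hX

lemma ev_big2 : ∃ w₀ : ℕ, ∀ n : ℕ, w₀ ≤ n →
    900 * (Nat.log 2 n + 1) * (120 * Nat.log 2 n + 2) ≤ n ∧ 120 * Nat.log 2 n ≤ n ∧ 1 ≤ Nat.log 2 n := by
  have h1 := tendsto_pow_const_div_const_pow_of_one_lt 3 (r := (2 : ℝ)) (by norm_num)
  have h2 := h1.eventually (gt_mem_nhds (show (0 : ℝ) < 1 by norm_num))
  rw [Filter.eventually_atTop] at h2
  obtain ⟨B, hB⟩ := h2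
  obtain ⟨K, hK1, hK2⟩ : ∃ K, B ≤ K ∧ 300000 ≤ K := ⟨max B 300000, le_max_left _ _, le_max_right _ _⟩
  refine ⟨2 ^ K, fun n hn => ?_⟩
  have hlog := Nat.log_mono_right (b := 2) hn
  rw [Nat.log_pow (by norm_num)] at hlog
  set L := Nat.log 2 n with hL
  have hL3 : 300000 ≤ L := hK2.trans hlog
  have h3 := hB L (hK1.trans hlog)
  rw [div_lt_one (by positivity)] at h3
  have h4 : L ^ 3 < 2 ^ L := by exact_mod_cast h3
  have hn1 : n ≠ 0 := by
    intro h
    rw [h] at hL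
    rw [hL] at hL3
    simp at hL3
  have h5 : 2 ^ L ≤ n := Nat.pow_log_le_self 2 hn1
  clear hn hlog hK1 hK2 hB h1 h3
  have h6 : 900 * (L + 1) * (120 * L + 2) ≤ 300000 * L ^ 2 := by nlinarith
  have h7 : 300000 * L ^ 2 ≤ L ^ 3 := by
    calc 300000 * L ^ 2 ≤ L * L ^ 2 := Nat.mul_le_mul_right _ hL3
      _ = L ^ 3 := by ring
  have h8 : 120 * L ≤ L ^ 3 := by
    have : 120 * L ≤ L ^ 2 * L := Nat.mul_le_mul_right _ (by nlinarith)
    calc 120 * L ≤ L ^ 2 * L := this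
      _ = L ^ 3 := by ring
  exact ⟨h6.trans (h7.trans (h4.le.trans h5)), h8.trans (h4.le.trans h5), le_trans (by norm_num) hL3⟩

/-- **The sieve bound**, uniformly in the shift. -/
theorem sieveB : ∃ C : ℝ, 0 < C ∧ ∀ w : ℕ, 1 ≤ w → ∀ y : ℕ,
    Ev el (Fl 0 w) (fun x : ℤ => if (((y : ℤ) + x).toNat).Prime then (1 : ℝ) else 0) ≤ C / w := by
  obtain ⟨w₀, hw₀⟩ := ev_big2
  set C' : ℝ := 512 + 512 * 436 * 65536 with hC'
  refine ⟨80 + 30 + C' + (w₀ + 40 : ℕ), by positivity, fun w hw y => ?_⟩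
  have hw0 : (0 : ℝ) < w := by exact_mod_cast hw
  have hwr : (1 : ℝ) ≤ w := by exact_mod_cast hw
  rcases Nat.lt_or_ge w (w₀ + 40) with hsm | hbg
  · -- small `w`
    have h1 : Ev el (Fl 0 w) (fun x : ℤ => if (((y : ℤ) + x).toNat).Prime then (1 : ℝ) else 0) ≤ 1 := by
      have := Ev_mono el_law.1 (Fl 0 w) (fun x : ℤ => if (((y : ℤ) + x).toNat).Prime then (1 : ℝ) else 0)
        (fun _ => (1 : ℝ)) (fun x => by split_ifs <;> norm_num)
      rwa [Ev_const el_law] at this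
    refine h1.trans ?_
    rw [le_div_iff₀ hw0]
    have h2 : (w : ℝ) ≤ ((w₀ + 40 : ℕ) : ℝ) := by exact_mod_cast hsm.le
    have h3 : 0 ≤ C' := by rw [hC']; norm_num
    linarith
  · obtain ⟨b1, b2, b3⟩ := hw₀ w (by omega)
    set L := Nat.log 2 w with hL
    have hn : 2 ^ L ≤ w := Nat.pow_log_le_self 2 (by omega)
    have hn2 : w < 2 ^ (L + 1) := Nat.lt_pow_succ_log_self (by norm_num) w
    set k : ℕ := w / 10 with hk
    set D : ℕ := 2 ^ k with hD
    set T : ℕ := w / 2 with hT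
    have hk4 : 4 ≤ k := by omega
    have hD3 : 3 ≤ D := by
      calc 3 ≤ 2 ^ 4 := by norm_num
        _ ≤ 2 ^ k := Nat.pow_le_pow_right (by norm_num) hk4
    obtain ⟨l, l1, l2, l3, l4, l5⟩ := sel D hD3
    have hX : D ^ 2 ≤ Nat.fib T := by
      have h1 := fib_ge T (by omega)
      have h2 : (4 : ℝ) * (D : ℝ) ^ 2 ≤ φ ^ T := by
        have h3 : (φ : ℝ) ^ (5 * k) ≤ φ ^ T := pow_le_pow_right₀ Real.one_lt_goldenRatio.le (by omega)
        refine le_trans ?_ h3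
        have h4 : (10 : ℝ) ^ k ≤ φ ^ (5 * k) := by
          rw [pow_mul]
          apply pow_le_pow_left₀ (by norm_num)
          calc (10 : ℝ) ≤ 1.6 ^ 5 := by norm_num
            _ ≤ φ ^ 5 := pow_le_pow_left₀ (by norm_num) phi_bounds.1.le 5
        refine le_trans ?_ h4
        obtain ⟨j, hj⟩ : ∃ j, k = j + 2 := ⟨k - 2, by omega⟩
        rw [hD]; push_cast
        rw [← pow_mul, mul_comm k 2, pow_mul, hj, pow_add, pow_add]
        have h5 : ((2 : ℝ) ^ 2) ^ j ≤ 10 ^ j := pow_le_pow_left₀ (by norm_num) (by norm_num) j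
        have h6 : (0 : ℝ) < 10 ^ j := by positivity
        norm_num at h5 ⊢
        linarith
      have h3 : ((D ^ 2 : ℕ) : ℝ) ≤ Nat.fib T := by push_cast; linarith
      exact_mod_cast h3
    have h1 := prime_le (w := w) (y := y) (D := D) (X := Nat.fib T) l1 l2 (by omega) hX
    refine h1.trans ?_
    -- the logarithm of `D`
    have hlogD : Real.log D = k * Real.log 2 := by rw [hD]; push_cast; rw [Real.log_pow]
    have hkr : (w : ℝ) / 20 ≤ k := by
      have : w ≤ 20 * k := by omega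
      have : (w : ℝ) ≤ 20 * k := by exact_mod_cast this
      linarith
    have hkr2 : (k : ℝ) ≤ w / 10 := by
      have : 10 * k ≤ w := by omega
      have : 10 * (k : ℝ) ≤ w := by exact_mod_cast this
      linarith
    have hk0 : (0 : ℝ) < k := by linarith
    have hl2 := Real.log_two_gt_d9
    have hl2' := Real.log_two_lt_d9
    have hlogD0 : 0 ≤ Real.log D := Real.log_natCast_nonneg D
    -- first term
    have t1 : ((D : ℝ) + 1) * (2 * (5 / 8 : ℝ) ^ w) ≤ 80 / w := by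
      have a1 : (5 / 8 : ℝ) ^ w ≤ (5 / 8) ^ (10 * k) := by
        apply pow_le_pow_of_le_one (by norm_num) (by norm_num); omega
      have a2 : (D : ℝ) * (5 / 8 : ℝ) ^ (10 * k) ≤ (1 / 2) ^ k := by
        rw [hD]; push_cast
        rw [pow_mul, ← mul_pow]
        apply pow_le_pow_left₀ (by norm_num); norm_num
      have a3 : ((1 : ℝ) / 2) ^ k ≤ 1 / k := by
        rw [div_pow, one_pow]
        apply div_le_div_of_nonneg_left zero_le_one hk0
        exact_mod_cast (Nat.lt_two_pow_self (n := k)).le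
      have a4 : (1 : ℝ) / k ≤ 20 / w := by
        rw [div_le_div_iff₀ hk0 hw0]; linarith
      have hDr : (1 : ℝ) ≤ D := by exact_mod_cast (by omega : 1 ≤ D)
      calc ((D : ℝ) + 1) * (2 * (5 / 8 : ℝ) ^ w) ≤ (D + D) * (2 * (5 / 8) ^ (10 * k)) := by gcongr
        _ = 4 * (D * (5 / 8 : ℝ) ^ (10 * k)) := by ring
        _ ≤ 4 * (20 / w) := by linarith
        _ = 80 / w := by ring
    -- main term
    have t2 : mv l D ≤ 30 / w := by
      refine l4.trans ?_
      rw [hlogD]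
      have a1 : (w : ℝ) / 30 ≤ k * Real.log 2 := by nlinarith
      calc 1 / ((k : ℝ) * Real.log 2) ≤ 1 / ((w : ℝ) / 30) := by
            apply div_le_div_of_nonneg_left zero_le_one (by positivity) a1
        _ = 30 / w := by field_simp
    -- the error
    have hP : (1 + 2 * Real.log D) ^ 9 ≤ 512 * (w : ℝ) ^ 9 := by
      have a1 : 1 + 2 * Real.log D ≤ 2 * w := by rw [hlogD]; nlinarith
      calc (1 + 2 * Real.log D) ^ 9 ≤ (2 * w) ^ 9 := by gcongr
        _ = _ := by rw [mul_pow]; norm_num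
    have t3 : SE w D (Nat.fib T) ≤ C' / w := by
      have hLT : 60 * L ≤ T := by omega
      have s1 := SE_le (w := w) (D := D) (t₁ := 60 * L) (by omega) (by omega) T hLT (by omega)
      set i : ℕ := 900 * (L + 1) with hi
      have hiw : i * (2 * (60 * L) + 2) ≤ w := by
        have e : i * (2 * (60 * L) + 2) = 900 * (L + 1) * (120 * L + 2) := by rw [hi]; ring
        rw [e]; exact b1
      have s2 := SE_base (w := w) (D := D) (t₁ := 60 * L) (i := i) (r := w - i * (2 * (60 * L) + 2))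
        (by omega) (by omega) (Nat.add_sub_cancel' hiw).symm
      have c1 : (0.83 : ℝ) ^ (60 * L) ≤ 65536 / (w : ℝ) ^ 16 := by
        have d1 : (0.83 : ℝ) ^ (60 * L) ≤ (1 / 2 ^ 16) ^ L := by
          rw [pow_mul]
          apply pow_le_pow_left₀ (by norm_num); norm_num
        have d2 : (w : ℝ) ≤ 2 * 2 ^ L := by
          have : (w : ℝ) ≤ 2 ^ (L + 1) := by exact_mod_cast hn2.le
          rw [pow_succ] at this; linarith
        rw [le_div_iff₀ (by positivity)]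
        calc (0.83 : ℝ) ^ (60 * L) * (w : ℝ) ^ 16 ≤ (1 / 2 ^ 16) ^ L * (2 * 2 ^ L) ^ 16 := by gcongr
          _ = 65536 * ((1 / 2 ^ 16) ^ L * (2 ^ 16) ^ L) := by
            rw [mul_pow, ← pow_mul 2 L 16, mul_comm L 16, pow_mul]; norm_num; ring
          _ = 65536 := by rw [← mul_pow]; norm_num
      have c2 : (Nat.fib (60 * L) : ℝ) ^ 2 ≤ (w : ℝ) ^ 120 := by
        have a1 : (Nat.fib (60 * L) : ℝ) ≤ φ ^ (60 * L) := fib_le_phi _
        have a2 : φ ^ (60 * L) ≤ 2 ^ (60 * L) :=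
          pow_le_pow_left₀ Real.goldenRatio_pos.le Real.goldenRatio_lt_two.le _
        have a3 : (2 : ℝ) ^ (60 * L) = (2 ^ L) ^ 60 := by rw [← pow_mul, mul_comm]
        have a4 : ((2 : ℝ) ^ L) ≤ w := by exact_mod_cast hn
        calc (Nat.fib (60 * L) : ℝ) ^ 2 ≤ ((2 ^ L) ^ 60) ^ 2 := by gcongr; linarith
          _ = (2 ^ L) ^ 120 := by rw [← pow_mul]
          _ ≤ _ := by gcongr
      have c3 : (7 / 8 : ℝ) ^ i * (w : ℝ) ^ 150 ≤ 1 := by
        have d1 : (7 / 8 : ℝ) ^ i ≤ (1 / 2) ^ (150 * (L + 1)) := by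
          rw [hi, show 900 * (L + 1) = 6 * (150 * (L + 1)) by ring, pow_mul]
          apply pow_le_pow_left₀ (by norm_num); norm_num
        have d2 : (w : ℝ) ≤ 2 ^ (L + 1) := by exact_mod_cast hn2.le
        calc (7 / 8 : ℝ) ^ i * (w : ℝ) ^ 150 ≤ (1 / 2) ^ (150 * (L + 1)) * (2 ^ (L + 1)) ^ 150 := by gcongr
          _ = (1 / 2) ^ (150 * (L + 1)) * 2 ^ (150 * (L + 1)) := by
              rw [← pow_mul]; ring_nf
          _ = 1 := by rw [← mul_pow]; norm_num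
      have c4 : (Nat.fib (60 * L) : ℝ) ^ 2 * ((7 / 8 : ℝ) ^ i * (1 + 2 * Real.log D) ^ 9) ≤ 512 / w := by
        rw [le_div_iff₀ hw0]
        have d3 : (w : ℝ) ^ 130 ≤ (w : ℝ) ^ 150 := pow_le_pow_right₀ hwr (by norm_num)
        calc (Nat.fib (60 * L) : ℝ) ^ 2 * ((7 / 8 : ℝ) ^ i * (1 + 2 * Real.log D) ^ 9) * (w : ℝ) ≤
            (w : ℝ) ^ 120 * ((7 / 8 : ℝ) ^ i * (512 * (w : ℝ) ^ 9)) * (w : ℝ) := by gcongr
          _ = 512 * ((7 / 8 : ℝ) ^ i * (w : ℝ) ^ 130) := by ring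
          _ ≤ 512 * ((7 / 8 : ℝ) ^ i * (w : ℝ) ^ 150) := by gcongr
          _ ≤ 512 * 1 := by gcongr
          _ = 512 := by norm_num
      have c5 : (1 + 2 * Real.log D) ^ 9 * (436 * 0.83 ^ (60 * L)) ≤ 512 * 436 * 65536 / w := by
        have d4 : (w : ℝ) ^ 10 ≤ (w : ℝ) ^ 16 := pow_le_pow_right₀ hwr (by norm_num)
        have d5 : (0 : ℝ) < (w : ℝ) ^ 16 := by positivity
        calc (1 + 2 * Real.log D) ^ 9 * (436 * 0.83 ^ (60 * L)) ≤
            (512 * (w : ℝ) ^ 9) * (436 * (65536 / (w : ℝ) ^ 16)) := by gcongr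
          _ = 512 * 436 * 65536 * ((w : ℝ) ^ 10 / (w : ℝ) ^ 16) / w := by
              field_simp
          _ ≤ 512 * 436 * 65536 * 1 / w := by
              gcongr
              rw [div_le_one d5]; exact d4
          _ = _ := by rw [mul_one]
      have : C' / w = 512 / w + 512 * 436 * 65536 / w := by rw [hC']; ring
      rw [this]
      linarith
    have e : (80 + 30 + C' + ((w₀ + 40 : ℕ) : ℝ)) / w = 80 / w + 30 / w + C' / w + ((w₀ + 40 : ℕ) : ℝ) / w := by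
      ring
    rw [e]
    have : 0 ≤ ((w₀ + 40 : ℕ) : ℝ) / w := by positivity
    linarith

end Pool.Agent.K4H3.CT
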