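import Mathlib
import Pool.Agent.K4H3.CT.C7
import Pool.Agent.K4H3.CT.C9

/-! The process, second moments, and the probability of meeting no prime. -/

set_option autoImplicit false

namespace Pool.Agent.K4H3.CT
open Finset Filter
open Pool.Agent.W301.SS (om om_nonneg)
open scoped goldenRatio

/-- the law of the noise -/
noncomputable def pe (v : ℕ) : ℝ := if v = 1 then 1 / 2 else 1 / 4

lemma pe_nonneg (v : ℕ) : 0 ≤ pe v := by unfold pe; split_ifs <;> norm_num

lemma pe_sum : ∑ v ∈ range 3, pe v = 1 := by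
  simp only [sum_range_succ, range_zero, sum_empty, pe]; norm_num

/-- time, number of primes met so far, and two consecutive terms -/
abbrev St : Type := ℕ × ℕ × ℕ × ℕ

/-- one step of the process -/
def step (c : ℕ → ℕ) (s : St) (v : ℕ) : St :=
  (s.1 + 1, s.2.1 + (if (s.2.2.1 + s.2.2.2 + c s.1 + v).Prime then 1 else 0), s.2.2.2,
    s.2.2.1 + s.2.2.2 + c s.1 + v)

variable (c : ℕ → ℕ)

/-- the transition operator -/
noncomputable def Op (f : St → ℝ) (s : St) : ℝ := ∑ v ∈ range 3, pe v * f (step c s v)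

lemma Op_mono {f g : St → ℝ} (h : ∀ s, f s ≤ g s) (s : St) : Op c f s ≤ Op c g s :=
  sum_le_sum fun v _ => mul_le_mul_of_nonneg_left (h _) (pe_nonneg v)

lemma Op_add (f g : St → ℝ) (s : St) : Op c (fun s => f s + g s) s = Op c f s + Op c g s := by
  unfold Op
  rw [← sum_add_distrib]
  apply sum_congr rfl; intro v _; ring

lemma Op_mul (a : ℝ) (f : St → ℝ) (s : St) : Op c (fun s => a * f s) s = a * Op c f s := by
  unfold Op
  rw [mul_sum]
  apply sum_congr rfl; intro v _; ring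

lemma Op_sum {ι : Type*} (S : Finset ι) (f : ι → St → ℝ) (s : St) :
    Op c (fun s => ∑ i ∈ S, f i s) s = ∑ i ∈ S, Op c (f i) s := by
  unfold Op
  rw [sum_comm]
  apply sum_congr rfl; intro v _
  rw [mul_sum]

lemma Op_eq (f : St → ℝ) (s : St) : Op c f s =
    1 / 4 * f (step c s 0) + 1 / 2 * f (step c s 1) + 1 / 4 * f (step c s 2) := by
  unfold Op
  simp [sum_range_succ, pe]

/-- the deterministic part -/
def yy (n : ℕ) (s : St) : ℕ := Nat.fib (n + 1) * s.2.2.2 + Nat.fib n * s.2.2.1 +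
  ∑ i ∈ range n, Nat.fib (n - i) * c (s.1 + i)

lemma yy_step (n : ℕ) (s : St) (v : ℕ) :
    yy c n (step c s v) = yy c (n + 1) s + v * Nat.fib (n + 1) := by
  unfold yy step
  rw [show n + 1 + 1 = n + 2 by ring, Nat.fib_add_two, sum_range_succ']
  have e : ∀ i ∈ range n, Nat.fib (n + 1 - (i + 1)) * c (s.1 + (i + 1)) =
      Nat.fib (n - i) * c (s.1 + 1 + i) := by
    intro i _
    rw [show n + 1 - (i + 1) = n - i by omega, show s.1 + (i + 1) = s.1 + 1 + i by ring]
  rw [sum_congr rfl e]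
  simp only [Nat.sub_zero, add_zero]
  ring

lemma Op_iter (n : ℕ) (g : ℕ → ℝ) (s : St) : (Op c)^[n] (fun s => g s.2.2.2) s =
    Ev el (Fl 0 n) (fun x : ℤ => g (((yy c n s : ℕ) : ℤ) + x).toNat) := by
  induction n generalizing s with
  | zero =>
    simp [Fl, Ev_nil, yy]
  | succ n ih =>
    rw [Function.iterate_succ_apply', Op_eq, ih, ih, ih, Fl_succ, Ev_el]
    simp only [zero_add, smul_eq_mul]
    have h0 : ∀ v : ℕ, ((yy c n (step c s v) : ℕ) : ℤ) = yy c (n + 1) s + v * Nat.fib (n + 1) := by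
      intro v
      rw [yy_step]; push_cast; ring
    simp only [h0]
    have e0 : ∀ x : ℤ, ((yy c (n + 1) s : ℕ) : ℤ) + ((0 : ℕ) : ℤ) * (Nat.fib (n + 1) : ℤ) + x =
        (yy c (n + 1) s : ℕ) + x := by intro x; push_cast; ring
    have e1 : ∀ x : ℤ, ((yy c (n + 1) s : ℕ) : ℤ) + ((1 : ℕ) : ℤ) * (Nat.fib (n + 1) : ℤ) + x =
        (yy c (n + 1) s : ℕ) + (x + (Nat.fib (n + 1) : ℤ)) := by intro x; push_cast; ring
    have e2 : ∀ x : ℤ, ((yy c (n + 1) s : ℕ) : ℤ) + ((2 : ℕ) : ℤ) * (Nat.fib (n + 1) : ℤ) + x =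
        (yy c (n + 1) s : ℕ) + (x + 2 * (Nat.fib (n + 1) : ℤ)) := by intro x; push_cast; ring
    simp only [e0, e1, e2]

/-- the indicator function of the primes -/
noncomputable def pr (s : St) : ℝ := if s.2.2.2.Prime then 1 else 0

lemma pr_nonneg (s : St) : 0 ≤ pr s := ind_nonneg _

lemma pr_le (s : St) : pr s ≤ 1 := by unfold pr; split_ifs <;> norm_num

lemma Op_iter_pr (n : ℕ) (s : St) : (Op c)^[n] pr s =
    Ev el (Fl 0 n) (fun x : ℤ => if ((((yy c n s : ℕ) : ℤ) + x).toNat).Prime then (1 : ℝ) else 0) :=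
  Op_iter c n (fun m => if m.Prime then (1 : ℝ) else 0) s

/-- expectation of a function of the number of primes met in `W` steps -/
noncomputable def RR : ℕ → St → (ℕ → ℝ) → ℝ
  | 0, _, f => f 0
  | (W + 1), s, f => ∑ v ∈ range 3, pe v *
      RR W (step c s v) (fun z => f (z + if (step c s v).2.2.2.Prime then 1 else 0))

lemma RR_mono (W : ℕ) (s : St) (f g : ℕ → ℝ) (h : ∀ z, f z ≤ g z) : RR c W s f ≤ RR c W s g := by
  induction W generalizing s f g with
  | zero => exact h 0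
  | succ W ih =>
    simp only [RR]
    exact sum_le_sum fun v _ => mul_le_mul_of_nonneg_left (ih _ _ _ fun z => h _) (pe_nonneg v)

lemma RR_add (W : ℕ) (s : St) (f g : ℕ → ℝ) :
    RR c W s (fun z => f z + g z) = RR c W s f + RR c W s g := by
  induction W generalizing s f g with
  | zero => rfl
  | succ W ih =>
    simp only [RR]
    rw [← sum_add_distrib]
    apply sum_congr rfl; intro v _
    rw [ih, mul_add]

lemma RR_mul (W : ℕ) (s : St) (a : ℝ) (f : ℕ → ℝ) :
    RR c W s (fun z => a * f z) = a * RR c W s f := by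
  induction W generalizing s f with
  | zero => rfl
  | succ W ih =>
    simp only [RR]
    rw [mul_sum]
    apply sum_congr rfl; intro v _
    rw [ih]; ring

lemma RR_const (W : ℕ) (s : St) (a : ℝ) : RR c W s (fun _ => a) = a := by
  induction W generalizing s with
  | zero => rfl
  | succ W ih =>
    simp only [RR, ih]
    rw [← sum_mul, pe_sum, one_mul]

/-- the first moment -/
noncomputable def M1 (W : ℕ) (s : St) : ℝ := RR c W s (fun z => (z : ℝ))
/-- the second moment -/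
noncomputable def M2 (W : ℕ) (s : St) : ℝ := RR c W s (fun z => (z : ℝ) ^ 2)

lemma M1_succ (W : ℕ) (s : St) : M1 c (W + 1) s = Op c (fun s => pr s + M1 c W s) s := by
  unfold M1 Op
  simp only [RR]
  apply sum_congr rfl; intro v _
  congr 1
  have e : (fun z : ℕ => ((z + (if (step c s v).2.2.2.Prime then 1 else 0) : ℕ) : ℝ)) =
      fun z : ℕ => pr (step c s v) + (z : ℝ) := by
    funext z; unfold pr; split_ifs <;> push_cast <;> ring
  rw [e, RR_add, RR_const]

lemma M2_succ (W : ℕ) (s : St) :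
    M2 c (W + 1) s = Op c (fun s => pr s * (1 + 2 * M1 c W s) + M2 c W s) s := by
  unfold M1 M2 Op
  simp only [RR]
  apply sum_congr rfl; intro v _
  congr 1
  have e : (fun z : ℕ => (((z + (if (step c s v).2.2.2.Prime then 1 else 0) : ℕ) : ℝ)) ^ 2) =
      fun z : ℕ => (pr (step c s v) + 2 * pr (step c s v) * (z : ℝ)) + (z : ℝ) ^ 2 := by
    funext z; unfold pr; split_ifs <;> push_cast <;> ring
  rw [e, RR_add, RR_add, RR_const, RR_mul]
  ring

lemma M1_nonneg (W : ℕ) (s : St) : 0 ≤ M1 c W s := by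
  have := RR_mono c W s (fun _ => 0) (fun z => (z : ℝ)) (fun z => Nat.cast_nonneg z)
  rwa [RR_const] at this

lemma M1_eq (W : ℕ) (s : St) : M1 c W s = ∑ j ∈ Icc 1 W, (Op c)^[j] pr s := by
  induction W generalizing s with
  | zero => simp [M1, RR]
  | succ W ih =>
    rw [M1_succ, Op_add]
    have e : Op c (M1 c W) s = ∑ j ∈ Icc 1 W, (Op c)^[j + 1] pr s := by
      have : M1 c W = fun s => ∑ j ∈ Icc 1 W, (Op c)^[j] pr s := funext ih
      rw [this, Op_sum]
      apply sum_congr rfl; intro j _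
      rw [Function.iterate_succ_apply']
    have e2 : Op c (fun s => M1 c W s) s = Op c (M1 c W) s := rfl
    rw [e2, e]
    have e3 : Icc 1 (W + 1) = insert 1 ((Icc 1 W).map ⟨fun j => j + 1, add_left_injective 1⟩) := by
      ext j
      simp only [mem_Icc, mem_insert, Finset.mem_map, Function.Embedding.coeFn_mk]
      constructor
      · intro h
        rcases Nat.eq_or_lt_of_le h.1 with h1 | h1
        · left; exact h1.symm
        · right; exact ⟨j - 1, by omega, by omega⟩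
      · rintro (h | ⟨i, hi, rfl⟩) <;> omega
    rw [e3, sum_insert, sum_map]
    · rfl
    · simp only [Finset.mem_map, mem_Icc, Function.Embedding.coeFn_mk]
      rintro ⟨i, hi, h⟩; omega

/-- first moments are at most logarithmic -/
lemma M1_le {C : ℝ} (hC0 : 0 < C) (hC : ∀ w : ℕ, 1 ≤ w → ∀ y : ℕ, Ev el (Fl 0 w) (fun x : ℤ =>
    if (((y : ℤ) + x).toNat).Prime then (1 : ℝ) else 0) ≤ C / w) (W : ℕ) (s : St) :
    M1 c W s ≤ C * (1 + Real.log W) := by
  rw [M1_eq]
  have h1 : ∀ j ∈ Icc 1 W, (Op c)^[j] pr s ≤ C * (1 / j) := by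
    intro j hj
    rw [mem_Icc] at hj
    rw [Op_iter_pr, mul_one_div]
    exact hC j hj.1 (yy c j s)
  refine (sum_le_sum h1).trans ?_
  rw [← mul_sum]
  exact mul_le_mul_of_nonneg_left (_root_.W37.RK.harm_le W) hC0.le

lemma M2_le {B : ℝ} (W : ℕ) (h : ∀ W' ≤ W, ∀ s, M1 c W' s ≤ B) (s : St) :
    M2 c W s ≤ (1 + 2 * B) * M1 c W s := by
  induction W generalizing s with
  | zero => simp [M1, M2, RR]
  | succ W ih =>
    rw [M2_succ, M1_succ, ← Op_mul]
    apply Op_mono
    intro s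
    have h1 := ih (fun W' hW' => h W' (by omega)) s
    have h2 := h W (by omega) s
    have h3 := pr_nonneg s
    nlinarith

/-- Paley–Zygmund -/
lemma tail_bound {B : ℝ} (hB : 0 ≤ B) (W : ℕ) (h : ∀ W' ≤ W, ∀ s, M1 c W' s ≤ B) (s : St)
    (θ : ℝ) (hθ : 0 ≤ θ) :
    (M1 c W s - 2 * θ) / (1 + 2 * B) ≤ 1 - RR c W s (fun z => if (z : ℝ) < θ then 1 else 0) := by
  have h1 := M2_le c W h s
  set t : ℝ := 1 + 2 * B with ht
  have ht0 : 0 < t := by linarith
  set q := RR c W s (fun z => if (z : ℝ) < θ then 1 else 0) with hq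
  have h2 : M1 c W s ≤ θ + 1 / (2 * t) * M2 c W s + t / 2 * (1 - q) := by
    have e : θ + 1 / (2 * t) * M2 c W s + t / 2 * (1 - q) =
        RR c W s (fun z => (θ + 1 / (2 * t) * (z : ℝ) ^ 2) +
        (t / 2 + (-(t / 2)) * (if (z : ℝ) < θ then (1 : ℝ) else 0))) := by
      rw [RR_add, RR_add, RR_add, RR_mul, RR_mul, RR_const, RR_const]
      unfold M2; rw [← hq]; ring
    rw [e]
    apply RR_mono
    intro z
    split_ifs with hz
    · have : 0 ≤ 1 / (2 * t) * (z : ℝ) ^ 2 := by positivity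
      linarith
    · have h3 : θ + 1 / (2 * t) * (z : ℝ) ^ 2 + (t / 2 + -(t / 2) * 0) - z =
          θ + ((z : ℝ) - t) ^ 2 / (2 * t) := by
        field_simp; ring
      have h4 : 0 ≤ ((z : ℝ) - t) ^ 2 / (2 * t) := by positivity
      linarith
  have h3 : 1 / (2 * t) * M2 c W s ≤ M1 c W s / 2 := by
    calc 1 / (2 * t) * M2 c W s ≤ 1 / (2 * t) * (t * M1 c W s) := by gcongr
      _ = _ := by field_simp
  rw [div_le_iff₀ ht0]
  linarith

/-- the forcing is of smaller order than the sequence -/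
def Sm : Prop := Summable (fun n => (c n : ℝ) / φ ^ n)

lemma yy_le (hc : Sm c) (s : St) : ∃ K : ℕ, ∀ n, yy c n s ≤ K * Nat.fib (n + 2) := by
  set T : ℝ := ∑' n, (c n : ℝ) / φ ^ n with hT
  have hφ : ∀ n : ℕ, (0 : ℝ) < φ ^ n := fun n => pow_pos Real.goldenRatio_pos n
  refine ⟨s.2.2.2 + s.2.2.1 + ⌈2 * φ ^ s.1 * T⌉₊, fun n => ?_⟩
  have h1 : ∑ i ∈ range n, Nat.fib (n - i) * c (s.1 + i) ≤ ⌈2 * φ ^ s.1 * T⌉₊ * Nat.fib (n + 2) := by
    have h2 : ((∑ i ∈ range n, Nat.fib (n - i) * c (s.1 + i) : ℕ) : ℝ) ≤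
        (2 * φ ^ s.1 * T) * Nat.fib (n + 2) := by
      push_cast
      have h3 : ∀ i ∈ range n, (Nat.fib (n - i) : ℝ) * c (s.1 + i) ≤
          φ ^ n * φ ^ s.1 * ((c (s.1 + i) : ℝ) / φ ^ (s.1 + i)) := by
        intro i hi
        rw [mem_range] at hi
        have h4 := fib_le_phi (n - i)
        have h5 : φ ^ n * φ ^ s.1 * ((c (s.1 + i) : ℝ) / φ ^ (s.1 + i)) =
            φ ^ (n - i) * c (s.1 + i) := by
          have h6 : φ ^ n = φ ^ (n - i) * φ ^ i := by rw [← pow_add]; congr 1; omega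
          rw [h6, pow_add]
          have := (hφ s.1).ne'
          have := (hφ i).ne'
          field_simp
        rw [h5]
        gcongr
      refine (sum_le_sum h3).trans ?_
      rw [← mul_sum]
      have h7 : ∑ i ∈ range n, (c (s.1 + i) : ℝ) / φ ^ (s.1 + i) ≤ T := by
        have h8 : ∑ i ∈ range n, (c (s.1 + i) : ℝ) / φ ^ (s.1 + i) =
            ∑ i ∈ (range n).map (addLeftEmbedding s.1), (c i : ℝ) / φ ^ i := by
          rw [sum_map]; rfl
        rw [h8]
        exact hc.sum_le_tsum _ fun i _ => div_nonneg (Nat.cast_nonneg _) (hφ i).le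
      have hT0 : 0 ≤ T := tsum_nonneg fun i => div_nonneg (Nat.cast_nonneg _) (hφ i).le
      have h9 : φ ^ n ≤ 2 * Nat.fib (n + 2) := by
        have a1 := phi_le_fib n
        have a2 : (Nat.fib (n + 1) : ℝ) ≤ Nat.fib (n + 2) := by exact_mod_cast Nat.fib_le_fib_succ
        linarith
      have h10 := (hφ s.1).le
      have h11 := (hφ n).le
      calc φ ^ n * φ ^ s.1 * ∑ i ∈ range n, (c (s.1 + i) : ℝ) / φ ^ (s.1 + i) ≤
            (2 * Nat.fib (n + 2)) * φ ^ s.1 * T := by gcongr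
        _ = _ := by ring
    have h3 : ((∑ i ∈ range n, Nat.fib (n - i) * c (s.1 + i) : ℕ) : ℝ) ≤
        ((⌈2 * φ ^ s.1 * T⌉₊ * Nat.fib (n + 2) : ℕ) : ℝ) := by
      refine h2.trans ?_
      push_cast
      have := Nat.le_ceil (2 * φ ^ s.1 * T)
      gcongr
    exact_mod_cast h3
  unfold yy
  have a1 : Nat.fib (n + 1) ≤ Nat.fib (n + 2) := Nat.fib_mono (by omega)
  have a2 : Nat.fib n ≤ Nat.fib (n + 2) := Nat.fib_mono (by omega)
  have a3 : Nat.fib (n + 1) * s.2.2.2 ≤ Nat.fib (n + 2) * s.2.2.2 := Nat.mul_le_mul_right _ a1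
  have a4 : Nat.fib n * s.2.2.1 ≤ Nat.fib (n + 2) * s.2.2.1 := Nat.mul_le_mul_right _ a2
  calc _ ≤ Nat.fib (n + 2) * s.2.2.2 + Nat.fib (n + 2) * s.2.2.1 +
        ⌈2 * φ ^ s.1 * T⌉₊ * Nat.fib (n + 2) := by omega
    _ = _ := by ring

/-- lower bound for the probability of a prime, for fixed starting values -/
lemma pr_lower (hc : Sm c) (s : St) :
    ∃ n₁ : ℕ, ∀ j : ℕ, n₁ ≤ j → 1 / (2 * (j : ℝ)) ≤ (Op c)^[j] pr s := by
  obtain ⟨K, hK⟩ := yy_le c hc s
  have h1 := asym K (1 / 2) (by norm_num)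
  rw [eventually_atTop] at h1
  obtain ⟨n₀, hn₀⟩ := h1
  set a : ℝ := Real.log ((K + 2 : ℕ) : ℝ) + 1 with ha
  have ha1 : 1 ≤ a := by
    have : 0 ≤ Real.log ((K + 2 : ℕ) : ℝ) := Real.log_natCast_nonneg _
    linarith
  obtain ⟨n₂, hn₂⟩ := exists_nat_ge (4 * a)
  refine ⟨max n₀ (n₂ + 1), fun j hj => ?_⟩
  have hj1 : n₀ ≤ j := (le_max_left _ _).trans hj
  have hj2 : n₂ + 1 ≤ j := (le_max_right _ _).trans hj
  have hj0 : (0 : ℝ) < j := by exact_mod_cast (by omega : 0 < j)
  have hy := hK j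
  have h2 := hn₀ j hj1 (yy c j s) hy
  have h3 : 1 / 2 ≤ Ev el (Fl 0 j) (fun x => oz ((yy c j s : ℕ) + x)) := by
    have := (abs_le.1 h2).1; linarith
  have h4 : Ev el (Fl 0 j) (fun x => oz ((yy c j s : ℕ) + x)) ≤ Ev el (Fl 0 j) (fun x : ℤ =>
      (j : ℝ) * (if ((((yy c j s : ℕ) : ℤ) + x).toNat).Prime then (1 : ℝ) else 0)) := by
    apply Ev_mono_R el_law.1
    intro x hx
    have hx1 := Rch_el 0 j x hx
    have h3 : Nat.fib (0 + 2) = 1 := rfl
    rw [h3, zero_add] at hx1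
    push_cast at hx1
    unfold oz om
    set p := (((yy c j s : ℕ) : ℤ) + x).toNat with hp
    split_ifs with hpp
    · have hpb : p ≤ (K + 2) * Nat.fib (j + 2) := by
        have : (K + 2) * Nat.fib (j + 2) = K * Nat.fib (j + 2) + 2 * Nat.fib (j + 2) := by ring
        omega
      have hp0 : (0 : ℝ) < p := by exact_mod_cast hpp.pos
      have hpb2 : (p : ℝ) ≤ ((K + 2 : ℕ) : ℝ) * φ ^ (j + 1) := by
        have a1 : (Nat.fib (j + 2) : ℝ) ≤ φ ^ (j + 1) := fib_succ_le_phi _
        calc (p : ℝ) ≤ ((K + 2 : ℕ) : ℝ) * Nat.fib (j + 2) := by exact_mod_cast hpb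
          _ ≤ _ := by gcongr
      have a2 := Real.log_le_log hp0 hpb2
      have hK0 : ((K + 2 : ℕ) : ℝ) ≠ 0 := by positivity
      rw [Real.log_mul hK0 (pow_pos Real.goldenRatio_pos _).ne', Real.log_pow] at a2
      have a4 : Real.log φ ≤ 0.62 := by
        have := Real.log_le_sub_one_of_pos Real.goldenRatio_pos
        have := phi_bounds.2
        linarith
      have a5 : ((j + 1 : ℕ) : ℝ) * Real.log φ ≤ (j + 1) * 0.62 := by
        push_cast; gcongr
      have a6 : 4 * a + 1 ≤ j := by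
        have : ((n₂ + 1 : ℕ) : ℝ) ≤ j := by exact_mod_cast hj2
        push_cast at this; linarith
      rw [mul_one]
      linarith
    · simp
  rw [Ev_mulR, ← Op_iter_pr] at h4
  rw [div_le_iff₀ (by positivity)]
  linarith

lemma M1_lower (hc : Sm c) (s : St) :
    ∃ W₀ : ℕ, ∀ W : ℕ, W₀ ≤ W → 1 / 8 * (1 + Real.log W) ≤ M1 c W s := by
  obtain ⟨n₁, hn₁⟩ := pr_lower c hc s
  set n₂ := n₁ + 1 with hn₂
  have hlim : Tendsto (fun W : ℕ => Real.log W) atTop atTop :=
    Real.tendsto_log_atTop.comp tendsto_natCast_atTop_atTop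
  have hev := hlim.eventually_ge_atTop (10 * (1 + Real.log n₂))
  rw [eventually_atTop] at hev
  obtain ⟨W₀, hW₀⟩ := hev
  refine ⟨max W₀ (n₂ + 1), fun W hW => ?_⟩
  have h1 := hW₀ W ((le_max_left _ _).trans hW)
  have hW2 : n₂ + 1 ≤ W := (le_max_right _ _).trans hW
  have hW0 : (0 : ℝ) < W := by exact_mod_cast (by omega : 0 < W)
  have hlog2 : 0 ≤ Real.log n₂ := Real.log_natCast_nonneg _
  rw [M1_eq]
  have hpos : ∀ j, 0 ≤ (Op c)^[j] pr s := by
    intro j
    rw [Op_iter_pr]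
    exact Ev_nonneg el_law _ _ (fun x => ind_nonneg _)
  have h2 : ∑ j ∈ Ioc n₂ W, 1 / (2 * (j : ℝ)) ≤ ∑ j ∈ Icc 1 W, (Op c)^[j] pr s := by
    refine le_trans (sum_le_sum fun j hj => hn₁ j (by rw [mem_Ioc] at hj; omega)) ?_
    apply sum_le_sum_of_subset_of_nonneg
    · intro j hj; rw [mem_Ioc] at hj; rw [mem_Icc]; omega
    · intro j _ _; exact hpos j
  refine le_trans ?_ h2
  have h3 : ∑ j ∈ Ioc n₂ W, 1 / (2 * (j : ℝ)) = 1 / 2 * (∑ j ∈ Icc 1 W, 1 / (j : ℝ) - ∑ j ∈ Icc 1 n₂, 1 / (j : ℝ)) := by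
    have e : Icc 1 W = Icc 1 n₂ ∪ Ioc n₂ W := by
      ext j; simp only [mem_union, mem_Icc, mem_Ioc]; omega
    have hd : Disjoint (Icc 1 n₂) (Ioc n₂ W) := by
      rw [Finset.disjoint_left]; intro j hj hj'
      rw [mem_Icc] at hj; rw [mem_Ioc] at hj'; omega
    rw [e, sum_union hd, add_sub_cancel_left, mul_sum]
    apply sum_congr rfl; intro j _
    rw [one_div_mul_one_div]
  have h4 : Real.log W ≤ ∑ j ∈ Icc 1 W, 1 / (j : ℝ) := by
    have := log_add_one_le_harmonic W
    rw [harmonic_eq_sum_Icc] at this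
    push_cast at this
    have h5 : Real.log W ≤ Real.log (W + 1) := Real.log_le_log hW0 (by linarith)
    simp only [one_div]
    linarith
  have h5 := _root_.W37.RK.harm_le n₂
  rw [h3]
  linarith

/-- The number of primes has the right order of magnitude with positive probability, with an
absolute constant. -/
theorem tail_lt : ∃ κ : ℝ, 0 < κ ∧ κ ≤ 1 ∧ ∀ c : ℕ → ℕ, Sm c → ∀ s : St, ∃ W : ℕ, 1 ≤ W ∧
    RR c W s (fun z => if (z : ℝ) < κ * Real.log ((s.1 + W : ℕ) : ℝ) then 1 else 0) ≤ 1 - κ := by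
  obtain ⟨C, hC0, hC⟩ := sieveB
  set κ : ℝ := (1 / 64) / (1 + 2 * C) with hκ
  have hκ0 : 0 < κ := by positivity
  have hκ1 : κ ≤ 1 / 64 := by
    rw [hκ]
    apply div_le_self (by norm_num)
    linarith
  refine ⟨κ, hκ0, by linarith, fun c hc s => ?_⟩
  obtain ⟨W₀, hW₀⟩ := M1_lower c hc s
  set W := W₀ + s.1 + 2 with hW
  refine ⟨W, by omega, ?_⟩
  have hWr : (2 : ℝ) ≤ W := by exact_mod_cast (by omega : 2 ≤ W)
  have hlog : 0 ≤ Real.log W := Real.log_natCast_nonneg _
  set θ := κ * Real.log ((s.1 + W : ℕ) : ℝ) with hθ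
  have hθ0 : 0 ≤ θ := mul_nonneg hκ0.le (Real.log_natCast_nonneg _)
  have hθ1 : θ ≤ 1 / 32 * Real.log W := by
    have h1 : ((s.1 + W : ℕ) : ℝ) ≤ (W : ℝ) ^ 2 := by
      have h2 : s.1 + W ≤ W ^ 2 := by
        have : s.1 ≤ W := by omega
        nlinarith
      exact_mod_cast h2
    have h2 : Real.log ((s.1 + W : ℕ) : ℝ) ≤ 2 * Real.log W := by
      have := Real.log_le_log (by exact_mod_cast (by omega : 0 < s.1 + W)) h1
      rwa [Real.log_pow, Nat.cast_ofNat] at this
    rw [hθ]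
    have h3 : 0 ≤ Real.log ((s.1 + W : ℕ) : ℝ) := Real.log_natCast_nonneg _
    nlinarith
  set B : ℝ := C * (1 + Real.log W) with hB
  have hB0 : 0 ≤ B := by positivity
  have h1 := tail_bound c hB0 W (fun W' hW' s' => by
    refine (M1_le c hC0 hC W' s').trans ?_
    rw [hB]
    rcases Nat.eq_zero_or_pos W' with h0 | h0
    · rw [h0]; simp; nlinarith
    · have : Real.log W' ≤ Real.log W := Real.log_le_log (by exact_mod_cast h0) (by exact_mod_cast hW')
      gcongr) s θ hθ0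
  have h2 := hW₀ W (by omega)
  have h3 : κ ≤ (M1 c W s - 2 * θ) / (1 + 2 * B) := by
    rw [hκ, div_le_div_iff₀ (by positivity) (by positivity)]
    have h4 : 1 + 2 * B ≤ (1 + 2 * C) * (1 + Real.log W) := by rw [hB]; nlinarith
    calc 1 / 64 * (1 + 2 * B) ≤ 1 / 64 * ((1 + 2 * C) * (1 + Real.log W)) := by gcongr
      _ = (1 / 64 * (1 + Real.log W)) * (1 + 2 * C) := by ring
      _ ≤ (M1 c W s - 2 * θ) * (1 + 2 * C) := by
        have : 1 / 64 * (1 + Real.log W) ≤ M1 c W s - 2 * θ := by linarith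
        gcongr
  linarith

/-! ### The probability of few primes for all times -/

open Classical in
/-- the probability that at the times `1, …, W` the counter is below `κ log t` -/
noncomputable def hh (κ : ℝ) : ℕ → St → ℝ
  | 0, _ => 1
  | (W + 1), s => Op c (fun s' => if (s'.2.1 : ℝ) < κ * Real.log (s'.1 : ℝ) then hh κ W s' else 0) s

lemma hh_nonneg (κ : ℝ) (W : ℕ) (s : St) : 0 ≤ hh c κ W s := by
  induction W generalizing s with
  | zero => exact zero_le_one
  | succ W ih =>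
    rw [hh]
    unfold Op
    refine sum_nonneg fun v _ => mul_nonneg (pe_nonneg v) ?_
    beta_reduce
    split_ifs
    · exact ih _
    · exact le_rfl

lemma hh_anti (κ : ℝ) (s : St) : Antitone (fun W => hh c κ W s) := by
  apply antitone_nat_of_succ_le
  intro W
  induction W generalizing s with
  | zero =>
    rw [hh, hh]
    have : Op c (fun s' => if (s'.2.1 : ℝ) < κ * Real.log (s'.1 : ℝ) then hh c κ 0 s' else 0) s ≤
        Op c (fun _ => (1 : ℝ)) s := by
      apply Op_mono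
      intro s'
      split_ifs
      · exact le_rfl
      · exact zero_le_one
    refine this.trans (le_of_eq ?_)
    unfold Op
    simp only [mul_one]
    exact pe_sum
  | succ W ih =>
    rw [hh, hh]
    apply Op_mono
    intro s'
    split_ifs
    · exact ih s'
    · exact le_rfl

lemma hh_le_one (κ : ℝ) (W : ℕ) (s : St) : hh c κ W s ≤ 1 := hh_anti c κ s (Nat.zero_le W)

lemma hh_le (κ : ℝ) (W : ℕ) (s : St) : hh c κ (W + 1) s ≤ RR c (W + 1) s (fun z =>
    if ((s.2.1 + z : ℕ) : ℝ) < κ * Real.log ((s.1 + (W + 1) : ℕ) : ℝ) then 1 else 0) := by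
  have key : ∀ (s : St) (v : ℕ), (step c s v).2.1 = s.2.1 +
      (if (step c s v).2.2.2.Prime then 1 else 0) := fun s v => rfl
  induction W generalizing s with
  | zero =>
    simp only [hh, Op, RR]
    apply sum_le_sum; intro v _
    apply mul_le_mul_of_nonneg_left _ (pe_nonneg v)
    rw [key]
    simp only [zero_add]
    exact le_rfl
  | succ W ih =>
    rw [hh]
    simp only [Op]
    rw [RR]
    apply sum_le_sum; intro v _
    apply mul_le_mul_of_nonneg_left _ (pe_nonneg v)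
    have h1 : (if ((step c s v).2.1 : ℝ) < κ * Real.log ((step c s v).1 : ℝ) then
        hh c κ (W + 1) (step c s v) else 0) ≤ hh c κ (W + 1) (step c s v) := by
      split_ifs
      · exact le_rfl
      · exact hh_nonneg c κ _ _
    refine h1.trans ((ih (step c s v)).trans (le_of_eq ?_))
    congr 1
    funext z
    have e1 : (step c s v).2.1 + z = s.2.1 + (z + if (step c s v).2.2.2.Prime then 1 else 0) := by
      rw [key]; ring
    have e2 : (step c s v).1 + (W + 1) = s.1 + (W + 1 + 1) := by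
      show s.1 + 1 + (W + 1) = _
      ring
    rw [e1, e2]

/-- **Almost surely the number of primes is at some time at least `κ log t`.** -/
theorem hh_tendsto : ∃ κ : ℝ, 0 < κ ∧ ∀ c : ℕ → ℕ, Sm c → ∀ s : St,
    Tendsto (fun W => hh c κ W s) atTop (nhds 0) := by
  classical
  obtain ⟨κ, hκ0, hκ1, hκ⟩ := tail_lt
  refine ⟨κ, hκ0, fun c hc s => ?_⟩
  set u : St → ℝ := fun s => ⨅ W, hh c κ W s with hu
  have hbdd : ∀ s, BddBelow (Set.range (fun W => hh c κ W s)) := fun s => ⟨0, by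
    rintro _ ⟨W, rfl⟩; exact hh_nonneg c κ W s⟩
  have hlim : ∀ s, Tendsto (fun W => hh c κ W s) atTop (nhds (u s)) := fun s =>
    tendsto_atTop_ciInf (hh_anti c κ s) (hbdd s)
  have hu0 : ∀ s, 0 ≤ u s := fun s => le_ciInf fun W => hh_nonneg c κ W s
  have hu1 : ∀ s, u s ≤ 1 := fun s => (ciInf_le (hbdd s) 0).trans (hh_le_one c κ 0 s)
  have hrec : ∀ s, u s = Op c (fun s' => if (s'.2.1 : ℝ) < κ * Real.log (s'.1 : ℝ) then u s' else 0) s := by
    intro s
    have h1 : Tendsto (fun W => hh c κ (W + 1) s) atTop (nhds (u s)) := (tendsto_add_atTop_iff_nat 1).2 (hlim s)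
    have h2 : Tendsto (fun W => Op c (fun s' => if (s'.2.1 : ℝ) < κ * Real.log (s'.1 : ℝ) then
        hh c κ W s' else 0) s) atTop
        (nhds (Op c (fun s' => if (s'.2.1 : ℝ) < κ * Real.log (s'.1 : ℝ) then u s' else 0) s)) := by
      unfold Op
      apply tendsto_finsetSum
      intro v _
      apply Tendsto.const_mul
      beta_reduce
      split_ifs
      · exact hlim _
      · exact tendsto_const_nhds
    have h3 : (fun W => hh c κ (W + 1) s) = fun W => Op c (fun s' =>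
        if (s'.2.1 : ℝ) < κ * Real.log (s'.1 : ℝ) then hh c κ W s' else 0) s := rfl
    rw [h3] at h1
    exact tendsto_nhds_unique h1 h2
  set σ : ℝ := ⨆ s, u s with hσ
  have hbu : BddAbove (Set.range u) := ⟨1, by rintro _ ⟨s, rfl⟩; exact hu1 s⟩
  have huσ : ∀ s, u s ≤ σ := fun s => le_ciSup hbu s
  have hσ0 : 0 ≤ σ := (hu0 (0, 0, 0, 0)).trans (huσ (0, 0, 0, 0))
  have hq : ∀ W s, u s ≤ σ * hh c κ W s := by
    intro W
    induction W with
    | zero =>
      intro s
      rw [hh, mul_one]; exact huσ s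
    | succ W ih =>
      intro s
      rw [hrec s, hh, ← Op_mul]
      apply Op_mono
      intro s'
      split_ifs
      · exact ih s'
      · rw [mul_zero]
  have hσ1 : σ ≤ σ * (1 - κ) := by
    apply ciSup_le
    intro s
    obtain ⟨W, hW1, hW⟩ := hκ c hc s
    obtain ⟨W', rfl⟩ : ∃ W', W = W' + 1 := ⟨W - 1, by omega⟩
    have h1 : hh c κ (W' + 1) s ≤ 1 - κ := by
      refine (hh_le c κ W' s).trans (le_trans ?_ hW)
      apply RR_mono
      intro z
      have hz : (z : ℝ) ≤ ((s.2.1 + z : ℕ) : ℝ) := by exact_mod_cast Nat.le_add_left _ _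
      split_ifs with a b b
      · exact le_rfl
      · exfalso; apply b; exact lt_of_le_of_lt hz a
      · exact zero_le_one
      · exact le_rfl
    exact (hq (W' + 1) s).trans (mul_le_mul_of_nonneg_left h1 hσ0)
  have hσ2 : σ = 0 := by nlinarith
  have : u s = 0 := le_antisymm (by rw [← hσ2]; exact huσ s) (hu0 s)
  rw [← this]
  exact hlim s

end Pool.Agent.K4H3.CT
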