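import Mathlib
import Pool.Agent.K4H3.CT.D10

/-! The asymptotic probability that a term is prime. -/

set_option autoImplicit false

namespace Pool.Agent.K4H3.CT
open Finset Filter
open Pool.Agent.W301.SS (om om_nonneg)
open scoped goldenRatio

lemma low_high (m j : ℕ) :
    Ev el (Fl m j) (fun x : ℤ => if x < Nat.fib (m + 1) then (1 : ℝ) else 0) ≤ (1 / 4 : ℝ) ^ j := by
  induction j with
  | zero =>
    have h : (Ev el (Fl m 0) (fun x : ℤ => if x < Nat.fib (m + 1) then (1 : ℝ) else 0)) =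
        if (0 : ℤ) < Nat.fib (m + 1) then (1 : ℝ) else 0 := rfl
    rw [h, pow_zero]
    split_ifs <;> norm_num
  | succ j ih =>
    rw [Fl_succ, Ev_el]
    have hF : (Nat.fib (m + 1) : ℤ) ≤ Nat.fib (m + j + 1) := by
      exact_mod_cast Nat.fib_mono (by omega)
    have e1 : Ev el (Fl m j) (fun x : ℤ => if x + (Nat.fib (m + j + 1) : ℤ) < Nat.fib (m + 1) then (1 : ℝ) else 0) =
        0 := by
      rw [Ev_congr_R (Fl m j) _ (fun _ => (0 : ℝ))]
      · exact Ev_const el_law _ _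
      · intro x hx
        have := (Rch_el m j x hx).1
        rw [if_neg]; omega
    have e2 : Ev el (Fl m j) (fun x : ℤ => if x + (2 : ℤ) • (Nat.fib (m + j + 1) : ℤ) < Nat.fib (m + 1) then (1 : ℝ) else 0) =
        0 := by
      rw [Ev_congr_R (Fl m j) _ (fun _ => (0 : ℝ))]
      · exact Ev_const el_law _ _
      · intro x hx
        have := (Rch_el m j x hx).1
        rw [if_neg]
        simp only [smul_eq_mul]
        omega
    rw [e1, e2]
    simp only [smul_eq_mul, mul_zero, add_zero]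
    rw [pow_succ]
    linarith

lemma low_all (m j : ℕ) :
    Ev el (Fl 0 (m + j)) (fun x : ℤ => if x < Nat.fib (m + 1) then (1 : ℝ) else 0) ≤ (1 / 4 : ℝ) ^ j := by
  rw [Fl_add, Ev_append, zero_add]
  refine le_trans ?_ (low_high m j)
  apply Ev_mono_R el_law.1
  intro x hx
  have h1 : Ev el (Fl 0 m) (fun y : ℤ => if x + y < Nat.fib (m + 1) then (1 : ℝ) else 0) ≤
      Ev el (Fl 0 m) (fun _ : ℤ => if x < Nat.fib (m + 1) then (1 : ℝ) else 0) := by
    apply Ev_mono_R el_law.1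
    intro y hy
    have := (Rch_el 0 m y hy).1
    split_ifs with a b b
    · exact le_rfl
    · omega
    · norm_num
    · exact le_rfl
  rwa [Ev_const el_law] at h1

lemma log_phi_pos : 0 < Real.log φ := Real.log_pos Real.one_lt_goldenRatio

variable (c : ℕ → ℕ)

lemma E_tendsto (hc : Sm c) (s : St) :
    Tendsto (fun n : ℕ => Ev el (Fl 0 n) (fun x => oz ((yy c n s : ℕ) + x))) atTop (nhds 1) := by
  obtain ⟨K, hK⟩ := yy_le c hc s
  rw [Metric.tendsto_atTop]
  intro ε hε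
  have h1 := asym K (ε / 2) (by positivity)
  rw [eventually_atTop] at h1
  obtain ⟨n₀, hn₀⟩ := h1
  refine ⟨n₀, fun n hn => ?_⟩
  have h2 := hn₀ n hn (yy c n s) (hK n)
  rw [Real.dist_eq]
  linarith

/-- lower bound -/
lemma P_lower (s : St) (K : ℕ) (hK : ∀ n, yy c n s ≤ K * Nat.fib (n + 2)) (n : ℕ) :
    Ev el (Fl 0 n) (fun x => oz ((yy c n s : ℕ) + x)) ≤
      (Real.log ((K + 2 : ℕ) : ℝ) + (n + 1) * Real.log φ) * (Op c)^[n] pr s := by
  rw [Op_iter_pr, ← Ev_mulR]
  apply Ev_mono_R el_law.1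
  intro x hx
  have hx1 := Rch_el 0 n x hx
  have h3 : Nat.fib (0 + 2) = 1 := rfl
  rw [h3, zero_add] at hx1
  push_cast at hx1
  have hy := hK n
  unfold oz om
  set p := (((yy c n s : ℕ) : ℤ) + x).toNat with hp
  split_ifs with hpp
  · have hpb : p ≤ (K + 2) * Nat.fib (n + 2) := by
      have : (K + 2) * Nat.fib (n + 2) = K * Nat.fib (n + 2) + 2 * Nat.fib (n + 2) := by ring
      omega
    have hp0 : (0 : ℝ) < p := by exact_mod_cast hpp.pos
    have hpb2 : (p : ℝ) ≤ ((K + 2 : ℕ) : ℝ) * φ ^ (n + 1) := by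
      have a1 : (Nat.fib (n + 2) : ℝ) ≤ φ ^ (n + 1) := fib_succ_le_phi _
      calc (p : ℝ) ≤ ((K + 2 : ℕ) : ℝ) * Nat.fib (n + 2) := by exact_mod_cast hpb
        _ ≤ _ := by gcongr
    have a2 := Real.log_le_log hp0 hpb2
    have hK0 : ((K + 2 : ℕ) : ℝ) ≠ 0 := by positivity
    rw [Real.log_mul hK0 (pow_pos Real.goldenRatio_pos _).ne', Real.log_pow] at a2
    push_cast at a2 ⊢
    linarith
  · simp

/-- upper bound -/
lemma P_upper (s : St) (m j : ℕ) (hm : 3 ≤ m) :
    (Op c)^[m + j] pr s ≤ (1 / 4 : ℝ) ^ j +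
      1 / Real.log (Nat.fib (m + 1)) * Ev el (Fl 0 (m + j)) (fun x => oz ((yy c (m + j) s : ℕ) + x)) := by
  have hF : (2 : ℕ) ≤ Nat.fib (m + 1) := by
    calc 2 ≤ Nat.fib 4 := by decide
      _ ≤ Nat.fib (m + 1) := Nat.fib_mono (by omega)
  have hlog : 0 < Real.log (Nat.fib (m + 1)) := Real.log_pos (by exact_mod_cast (by omega : 1 < Nat.fib (m + 1)))
  rw [Op_iter_pr]
  refine le_trans ?_ (add_le_add_left (low_all m j) _)
  rw [← Ev_mulR, ← Ev_add]
  apply Ev_mono_R el_law.1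
  intro x hx
  have hx1 := (Rch_el 0 (m + j) x hx).1
  have ho : 0 ≤ 1 / Real.log (Nat.fib (m + 1)) * oz ((yy c (m + j) s : ℕ) + x) :=
    mul_nonneg (by positivity) (oz_nonneg _)
  split_ifs with hp hx2 hx2
  · linarith
  · rw [zero_add]
    unfold oz om
    set p := (((yy c (m + j) s : ℕ) : ℤ) + x).toNat with hpd
    rw [if_pos hp]
    have h1 : Nat.fib (m + 1) ≤ p := by omega
    have h2 : Real.log (Nat.fib (m + 1)) ≤ Real.log p :=
      Real.log_le_log (by exact_mod_cast (by omega : 0 < Nat.fib (m + 1))) (by exact_mod_cast h1)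
    rw [one_div_mul_eq_div, le_div_iff₀ hlog, one_mul]
    exact h2
  · linarith
  · linarith

/-- **The probability that the `n`-th term is prime is asymptotically `1 / (n log φ)`.** -/
theorem P_asym (hc : Sm c) (s : St) : Tendsto (fun n : ℕ => (n : ℝ) * (Op c)^[n] pr s) atTop (nhds (1 / Real.log φ)) := by
  have hℓ := log_phi_pos
  set ℓ := Real.log φ with hℓd
  obtain ⟨K, hK⟩ := yy_le c hc s
  set a : ℝ := Real.log ((K + 2 : ℕ) : ℝ) with ha
  have ha0 : 0 ≤ a := Real.log_natCast_nonneg _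
  set E : ℕ → ℝ := fun n => Ev el (Fl 0 n) (fun x => oz ((yy c n s : ℕ) + x)) with hE
  have hE1 : Tendsto E atTop (nhds 1) := E_tendsto c hc s
  have hE0 : ∀ n, 0 ≤ E n := fun n => Ev_nonneg el_law _ _ (fun x => oz_nonneg _)
  have hinv : Tendsto (fun n : ℕ => (1 : ℝ) / n) atTop (nhds 0) := tendsto_one_div_atTop_nhds_zero_nat
  -- the lower bound
  have hlo : Tendsto (fun n : ℕ => E n / (a * (1 / n) + (ℓ + ℓ * (1 / n)))) atTop (nhds (1 / ℓ)) := by
    have h1 : Tendsto (fun n : ℕ => a * ((1 : ℝ) / n) + (ℓ + ℓ * (1 / n))) atTop (nhds (a * 0 + (ℓ + ℓ * 0))) :=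
      (hinv.const_mul a).add (tendsto_const_nhds.add (hinv.const_mul ℓ))
    have e : a * 0 + (ℓ + ℓ * 0) = ℓ := by ring
    rw [e] at h1
    exact hE1.div h1 hℓ.ne'
  -- the upper bound
  set L : ℕ → ℕ := fun n => Nat.log 2 n with hL
  have hLn : Tendsto (fun n : ℕ => (L n : ℝ) / n) atTop (nhds 0) := by
    have h1 : Tendsto (fun n : ℕ => Real.log n / (n : ℝ)) atTop (nhds 0) :=
      (Real.isLittleO_log_id_atTop.tendsto_div_nhds_zero).comp tendsto_natCast_atTop_atTop
    have h2 := h1.const_mul (2 : ℝ)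
    rw [mul_zero] at h2
    refine squeeze_zero' (Eventually.of_forall fun n => by positivity) ?_ h2
    filter_upwards [eventually_ge_atTop 1] with n hn
    have hn0 : (0 : ℝ) < n := by exact_mod_cast hn
    have h3 : ((2 : ℝ) ^ L n) ≤ n := by exact_mod_cast Nat.pow_log_le_self 2 (by omega)
    have h4 := Real.log_le_log (by positivity) h3
    rw [Real.log_pow] at h4
    have h5 := Real.log_two_gt_d9
    have h6 : (0 : ℝ) ≤ L n := Nat.cast_nonneg _
    rw [← mul_div_assoc]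
    apply div_le_div_of_nonneg_right _ hn0.le
    nlinarith
  have hup : Tendsto (fun n : ℕ => 16 * ((1 : ℝ) / n) + E n / (ℓ - 2 * ℓ * ((L n : ℝ) / n) - Real.log 2 * (1 / n)))
      atTop (nhds (1 / ℓ)) := by
    have h1 : Tendsto (fun n : ℕ => ℓ - 2 * ℓ * ((L n : ℝ) / n) - Real.log 2 * ((1 : ℝ) / n)) atTop
        (nhds (ℓ - 2 * ℓ * 0 - Real.log 2 * 0)) :=
      (tendsto_const_nhds.sub (hLn.const_mul _)).sub (hinv.const_mul _)
    have e : ℓ - 2 * ℓ * 0 - Real.log 2 * 0 = ℓ := by ring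
    rw [e] at h1
    have h2 := (hinv.const_mul 16).add (hE1.div h1 hℓ.ne')
    rw [mul_zero, zero_add] at h2
    exact h2
  refine tendsto_of_tendsto_of_tendsto_of_le_of_le' hlo hup ?_ ?_
  · filter_upwards [eventually_ge_atTop 1] with n hn
    have hn0 : (0 : ℝ) < n := by exact_mod_cast hn
    have h1 := P_lower c s K hK n
    rw [div_le_iff₀ (by positivity)]
    have e : (n : ℝ) * (Op c)^[n] pr s * (a * (1 / n) + (ℓ + ℓ * (1 / n))) = (a + (n + 1) * ℓ) * (Op c)^[n] pr s := by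
      field_simp
    rw [e]
    exact h1
  · have hev := hLn.eventually (gt_mem_nhds (show (0 : ℝ) < 1 / 8 by norm_num))
    filter_upwards [eventually_ge_atTop 40, hev] with n hn hLs
    have hn0 : (0 : ℝ) < n := by exact_mod_cast (by omega : 0 < n)
    have hnr : (40 : ℝ) ≤ n := by exact_mod_cast hn
    rw [div_lt_iff₀ hn0] at hLs
    have hLs2 : 8 * L n < n := by
      have : (8 : ℝ) * L n < n := by linarith
      exact_mod_cast this
    obtain ⟨m, hm⟩ : ∃ m, n = m + 2 * L n := ⟨n - 2 * L n, by omega⟩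
    have hm3 : 3 ≤ m := by omega
    have h1 := P_upper c s m (2 * L n) hm3
    rw [← hm] at h1
    -- the logarithm
    have hlogF : (m : ℝ) * ℓ - Real.log 2 ≤ Real.log (Nat.fib (m + 1)) := by
      have a1 := phi_le_fib m
      have a2 : (0 : ℝ) < Nat.fib (m + 1) := by exact_mod_cast Nat.fib_pos.2 (by omega)
      have a3 := Real.log_le_log (pow_pos Real.goldenRatio_pos m) a1
      rw [Real.log_pow, Real.log_mul (by norm_num) a2.ne'] at a3
      linarith
    have hmr : (m : ℝ) = n - 2 * L n := by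
      have : (n : ℝ) = m + 2 * L n := by exact_mod_cast hm
      linarith
    have hℓ2 : (0.375 : ℝ) ≤ ℓ := by
      have := Real.one_sub_inv_le_log_of_pos Real.goldenRatio_pos
      have h3 : φ⁻¹ ≤ 0.625 := by
        rw [inv_le_comm₀ Real.goldenRatio_pos (by norm_num)]
        have := phi_bounds.1
        norm_num
        linarith
      linarith
    have hl2' := Real.log_two_lt_d9
    have hd : 0 < (m : ℝ) * ℓ - Real.log 2 := by
      have : (30 : ℝ) ≤ m := by rw [hmr]; linarith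
      nlinarith
    have h2 : 1 / Real.log (Nat.fib (m + 1)) ≤ 1 / ((m : ℝ) * ℓ - Real.log 2) :=
      div_le_div_of_nonneg_left zero_le_one hd hlogF
    have h3 : (1 / 4 : ℝ) ^ (2 * L n) ≤ 16 / (n : ℝ) ^ 4 := by
      have d2 : (n : ℝ) ≤ 2 * 2 ^ L n := by
        have : n < 2 ^ (L n + 1) := Nat.lt_pow_succ_log_self (by norm_num) n
        have : (n : ℝ) ≤ 2 ^ (L n + 1) := by exact_mod_cast this.le
        rw [pow_succ] at this; linarith
      rw [le_div_iff₀ (by positivity)]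
      calc (1 / 4 : ℝ) ^ (2 * L n) * (n : ℝ) ^ 4 ≤ (1 / 4 : ℝ) ^ (2 * L n) * (2 * 2 ^ L n) ^ 4 := by gcongr
        _ = 16 * ((1 / 16) ^ L n * (2 ^ 4) ^ L n) := by
            rw [pow_mul, mul_pow, ← pow_mul 2 (L n) 4, mul_comm (L n) 4, pow_mul]; norm_num; ring
        _ = 16 := by rw [← mul_pow]; norm_num
    have h4 : (n : ℝ) * (16 / (n : ℝ) ^ 4) ≤ 16 * (1 / n) := by
      have : (n : ℝ) * (16 / (n : ℝ) ^ 4) = 16 * (1 / n) * (1 / n ^ 2) := by field_simp
      rw [this]
      apply mul_le_of_le_one_right (by positivity)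
      rw [div_le_one (by positivity)]
      nlinarith
    have h5 : (n : ℝ) * (1 / ((m : ℝ) * ℓ - Real.log 2) * E n) =
        E n / (ℓ - 2 * ℓ * ((L n : ℝ) / n) - Real.log 2 * (1 / n)) := by
      have e : ℓ - 2 * ℓ * ((L n : ℝ) / n) - Real.log 2 * (1 / n) = ((m : ℝ) * ℓ - Real.log 2) / n := by
        rw [hmr]; field_simp
      rw [e]
      field_simp
    calc (n : ℝ) * (Op c)^[n] pr s ≤ n * ((1 / 4 : ℝ) ^ (2 * L n) + 1 / Real.log (Nat.fib (m + 1)) * E n) := by
          gcongr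
      _ ≤ n * (16 / (n : ℝ) ^ 4 + 1 / ((m : ℝ) * ℓ - Real.log 2) * E n) := by
          have := hE0 n
          gcongr
      _ = n * (16 / (n : ℝ) ^ 4) + n * (1 / ((m : ℝ) * ℓ - Real.log 2) * E n) := by ring
      _ ≤ _ := by rw [h5]; linarith

end Pool.Agent.K4H3.CT
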