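import Mathlib
import Pool.Agent.K4H3.CT.D11

/-! Transfer to an arbitrary probability space. -/

set_option autoImplicit false

namespace Pool.Agent.K4H3.CT
open Finset Filter MeasureTheory ProbabilityTheory
open scoped goldenRatio

variable (c : ℕ → ℕ)

/-- the states of the process -/
def st (s : St) (e : ℕ → ℕ) : ℕ → St
  | 0 => s
  | (n + 1) => step c (st s e n) (e n)

lemma st_shift (s : St) (e : ℕ → ℕ) (n : ℕ) :
    st c s e (n + 1) = st c (step c s (e 0)) (fun i => e (i + 1)) n := by
  induction n with
  | zero => rfl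
  | succ n ih =>
    show step c (st c s e (n + 1)) (e (n + 1)) =
      step c (st c (step c s (e 0)) (fun i => e (i + 1)) n) (e (n + 1))
    rw [ih]

open Classical in
/-- the probability that the states satisfy the conditions `B` -/
noncomputable def qB : ℕ → (ℕ → St → Prop) → St → ℝ
  | 0, _, _ => 1
  | (W + 1), B, s => ∑ v ∈ range 3, pe v *
      (if B 0 (step c s v) then qB W (fun j => B (j + 1)) (step c s v) else 0)

lemma meas_st {Ω : Type*} [MeasurableSpace Ω] {e : ℕ → Ω → ℕ} (he : ∀ i, Measurable (e i))
    (s : St) (n : ℕ) : Measurable (fun ω => st c s (fun i => e i ω) n) := by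
  induction n with
  | zero => exact measurable_const
  | succ n ih =>
    exact (measurable_of_countable (fun p : St × ℕ => step c p.1 p.2)).comp (ih.prodMk (he n))

lemma meas_ev {Ω : Type*} [MeasurableSpace Ω] {e : ℕ → Ω → ℕ} (he : ∀ i, Measurable (e i))
    (s : St) (B : ℕ → St → Prop) (W : ℕ) :
    MeasurableSet {ω | ∀ j < W, B j (st c s (fun i => e i ω) (j + 1))} := by
  have h : {ω | ∀ j < W, B j (st c s (fun i => e i ω) (j + 1))} =
      ⋂ j ∈ Set.Iio W, (fun ω => st c s (fun i => e i ω) (j + 1)) ⁻¹' {x | B j x} := by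
    ext ω; simp
  rw [h]
  exact MeasurableSet.biInter (Set.to_countable _) fun j _ =>
    (meas_st c he s (j + 1)) (Set.to_countable _).measurableSet

/-- the law of the noise -/
def Law {Ω : Type*} [MeasurableSpace Ω] (P : Measure Ω) (e : ℕ → Ω → ℕ) : Prop :=
  ∀ n, P {ω | e n ω = 0} = 1 / 4 ∧ P {ω | e n ω = 1} = 1 / 2 ∧ P {ω | e n ω = 2} = 1 / 4

lemma law_pe {Ω : Type*} [MeasurableSpace Ω] {P : Measure Ω} {e : ℕ → Ω → ℕ} (hl : Law P e)
    (n v : ℕ) (hv : v ∈ range 3) : P.real {ω | e n ω = v} = pe v := by
  rw [mem_range] at hv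
  obtain ⟨h0, h1, h2⟩ := hl n
  unfold pe
  interval_cases v
  · rw [measureReal_def, h0]; norm_num
  · rw [measureReal_def, h1]; norm_num
  · rw [measureReal_def, h2]; norm_num

theorem transfer {Ω : Type*} [mΩ : MeasurableSpace Ω] (P : Measure Ω) [IsProbabilityMeasure P] (W : ℕ) :
    ∀ (e : ℕ → Ω → ℕ) (_ : ∀ n, Measurable (e n)) (_ : iIndepFun e P) (_ : Law P e)
      (B : ℕ → St → Prop) (s : St),
      P.real {ω | ∀ j < W, B j (st c s (fun i => e i ω) (j + 1))} = qB c W B s := by
  classical
  induction W with
  | zero =>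
    intro e _ _ _ B s
    simp [qB]
  | succ W ih =>
    intro e he hi hl B s
    set E : Set Ω := {ω | ∀ j < W + 1, B j (st c s (fun i => e i ω) (j + 1))} with hE
    set A : ℕ → Set Ω := fun v => {ω | e 0 ω = v} with hA
    set G : ℕ → Set Ω := fun v =>
      {ω | ∀ j < W, B (j + 1) (st c (step c s v) (fun i => e (i + 1) ω) (j + 1))} with hG
    have hAm : ∀ v, MeasurableSet (A v) := fun v => (he 0) (measurableSet_singleton v)
    have hEm : MeasurableSet E := meas_ev c he s B (W + 1)
    -- the exceptional set
    have hdisj : Set.PairwiseDisjoint (↑(range 3) : Set ℕ) A := by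
      intro v _ w _ hvw
      rw [Function.onFun, Set.disjoint_left]
      intro ω h1 h2
      exact hvw (h1.symm.trans h2)
    have hU : P.real (⋃ v ∈ range 3, A v) = 1 := by
      rw [measureReal_biUnion_finset hdisj (fun v _ => hAm v)]
      rw [sum_congr rfl (fun v hv => law_pe hl 0 v hv), pe_sum]
    have hUm : MeasurableSet (⋃ v ∈ range 3, A v) := Finset.measurableSet_biUnion _ fun v _ => hAm v
    have hUc : P (⋃ v ∈ range 3, A v)ᶜ = 0 := by
      rw [prob_compl_eq_zero_iff hUm]
      rw [measureReal_def] at hU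
      have := (ENNReal.toReal_eq_one_iff _).1 hU
      exact this
    have h1 : P.real E = P.real (⋃ v ∈ range 3, E ∩ A v) := by
      have e1 : (⋃ v ∈ range 3, E ∩ A v) = E ∩ (⋃ v ∈ range 3, A v) := by
        rw [Set.inter_iUnion₂]
      rw [e1, measureReal_def, measureReal_def]
      congr 1
      rw [← measure_inter_add_diff E hUm]
      have : P (E \ ⋃ v ∈ range 3, A v) = 0 := measure_mono_null (fun ω hω => hω.2) hUc
      rw [this, add_zero]
    rw [h1, measureReal_biUnion_finset (hdisj.mono fun v => Set.inter_subset_right)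
      (fun v _ => hEm.inter (hAm v))]
    rw [qB]
    apply sum_congr rfl
    intro v hv
    -- the event on `e 0 = v`
    have h2 : E ∩ A v = if B 0 (step c s v) then A v ∩ G v else ∅ := by
      ext ω
      have key : ω ∈ A v → (ω ∈ E ↔ B 0 (step c s v) ∧ ω ∈ G v) := by
        intro hω
        have hω' : e 0 ω = v := hω
        rw [hE, hG]
        simp only [Set.mem_setOf_eq]
        constructor
        · intro h
          refine ⟨?_, fun j hj => ?_⟩
          · have := h 0 (by omega)
            have e2 : st c s (fun i => e i ω) (0 + 1) = step c s (e 0 ω) := rfl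
            rw [e2, hω'] at this
            exact this
          · have := h (j + 1) (by omega)
            rw [st_shift] at this
            simp only [hω'] at this
            exact this
        · rintro ⟨h3, h4⟩ j hj
          rcases Nat.eq_zero_or_pos j with h5 | h5
          · subst h5
            have e2 : st c s (fun i => e i ω) (0 + 1) = step c s (e 0 ω) := rfl
            rw [e2, hω']
            exact h3
          · obtain ⟨i, rfl⟩ : ∃ i, j = i + 1 := ⟨j - 1, by omega⟩
            rw [st_shift]
            simp only [hω']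
            exact h4 i (by omega)
      by_cases hB : B 0 (step c s v)
      · rw [if_pos hB]
        constructor
        · rintro ⟨h3, h4⟩; exact ⟨h4, ((key h4).1 h3).2⟩
        · rintro ⟨h3, h4⟩; exact ⟨(key h3).2 ⟨hB, h4⟩, h3⟩
      · rw [if_neg hB]
        constructor
        · rintro ⟨h3, h4⟩; exact absurd ((key h4).1 h3).1 hB
        · rintro h3; exact absurd h3 (Set.notMem_empty ω)
    rw [h2]
    split_ifs with hB
    · -- independence
      have hcomap : ∀ i, MeasurableSpace.comap (e i) ⊤ ≤ mΩ := fun i => (he i).comap_le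
      have hind := indep_iSup_of_disjoint (m := fun i => MeasurableSpace.comap (e i) ⊤) hcomap
        hi.iIndep (S := {0}) (T := Set.Ici 1) (by
          rw [Set.disjoint_left]; intro i hi1 hi2
          rw [Set.mem_singleton_iff] at hi1
          rw [Set.mem_Ici] at hi2
          omega)
      rw [Indep_iff] at hind
      have hm1 : MeasurableSet[⨆ i ∈ ({0} : Set ℕ), MeasurableSpace.comap (e i) ⊤] (A v) := by
        have : MeasurableSet[MeasurableSpace.comap (e 0) ⊤] (A v) := ⟨{v}, trivial, rfl⟩
        exact (le_iSup₂_of_le 0 (Set.mem_singleton 0) le_rfl :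
          MeasurableSpace.comap (e 0) ⊤ ≤ ⨆ i ∈ ({0} : Set ℕ), MeasurableSpace.comap (e i) ⊤) _ this
      have hm2 : MeasurableSet[⨆ i ∈ Set.Ici 1, MeasurableSpace.comap (e i) ⊤] (G v) := by
        refine @meas_ev c Ω (⨆ i ∈ Set.Ici 1, MeasurableSpace.comap (e i) ⊤) (fun i => e (i + 1)) ?_ (step c s v)
          (fun j => B (j + 1)) W
        intro i
        have h3 : @Measurable Ω ℕ (MeasurableSpace.comap (e (i + 1)) ⊤) ⊤ (e (i + 1)) :=
          comap_measurable (e (i + 1))
        exact h3.mono (le_iSup₂_of_le (i + 1) (by rw [Set.mem_Ici]; omega) le_rfl) le_rfl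
      have h3 := hind (A v) (G v) hm1 hm2
      have h4 : P.real (A v ∩ G v) = P.real (A v) * P.real (G v) := by
        rw [measureReal_def, h3, ENNReal.toReal_mul]; rfl
      rw [h4, law_pe hl 0 v hv]
      congr 1
      exact ih (fun i => e (i + 1)) (fun n => he _) (hi.precomp (add_left_injective 1))
        (fun n => hl (n + 1)) (fun j => B (j + 1)) (step c s v)
    · simp

end Pool.Agent.K4H3.CT
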