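import Mathlib
import Pool.Agent.K4H3.CT.D12

/-! The process and the terms of the sequence. -/

set_option autoImplicit false

namespace Pool.Agent.K4H3.CT
open Finset Filter MeasureTheory ProbabilityTheory
open scoped goldenRatio

variable (c : ℕ → ℕ)

lemma qB_congr (W : ℕ) (B B' : ℕ → St → Prop) (h : ∀ j s, B j s ↔ B' j s) (s : St) :
    qB c W B s = qB c W B' s := by
  have : B = B' := by funext j s; exact propext (h j s)
  rw [this]

lemma qB_mark (n : ℕ) (s : St) :
    qB c (n + 1) (fun j s' => j = n → s'.2.2.2.Prime) s = (Op c)^[n + 1] pr s := by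
  classical
  induction n generalizing s with
  | zero =>
    rw [qB]
    simp only [Function.iterate_succ, Function.iterate_zero, Function.comp, id]
    unfold Op
    apply sum_congr rfl; intro v _
    congr 1
    unfold pr
    simp [qB]
  | succ n ih =>
    rw [qB, Function.iterate_succ_apply']
    conv_rhs => unfold Op
    apply sum_congr rfl; intro v _
    congr 1
    rw [if_pos (by intro h; omega)]
    rw [qB_congr c (n + 1) (fun j s' => j + 1 = n + 1 → s'.2.2.2.Prime) (fun j s' => j = n → s'.2.2.2.Prime)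
      (fun j s' => by simp) (step c s v)]
    exact ih (step c s v)

lemma qB_zero (κ : ℝ) (W : ℕ) (s : St) :
    qB c W (fun _ s' => (s'.2.1 : ℝ) < κ * Real.log (s'.1 : ℝ)) s = hh c κ W s := by
  classical
  induction W generalizing s with
  | zero => rfl
  | succ W ih =>
    rw [qB, hh]
    unfold Op
    apply sum_congr rfl; intro v _
    congr 1
    beta_reduce
    split_ifs
    · exact ih (step c s v)
    · rfl

lemma qB_tail (κ : ℝ) (n W : ℕ) (s : St) :
    qB c (n + W) (fun j s' => n ≤ j → (s'.2.1 : ℝ) < κ * Real.log (s'.1 : ℝ)) s =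
      (Op c)^[n] (hh c κ W) s := by
  classical
  induction n generalizing s with
  | zero =>
    rw [Function.iterate_zero, id, ← qB_zero, zero_add]
    exact qB_congr c W _ _ (fun j s' => by simp) s
  | succ n ih =>
    rw [show n + 1 + W = (n + W) + 1 by ring, qB, Function.iterate_succ_apply']
    conv_rhs => unfold Op
    apply sum_congr rfl; intro v _
    congr 1
    rw [if_pos (by intro h; omega)]
    rw [qB_congr c (n + W) (fun j s' => n + 1 ≤ j + 1 → (s'.2.1 : ℝ) < κ * Real.log (s'.1 : ℝ))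
      (fun j s' => n ≤ j → (s'.2.1 : ℝ) < κ * Real.log (s'.1 : ℝ)) (fun j s' => by simp) (step c s v)]
    exact ih (step c s v)

lemma iter_tendsto (F : ℕ → St → ℝ) (hF : ∀ s, Tendsto (fun W => F W s) atTop (nhds 0)) (n : ℕ) (s : St) :
    Tendsto (fun W => (Op c)^[n] (F W) s) atTop (nhds 0) := by
  induction n generalizing s with
  | zero => exact hF s
  | succ n ih =>
    have h : Tendsto (fun W => ∑ v ∈ range 3, pe v * (Op c)^[n] (F W) (step c s v)) atTop
        (nhds (∑ v ∈ range 3, pe v * 0)) := by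
      apply tendsto_finsetSum
      intro v _
      exact (ih (step c s v)).const_mul _
    simp only [mul_zero, sum_const_zero] at h
    refine h.congr fun W => ?_
    rw [Function.iterate_succ_apply']
    rfl

/-- the sequence -/
def xs (a b : ℕ) (e : ℕ → ℕ) : ℕ → ℕ
  | 0 => a
  | 1 => b
  | (n + 2) => xs a b e (n + 1) + xs a b e n + c n + e n

/-- the number of the primes among the terms with index below `N` -/
def cn (a b : ℕ) (e : ℕ → ℕ) (N : ℕ) : ℕ := ((range N).filter (fun n => (xs c a b e n).Prime)).card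

lemma st_eq (a b : ℕ) (e : ℕ → ℕ) (n : ℕ) : (st c (0, 0, a, b) e n).1 = n ∧
    (st c (0, 0, a, b) e n).2.1 = ((range n).filter (fun i => (xs c a b e (i + 2)).Prime)).card ∧
    (st c (0, 0, a, b) e n).2.2.1 = xs c a b e n ∧ (st c (0, 0, a, b) e n).2.2.2 = xs c a b e (n + 1) := by
  induction n with
  | zero => exact ⟨rfl, by simp [st], rfl, rfl⟩
  | succ n ih =>
    obtain ⟨h1, h2, h3, h4⟩ := ih
    have hx : (st c (0, 0, a, b) e n).2.2.1 + (st c (0, 0, a, b) e n).2.2.2 +
        c (st c (0, 0, a, b) e n).1 + e n = xs c a b e (n + 2) := by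
      rw [h1, h3, h4]
      show _ = xs c a b e (n + 1) + xs c a b e n + c n + e n
      ring
    refine ⟨?_, ?_, ?_, ?_⟩
    · show (st c (0, 0, a, b) e n).1 + 1 = n + 1
      rw [h1]
    · show (st c (0, 0, a, b) e n).2.1 + (if ((st c (0, 0, a, b) e n).2.2.1 + (st c (0, 0, a, b) e n).2.2.2 +
        c (st c (0, 0, a, b) e n).1 + e n).Prime then 1 else 0) = _
      rw [hx, h2, range_add_one, filter_insert]
      split_ifs
      · rw [card_insert_of_notMem (by simp)]
      · rfl
    · show (st c (0, 0, a, b) e n).2.2.2 = _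
      rw [h4]
    · show (st c (0, 0, a, b) e n).2.2.1 + (st c (0, 0, a, b) e n).2.2.2 +
        c (st c (0, 0, a, b) e n).1 + e n = _
      rw [hx]

lemma st_count (a b : ℕ) (e : ℕ → ℕ) (n : ℕ) : (st c (0, 0, a, b) e n).2.1 ≤ cn c a b e (n + 2) := by
  rw [(st_eq c a b e n).2.1]
  unfold cn
  apply card_le_card_of_injOn (fun i => i + 2)
  · intro i hi
    rw [coe_filter, Set.mem_setOf_eq, mem_range] at hi
    rw [coe_filter, Set.mem_setOf_eq, mem_range]
    refine ⟨?_, hi.2⟩
    show i + 2 < n + 2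
    omega
  · intro i _ j _ h
    simpa using h

section prob
variable {Ω : Type*} [mΩ : MeasurableSpace Ω] (P : Measure Ω) [IsProbabilityMeasure P]
  {e : ℕ → Ω → ℕ} (he : ∀ n, Measurable (e n)) (hi : iIndepFun e P) (hl : Law P e)

include he hi hl

lemma prob_prime (a b k : ℕ) : P.real {ω | (xs c a b (fun i => e i ω) (k + 2)).Prime} =
    (Op c)^[k + 1] pr (0, 0, a, b) := by
  rw [← qB_mark, ← transfer c P (k + 1) e he hi hl]
  congr 1
  ext ω
  simp only [Set.mem_setOf_eq]
  have h := (st_eq c a b (fun i => e i ω) (k + 1)).2.2.2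
  constructor
  · intro hp j hj hjk
    subst hjk
    rw [h]; exact hp
  · intro hp
    have := hp k (by omega) rfl
    rwa [h] at this

lemma prob_tendsto (hc : Sm c) (a b : ℕ) :
    Tendsto (fun n : ℕ => (n : ℝ) * P.real {ω | (xs c a b (fun i => e i ω) n).Prime}) atTop
      (nhds (1 / Real.log φ)) := by
  have h1 := P_asym c hc (0, 0, a, b)
  have hinv : Tendsto (fun n : ℕ => (1 : ℝ) / n) atTop (nhds 0) := tendsto_one_div_atTop_nhds_zero_nat
  have h2 : Tendsto (fun n : ℕ => (Op c)^[n] pr (0, 0, a, b)) atTop (nhds 0) := by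
    have h3 := h1.mul hinv
    rw [mul_zero] at h3
    refine (tendsto_congr' ?_).1 h3
    filter_upwards [eventually_ge_atTop 1] with n hn
    have : (n : ℝ) ≠ 0 := by exact_mod_cast (by omega : n ≠ 0)
    field_simp
  have h3 : Tendsto (fun n : ℕ => (n : ℝ) * (Op c)^[n] pr (0, 0, a, b) + (Op c)^[n] pr (0, 0, a, b)) atTop
      (nhds (1 / Real.log φ)) := by
    have := h1.add h2
    rwa [add_zero] at this
  rw [← tendsto_add_atTop_iff_nat 2]
  have h4 := (tendsto_add_atTop_iff_nat 1).2 h3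
  refine h4.congr fun k => ?_
  rw [prob_prime c P he hi hl a b k]
  push_cast
  ring

lemma ae_many {κ : ℝ} (hκ : ∀ s : St, Tendsto (fun W => hh c κ W s) atTop (nhds 0)) (a b : ℕ) :
    ∀ᵐ ω ∂P, ∀ n : ℕ, ∃ j, n ≤ j ∧ κ * Real.log ((j + 1 : ℕ) : ℝ) ≤
      ((st c (0, 0, a, b) (fun i => e i ω) (j + 1)).2.1 : ℝ) := by
  rw [ae_all_iff]
  intro n
  have h0 : P.real {ω | ∀ j, n ≤ j → ((st c (0, 0, a, b) (fun i => e i ω) (j + 1)).2.1 : ℝ) <
      κ * Real.log ((st c (0, 0, a, b) (fun i => e i ω) (j + 1)).1 : ℝ)} ≤ 0 := by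
    have h1 := iter_tendsto c (fun W => hh c κ W) hκ n (0, 0, a, b)
    refine ge_of_tendsto h1 (Eventually.of_forall fun W => ?_)
    rw [← qB_tail, ← transfer c P (n + W) e he hi hl]
    apply measureReal_mono
    · intro ω hω j _ hnj
      exact hω j hnj
    · exact measure_ne_top _ _
  have h1 : P {ω | ∀ j, n ≤ j → ((st c (0, 0, a, b) (fun i => e i ω) (j + 1)).2.1 : ℝ) <
      κ * Real.log ((st c (0, 0, a, b) (fun i => e i ω) (j + 1)).1 : ℝ)} = 0 := by
    have := le_antisymm h0 measureReal_nonneg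
    rwa [measureReal_eq_zero_iff] at this
  rw [ae_iff]
  refine measure_mono_null ?_ h1
  intro ω hω
  simp only [Set.mem_setOf_eq, not_exists, not_and, not_le] at hω ⊢
  intro j hj
  have h2 := hω j hj
  rw [(st_eq c a b (fun i => e i ω) (j + 1)).1]
  exact h2

end prob

/-- from the process to the sequence -/
lemma many_of (a b : ℕ) (e : ℕ → ℕ) {κ : ℝ} (hκ : 0 < κ)
    (h : ∀ n : ℕ, ∃ j, n ≤ j ∧ κ * Real.log ((j + 1 : ℕ) : ℝ) ≤ ((st c (0, 0, a, b) e (j + 1)).2.1 : ℝ)) :
    {n | (xs c a b e n).Prime}.Infinite ∧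
      ∃ᶠ N : ℕ in atTop, κ / 2 * Real.log N ≤ cn c a b e N := by
  have h1 : ∃ᶠ N : ℕ in atTop, κ / 2 * Real.log N ≤ cn c a b e N := by
    rw [frequently_atTop]
    intro N₀
    obtain ⟨j, hj, hj2⟩ := h (N₀ + 1)
    refine ⟨j + 1 + 2, by omega, ?_⟩
    have h2 : (((st c (0, 0, a, b) e (j + 1)).2.1 : ℕ) : ℝ) ≤ cn c a b e (j + 1 + 2) := by
      exact_mod_cast st_count c a b e (j + 1)
    refine le_trans ?_ (hj2.trans h2)
    have h3 : (((j + 1 + 2 : ℕ)) : ℝ) ≤ ((j + 1 : ℕ) : ℝ) ^ 2 := by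
      have : j + 1 + 2 ≤ (j + 1) ^ 2 := by nlinarith
      exact_mod_cast this
    have h4 := Real.log_le_log (by positivity) h3
    rw [Real.log_pow, Nat.cast_ofNat] at h4
    nlinarith
  refine ⟨?_, h1⟩
  intro hfin
  set B := hfin.toFinset.card with hB
  have h2 : ∀ N, cn c a b e N ≤ B := by
    intro N
    unfold cn
    apply card_le_card
    intro n hn
    rw [Finset.mem_filter] at hn
    rw [Set.Finite.mem_toFinset]
    exact hn.2
  have h3 : Tendsto (fun N : ℕ => κ / 2 * Real.log N) atTop atTop :=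
    (Real.tendsto_log_atTop.comp tendsto_natCast_atTop_atTop).const_mul_atTop (by positivity)
  have h4 := h3.eventually_gt_atTop (B : ℝ)
  obtain ⟨N, hN1, hN2⟩ := (h1.and_eventually h4).exists
  have h5 : (cn c a b e N : ℝ) ≤ B := by exact_mod_cast h2 N
  linarith

end Pool.Agent.K4H3.CT
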